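import Mathlib

set_option autoImplicit false

open Finset

namespace Pool.Agent.Helper3.OP

/-- Finite product `(q;q)_k`. -/
noncomputable def Qp (q : ℂ) (k : ℕ) : ℂ := ∏ j ∈ range k, (1 - q ^ (j + 1))

/-- Gaussian binomial coefficients, by recurrence. -/
noncomputable def gb (q : ℂ) : ℕ → ℕ → ℂ
  | _, 0 => 1
  | 0, (_ + 1) => 0
  | (M + 1), (k + 1) => gb q M k + q ^ (k + 1) * gb q M (k + 1)

@[simp] lemma gb_zero_right (q : ℂ) (M : ℕ) : gb q M 0 = 1 := by
  cases M <;> rfl

@[simp] lemma gb_zero_succ (q : ℂ) (k : ℕ) : gb q 0 (k + 1) = 0 := rfl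

lemma gb_succ_succ (q : ℂ) (M k : ℕ) :
    gb q (M + 1) (k + 1) = gb q M k + q ^ (k + 1) * gb q M (k + 1) := rfl

lemma gb_eq_zero (q : ℂ) : ∀ (M k : ℕ), M < k → gb q M k = 0 := by
  intro M
  induction M with
  | zero =>
    intro k hk
    obtain ⟨k, rfl⟩ := Nat.exists_eq_succ_of_ne_zero (by omega : k ≠ 0)
    rfl
  | succ M ih =>
    intro k hk
    obtain ⟨k, rfl⟩ := Nat.exists_eq_succ_of_ne_zero (by omega : k ≠ 0)
    rw [Nat.succ_eq_add_one, gb_succ_succ, ih k (by omega), ih (k + 1) (by omega)]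
    simp

lemma qbinom (q : ℂ) (M : ℕ) : ∀ x : ℂ, ∏ j ∈ range M, (1 + x * q ^ j)
    = ∑ k ∈ range (M + 1), gb q M k * q ^ (k.choose 2) * x ^ k := by
  induction M with
  | zero => intro x; simp
  | succ M ih =>
    intro x
    rw [prod_range_succ', pow_zero, mul_one]
    have h1 : ∏ k ∈ range M, (1 + x * q ^ (k + 1)) = ∏ k ∈ range M, (1 + (x * q) * q ^ k) := by
      refine prod_congr rfl fun k _ => ?_
      ring
    rw [h1, ih (x * q), mul_add, mul_one, sum_range_succ' _ (M + 1)]
    have h2 : ∀ k, gb q (M + 1) (k + 1) * q ^ ((k + 1).choose 2) * x ^ (k + 1)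
        = (gb q M k * q ^ (k.choose 2) * (x * q) ^ k) * x
          + gb q M (k + 1) * q ^ ((k + 1).choose 2) * (x * q) ^ (k + 1) := by
      intro k
      rw [gb_succ_succ]
      have : (k + 1).choose 2 = k + k.choose 2 := by
        rw [Nat.choose_succ_succ' k 1, Nat.choose_one_right]
      rw [this]
      ring
    simp only [h2, sum_add_distrib]
    rw [← sum_mul]
    have h3 : ∑ k ∈ range (M + 1), gb q M (k + 1) * q ^ ((k + 1).choose 2) * (x * q) ^ (k + 1)
        = ∑ k ∈ range M, gb q M (k + 1) * q ^ ((k + 1).choose 2) * (x * q) ^ (k + 1) := by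
      rw [sum_range_succ, gb_eq_zero q M (M + 1) (by omega)]
      simp
    have h4 : ∑ k ∈ range (M + 1), gb q M k * q ^ (k.choose 2) * (x * q) ^ k
        = ∑ k ∈ range M, gb q M (k + 1) * q ^ ((k + 1).choose 2) * (x * q) ^ (k + 1) + 1 := by
      rw [sum_range_succ']
      simp
    rw [h3]
    simp only [gb_zero_right]
    have h5 : (Nat.choose 0 2) = 0 := rfl
    rw [h5]
    calc _ = (∑ x_1 ∈ range (M + 1), gb q M x_1 * q ^ x_1.choose 2 * (x * q) ^ x_1) * x
          + ∑ k ∈ range (M + 1), gb q M k * q ^ (k.choose 2) * (x * q) ^ k := by ring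
      _ = _ := by rw [h4]; ring

lemma gb_mul_Qp (q : ℂ) : ∀ (M k l : ℕ), k + l = M → gb q M k * Qp q k * Qp q l = Qp q M := by
  intro M
  induction M with
  | zero =>
    intro k l h
    obtain ⟨rfl, rfl⟩ : k = 0 ∧ l = 0 := by omega
    simp [Qp]
  | succ M ih =>
    intro k l h
    rcases k with _ | k
    · have : l = M + 1 := by omega
      subst this
      simp [Qp]
    · rw [gb_succ_succ]
      have e1 := ih k l (by omega)
      have hQ : Qp q (k + 1) = Qp q k * (1 - q ^ (k + 1)) := by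
        rw [Qp, Qp, prod_range_succ]
      have hQM : Qp q (M + 1) = Qp q M * (1 - q ^ (M + 1)) := by
        rw [Qp, Qp, prod_range_succ]
      rcases l with _ | l
      · have hk : k = M := by omega
        subst hk
        rw [gb_eq_zero q k (k + 1) (by omega)]
        rw [hQ]
        have : gb q k k * Qp q k * Qp q 0 = Qp q k := ih k 0 (by omega)
        calc (gb q k k + q ^ (k + 1) * 0) * (Qp q k * (1 - q ^ (k + 1))) * Qp q 0
            = (gb q k k * Qp q k * Qp q 0) * (1 - q ^ (k + 1)) := by ring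
          _ = _ := by rw [this]
      · have e2 := ih (k + 1) l (by omega)
        have hQl : Qp q (l + 1) = Qp q l * (1 - q ^ (l + 1)) := by
          rw [Qp, Qp, prod_range_succ]
        have hM : M = k + (l + 1) := by omega
        calc (gb q M k + q ^ (k + 1) * gb q M (k + 1)) * Qp q (k + 1) * Qp q (l + 1)
            = (gb q M k * Qp q k * Qp q (l + 1)) * (1 - q ^ (k + 1))
              + q ^ (k + 1) * (gb q M (k + 1) * Qp q (k + 1) * Qp q l) * (1 - q ^ (l + 1)) := by
              rw [hQ, hQl]; ring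
          _ = Qp q M * (1 - q ^ (k + 1)) + q ^ (k + 1) * Qp q M * (1 - q ^ (l + 1)) := by
              rw [e1, e2]
          _ = Qp q (M + 1) := by rw [hQM, hM]; ring

end Pool.Agent.Helper3.OP
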