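import Mathlib
import Pool.Agent.Helper3.QBinom

set_option autoImplicit false

open Finset Filter Topology

namespace Pool.Agent.Helper3.OP

/-- `∏ (1 + 3 q^j)` over `j ≥ 1`. -/
noncomputable def Aq (q : ℂ) : ℂ := ∏' j : ℕ, (1 + 3 * q ^ (j + 1))

/-- `∏ (1 + q^j / 3)` over `j ≥ 1`. -/
noncomputable def Bq (q : ℂ) : ℂ := ∏' j : ℕ, (1 + q ^ (j + 1) / 3)

/-- `∏ (1 - q^j)` over `j ≥ 1`. -/
noncomputable def Eq (q : ℂ) : ℂ := ∏' j : ℕ, (1 - q ^ (j + 1))

/-- `∏ (1 - q^(2j+1))` over `j ≥ 0`. -/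
noncomputable def Oq (q : ℂ) : ℂ := ∏' j : ℕ, (1 - q ^ (2 * j + 1))

/-- The theta series `∑ 3^n q^(n(n+1)/2)` with `q = exp (-w)`. -/
noncomputable def Th (w : ℂ) : ℂ :=
  ∑' n : ℤ, Complex.exp (((Real.log 3 : ℝ) - w / 2) * n - w / 2 * (n : ℂ) ^ 2)

lemma summable_pow_succ {q : ℂ} (hq : ‖q‖ < 1) : Summable fun j : ℕ => ‖q‖ ^ (j + 1) :=
  (summable_nat_add_iff 1).mpr (summable_geometric_of_lt_one (norm_nonneg _) hq)

lemma multipliable_A {q : ℂ} (hq : ‖q‖ < 1) : Multipliable fun j : ℕ => (1 + 3 * q ^ (j + 1)) := by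
  apply multipliable_one_add_of_summable
  simpa using (summable_pow_succ hq).mul_left 3

lemma multipliable_B {q : ℂ} (hq : ‖q‖ < 1) : Multipliable fun j : ℕ => (1 + q ^ (j + 1) / 3) := by
  apply multipliable_one_add_of_summable
  simpa using (summable_pow_succ hq).div_const 3

lemma multipliable_E {q : ℂ} (hq : ‖q‖ < 1) : Multipliable fun j : ℕ => (1 - q ^ (j + 1)) := by
  apply multipliable_one_add_of_summable (f := fun j => - q ^ (j + 1))
  simpa using (summable_pow_succ hq)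

lemma multipliable_O {q : ℂ} (hq : ‖q‖ < 1) : Multipliable fun j : ℕ => (1 - q ^ (2 * j + 1)) := by
  apply multipliable_one_add_of_summable (f := fun j => - q ^ (2 * j + 1))
  have h : Summable fun j : ℕ => ‖q‖ ^ (j + 1) := summable_pow_succ hq
  refine Summable.of_nonneg_of_le (fun j => norm_nonneg _) (fun j => ?_) h
  rw [norm_neg, norm_pow]
  exact pow_le_pow_of_le_one (norm_nonneg _) hq.le (by omega)

lemma tendsto_Qp {q : ℂ} (hq : ‖q‖ < 1) : Tendsto (fun k => Qp q k) atTop (𝓝 (Eq q)) :=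
  (multipliable_E hq).hasProd.tendsto_prod_nat

lemma one_sub_pow_ne_zero {q : ℂ} (hq : ‖q‖ < 1) (j : ℕ) : 1 - q ^ (j + 1) ≠ 0 := by
  intro h
  have h1 : q ^ (j + 1) = 1 := by linear_combination -h
  have h2 : ‖q‖ ^ (j + 1) = 1 := by rw [← norm_pow, h1, norm_one]
  have h3 : ‖q‖ ^ (j + 1) < 1 := pow_lt_one₀ (norm_nonneg _) hq (by omega)
  linarith

lemma Qp_ne_zero {q : ℂ} (hq : ‖q‖ < 1) (k : ℕ) : Qp q k ≠ 0 := by
  rw [Qp, prod_ne_zero_iff]
  intro j _
  exact one_sub_pow_ne_zero hq j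

lemma Eq_ne_zero {q : ℂ} (hq : ‖q‖ < 1) : Eq q ≠ 0 := by
  refine tprod_one_add_ne_zero_of_summable (f := fun j : ℕ => - q ^ (j + 1)) ?_ ?_
  · intro j
    have := one_sub_pow_ne_zero hq j
    rwa [sub_eq_add_neg] at this
  · simpa using (summable_pow_succ hq)

/-- The finite form of the triple product at `z = 3`. -/
lemma finite_triple {q : ℂ} (hq0 : q ≠ 0) (N : ℕ) :
    (∏ j ∈ range N, (1 + 3 * q ^ (j + 1))) * (∏ j ∈ range N, (1 + q ^ j / 3))
      = ∑ k ∈ range (2 * N + 1),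
          gb q (2 * N) k * ((3 : ℂ) ^ ((k : ℤ) - N) *
            q ^ ((((k : ℤ) - N) * ((k : ℤ) - N + 1)) / 2)) := by
  have h3 : (3 : ℂ) ≠ 0 := by norm_num
  set x : ℂ := 3 * q / q ^ N with hx
  have hb := qbinom q (2 * N) x
  rw [two_mul, prod_range_add] at hb
  have h2 : ∏ j ∈ range N, (1 + x * q ^ (N + j)) = ∏ j ∈ range N, (1 + 3 * q ^ (j + 1)) := by
    refine prod_congr rfl fun j _ => ?_
    rw [hx]
    field_simp
    ring
  have h1 : ∏ j ∈ range N, (1 + x * q ^ j)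
      = (3 ^ N / q ^ (N.choose 2)) * ∏ j ∈ range N, (1 + q ^ j / 3) := by
    rw [← prod_range_reflect]
    have : ∀ j ∈ range N, (1 + x * q ^ (N - 1 - j)) = (3 / q ^ j) * (1 + q ^ j / 3) := by
      intro j hj
      have hjN : j < N := mem_range.mp hj
      have e : q ^ N = q ^ (N - 1 - j) * q ^ j * q := by
        rw [← pow_add, ← pow_succ]; congr 1; omega
      rw [hx, e]
      field_simp
      ring
    rw [prod_congr rfl this, prod_mul_distrib, prod_div_distrib, prod_const, card_range,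
      prod_pow_eq_pow_sum]
    congr 3
    rw [sum_range_id, Nat.choose_two_right]
  rw [h1, h2] at hb
  have hq1 : q ^ (N.choose 2) ≠ 0 := pow_ne_zero _ hq0
  have h3N : (3 : ℂ) ^ N ≠ 0 := pow_ne_zero _ h3
  have key : (∏ j ∈ range N, (1 + 3 * q ^ (j + 1))) * (∏ j ∈ range N, (1 + q ^ j / 3))
      = (q ^ (N.choose 2) / 3 ^ N) *
        ∑ k ∈ range (N + N + 1), gb q (N + N) k * q ^ k.choose 2 * x ^ k := by
    rw [← hb]
    field_simp
  rw [key, ← two_mul, mul_sum]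
  refine sum_congr rfl fun k _ => ?_
  have hexp : (((k : ℤ) - N) * ((k : ℤ) - N + 1)) / 2
      = (N.choose 2 : ℤ) + (k.choose 2 : ℤ) + k - N * k := by
    have hN : ((N.choose 2 : ℕ) : ℤ) * 2 = N * (N - 1) := by
      have := Nat.choose_two_right N
      have h2 : N.choose 2 * 2 = N * (N - 1) := by
        rw [this]; exact Nat.div_mul_cancel (Nat.even_mul_pred_self N).two_dvd
      rcases N with _ | N
      · simp
      · have h3 : (((N + 1).choose 2 * 2 : ℕ) : ℤ) = (((N + 1) * (N + 1 - 1) : ℕ) : ℤ) := by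
          rw [h2]
        push_cast at h3 ⊢
        rw [h3]
        simp
    have hk : ((k.choose 2 : ℕ) : ℤ) * 2 = k * (k - 1) := by
      have := Nat.choose_two_right k
      have h2 : k.choose 2 * 2 = k * (k - 1) := by
        rw [this]; exact Nat.div_mul_cancel (Nat.even_mul_pred_self k).two_dvd
      rcases k with _ | k
      · simp
      · have h3 : (((k + 1).choose 2 * 2 : ℕ) : ℤ) = (((k + 1) * (k + 1 - 1) : ℕ) : ℤ) := by
          rw [h2]
        push_cast at h3 ⊢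
        rw [h3]
        simp
    apply Int.ediv_eq_of_eq_mul_left (by norm_num)
    linear_combination (-1 : ℤ) * hN - hk
  rw [hexp, hx]
  have hz : (3 : ℂ) ^ ((k : ℤ) - N) = 3 ^ k / 3 ^ N := by
    rw [zpow_sub₀ h3, zpow_natCast, zpow_natCast]
  have hqz : q ^ ((N.choose 2 : ℤ) + (k.choose 2 : ℤ) + k - N * k)
      = q ^ (N.choose 2) * q ^ (k.choose 2) * q ^ k / (q ^ N) ^ k := by
    rw [zpow_sub₀ hq0, zpow_add₀ hq0, zpow_add₀ hq0, zpow_natCast, zpow_natCast, zpow_natCast,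
      zpow_mul, zpow_natCast, zpow_natCast]
  rw [hz, hqz, div_pow, mul_pow]
  field_simp

end Pool.Agent.Helper3.OP
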