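import Mathlib
import Pool.Agent.Helper3.Triple

set_option autoImplicit false

open Finset Filter Topology

namespace Pool.Agent.Helper3.OP

lemma norm_exp_neg_lt_one {w : ℂ} (hw : 0 < w.re) : ‖Complex.exp (-w)‖ < 1 := by
  rw [Complex.norm_exp, Complex.neg_re, Real.exp_lt_one_iff]
  linarith

/-- The general term of the theta series, both forms. -/
lemma term_eq {w : ℂ} (n : ℤ) :
    (3 : ℂ) ^ n * (Complex.exp (-w)) ^ ((n * (n + 1)) / 2)
      = Complex.exp (((Real.log 3 : ℝ) - w / 2) * n - w / 2 * (n : ℂ) ^ 2) := by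
  have h3 : (3 : ℂ) = Complex.exp ((Real.log 3 : ℝ) : ℂ) := by
    rw [← Complex.ofReal_exp, Real.exp_log (by norm_num)]
    norm_num
  have he : (((n * (n + 1)) / 2 : ℤ) : ℂ) * 2 = (n : ℂ) * (n + 1) := by
    have h : ((n * (n + 1)) / 2 : ℤ) * 2 = n * (n + 1) :=
      Int.ediv_mul_cancel (Int.even_mul_succ_self n).two_dvd
    exact_mod_cast h
  conv_lhs => rw [h3]
  rw [← Complex.exp_int_mul, ← Complex.exp_int_mul, ← Complex.exp_add]
  congr 1
  linear_combination (-w / 2) * he

lemma summable_Th {w : ℂ} (hw : 0 < w.re) :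
    Summable fun n : ℤ =>
      Complex.exp (((Real.log 3 : ℝ) - w / 2) * n - w / 2 * (n : ℂ) ^ 2) := by
  have hpi : (Real.pi : ℂ) ≠ 0 := by exact_mod_cast Real.pi_ne_zero
  have h := (summable_jacobiTheta₂_term_iff
    (((Real.log 3 : ℝ) - w / 2) / (2 * Real.pi * Complex.I))
    (Complex.I * w / (2 * Real.pi))).mpr (by
      have : Complex.I * w / (2 * Real.pi) = Complex.I * w * ((1 / (2 * Real.pi) : ℝ) : ℂ) := by
        push_cast; ring
      rw [this, Complex.im_mul_ofReal]
      have : (Complex.I * w).im = w.re := by simp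
      rw [this]
      positivity)
  refine h.congr fun n => ?_
  unfold jacobiTheta₂_term
  congr 1
  have hI : Complex.I ≠ 0 := Complex.I_ne_zero
  field_simp
  rw [Complex.I_sq]
  ring

lemma exists_bound_Qp_inv {q : ℂ} (hq : ‖q‖ < 1) :
    ∃ C : ℝ, 0 < C ∧ (∀ k, ‖Qp q k‖ ≤ C) ∧ ∀ k, ‖(Qp q k)⁻¹‖ ≤ C := by
  have h1 := tendsto_Qp hq
  have h2 := h1.inv₀ (Eq_ne_zero hq)
  obtain ⟨C1, hC1⟩ := (Metric.isBounded_range_of_tendsto _ h1).exists_norm_le
  obtain ⟨C2, hC2⟩ := (Metric.isBounded_range_of_tendsto _ h2).exists_norm_le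
  refine ⟨max 1 (max C1 C2), by positivity, fun k => ?_, fun k => ?_⟩
  · exact (hC1 _ ⟨k, rfl⟩).trans ((le_max_left _ _).trans (le_max_right _ _))
  · exact (hC2 _ ⟨k, rfl⟩).trans ((le_max_right _ _).trans (le_max_right _ _))

/-- The triple product identity at `z = 3`. -/
theorem triple {w : ℂ} (hw : 0 < w.re) :
    Aq (Complex.exp (-w)) * ((4 / 3) * Bq (Complex.exp (-w))) * Eq (Complex.exp (-w)) = Th w := by
  set q := Complex.exp (-w) with hqdef
  have hq : ‖q‖ < 1 := norm_exp_neg_lt_one hw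
  have hq0 : q ≠ 0 := Complex.exp_ne_zero _
  set T : ℤ → ℂ := fun n => (3 : ℂ) ^ n * q ^ ((n * (n + 1)) / 2) with hT
  have hTe : ∀ n : ℤ, T n = Complex.exp (((Real.log 3 : ℝ) - w / 2) * n - w / 2 * (n : ℂ) ^ 2) :=
    fun n => term_eq n
  have hTs : Summable T := (summable_Th hw).congr fun n => (hTe n).symm
  obtain ⟨C, hC0, hC1, hC2⟩ := exists_bound_Qp_inv hq
  set g : ℕ → ℤ → ℂ := fun N n =>
    if n ∈ Icc (-(N : ℤ)) N then gb q (2 * N) (n + N).toNat * T n else 0 with hg
  have hgb : ∀ N : ℕ, ∀ n : ℤ, n ∈ Icc (-(N : ℤ)) N →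
      gb q (2 * N) (n + N).toNat = Qp q (2 * N) * (Qp q (n + N).toNat)⁻¹
        * (Qp q (N - n).toNat)⁻¹ := by
    intro N n hn
    rw [mem_Icc] at hn
    have h := gb_mul_Qp q (2 * N) (n + N).toNat (N - n).toNat (by omega)
    have e1 := Qp_ne_zero hq (n + N).toNat
    have e2 := Qp_ne_zero hq (N - n).toNat
    rw [← h]
    field_simp
  -- the finite identity, as a tsum
  have hfin : ∀ N : ℕ, (∏ j ∈ range N, (1 + 3 * q ^ (j + 1))) * (∏ j ∈ range N, (1 + q ^ j / 3))
      = ∑' n : ℤ, g N n := by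
    intro N
    rw [finite_triple hq0 N, tsum_eq_sum (s := Icc (-(N : ℤ)) N)]
    · refine sum_nbij' (fun k => (k : ℤ) - N) (fun n => (n + N).toNat) ?_ ?_ ?_ ?_ ?_
      · intro k hk
        rw [mem_range] at hk
        rw [mem_Icc]
        omega
      · intro n hn
        rw [mem_Icc] at hn
        rw [mem_range]
        omega
      · intro k _
        simp
      · intro n hn
        rw [mem_Icc] at hn
        show (((n + N).toNat : ℕ) : ℤ) - N = n
        omega
      · intro k hk
        rw [mem_range] at hk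
        have hmem : (k : ℤ) - N ∈ Icc (-(N : ℤ)) N := by
          rw [mem_Icc]; omega
        simp only [hg, if_pos hmem, hT]
        simp
    · intro n hn
      simp only [hg, if_neg hn]
  -- limit of the right-hand side
  have hlim : Tendsto (fun N => ∑' n : ℤ, g N n) atTop (𝓝 (∑' n : ℤ, (Eq q)⁻¹ * T n)) := by
    refine tendsto_tsum_of_dominated_convergence (bound := fun n => C * C * C * ‖T n‖)
      (hTs.norm.mul_left _) ?_ ?_
    · intro n
      have hev : ∀ᶠ N : ℕ in atTop, Qp q (2 * N) * (Qp q (n + N).toNat)⁻¹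
        * (Qp q (N - n).toNat)⁻¹ * T n = g N n := by
        filter_upwards [eventually_ge_atTop n.natAbs] with N hN
        have hmem : n ∈ Icc (-(N : ℤ)) N := by rw [mem_Icc]; omega
        simp only [hg, if_pos hmem, hgb N n hmem]
      refine Tendsto.congr' hev ?_
      have hE := tendsto_Qp hq
      have hEi := hE.inv₀ (Eq_ne_zero hq)
      have t1 : Tendsto (fun N : ℕ => Qp q (2 * N)) atTop (𝓝 (Eq q)) :=
        hE.comp (tendsto_id.const_mul_atTop' (by norm_num))
      have s2 : Tendsto (fun N : ℕ => (n + (N : ℤ)).toNat) atTop atTop := by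
        refine tendsto_atTop.mpr fun b => ?_
        filter_upwards [eventually_ge_atTop (n.natAbs + b)] with N hN
        omega
      have s3 : Tendsto (fun N : ℕ => ((N : ℤ) - n).toNat) atTop atTop := by
        refine tendsto_atTop.mpr fun b => ?_
        filter_upwards [eventually_ge_atTop (n.natAbs + b)] with N hN
        omega
      have t2 := hEi.comp s2
      have t3 := hEi.comp s3
      have t := ((t1.mul t2).mul t3).mul_const (T n)
      have e : Eq q * (Eq q)⁻¹ * (Eq q)⁻¹ * T n = (Eq q)⁻¹ * T n := by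
        rw [mul_inv_cancel₀ (Eq_ne_zero hq), one_mul]
      rw [e] at t
      exact t
    · refine Eventually.of_forall fun N n => ?_
      by_cases hn : n ∈ Icc (-(N : ℤ)) N
      · simp only [hg, if_pos hn, hgb N n hn, norm_mul]
        gcongr
        · exact hC1 _
        · exact hC2 _
        · exact hC2 _
      · simp only [hg, if_neg hn, norm_zero]
        positivity
  -- limit of the left-hand side
  have hA : Tendsto (fun N => ∏ j ∈ range N, (1 + 3 * q ^ (j + 1))) atTop (𝓝 (Aq q)) :=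
    (multipliable_A hq).hasProd.tendsto_prod_nat
  have hB0 : Tendsto (fun N => ∏ j ∈ range N, (1 + q ^ (j + 1) / 3)) atTop (𝓝 (Bq q)) :=
    (multipliable_B hq).hasProd.tendsto_prod_nat
  have hB : Tendsto (fun N => ∏ j ∈ range N, (1 + q ^ j / 3)) atTop (𝓝 ((4 / 3) * Bq q)) := by
    rw [← tendsto_add_atTop_iff_nat 1]
    have : ∀ N, ∏ j ∈ range (N + 1), (1 + q ^ j / 3)
        = (4 / 3) * ∏ j ∈ range N, (1 + q ^ (j + 1) / 3) := by
      intro N
      rw [prod_range_succ', pow_zero, mul_comm]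
      norm_num
    simp only [this]
    exact hB0.const_mul _
  have hL := hA.mul hB
  have heq : Aq q * ((4 / 3) * Bq q) = ∑' n : ℤ, (Eq q)⁻¹ * T n := by
    refine tendsto_nhds_unique hL ?_
    refine hlim.congr fun N => ?_
    rw [hfin N]
  rw [heq, tsum_mul_left, mul_comm ((Eq q)⁻¹), mul_assoc, inv_mul_cancel₀ (Eq_ne_zero hq), mul_one,
    Th]
  exact tsum_congr hTe

end Pool.Agent.Helper3.OP
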