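import Mathlib
import Pool.Agent.Helper3.Triple2

set_option autoImplicit false

open Finset Filter Topology

namespace Pool.Agent.Helper3.OP

open Complex in
lemma eta_eq_Eq (z : ℂ) : ModularForm.eta z
    = cexp (2 * Real.pi * I * z / 24) * Eq (cexp (2 * Real.pi * I * z)) := by
  unfold ModularForm.eta Eq
  congr 1
  refine tprod_congr fun n => ?_
  rw [ModularForm.eta_q_eq_pow]

open Complex in
/-- The exact transformation of `∏ (1 - exp (-2 w n))`. -/
theorem Eq_transform {w : ℂ} (hw : 0 < w.re) :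
    Eq (cexp (-(2 * w))) = Complex.sqrt I * (Complex.sqrt (I * w / Real.pi))⁻¹ *
      cexp (w / 12 - Real.pi ^ 2 / (12 * w)) * Eq (cexp (-(2 * Real.pi ^ 2 / w))) := by
  have hpi : (Real.pi : ℂ) ≠ 0 := by exact_mod_cast Real.pi_ne_zero
  have hw0 : w ≠ 0 := by
    rintro rfl
    simp at hw
  have hI : I ≠ 0 := I_ne_zero
  set z : ℂ := I * w / Real.pi with hz
  have hzim : 0 < z.im := by
    have : z = I * w * ((1 / Real.pi : ℝ) : ℂ) := by
      rw [hz]; push_cast; ring
    rw [this, im_mul_ofReal]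
    have h2 : (I * w).im = w.re := by simp
    rw [h2]
    have := Real.pi_pos
    positivity
  have hz0 : z ≠ 0 := by
    intro h
    rw [h] at hzim
    simp at hzim
  have h := ModularForm.eta_comp_eq_csqrt_I_inv (x := z) hzim
  simp only [Function.comp_apply, Pi.smul_apply, Pi.mul_apply, smul_eq_mul] at h
  rw [eta_eq_Eq, eta_eq_Eq] at h
  have e1 : 2 * (Real.pi : ℂ) * I * z = -(2 * w) := by
    rw [hz]
    field_simp
    rw [I_sq]
  have e2 : 2 * (Real.pi : ℂ) * I * (-1 / z) = -(2 * Real.pi ^ 2 / w) := by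
    rw [hz]
    field_simp
  rw [e1, e2] at h
  have hs : Complex.sqrt z ≠ 0 := by
    rw [Complex.sqrt, Ne, cpow_eq_zero_iff]
    simp [hz0]
  have hsI : Complex.sqrt I ≠ 0 := by
    rw [Complex.sqrt, Ne, cpow_eq_zero_iff]
    simp
  have hexp : cexp (w / 12 - Real.pi ^ 2 / (12 * w))
      = cexp (-(2 * Real.pi ^ 2 / w) / 24) * (cexp (-(2 * w) / 24))⁻¹ := by
    rw [← Complex.exp_neg, ← Complex.exp_add]
    congr 1
    field_simp
    ring
  rw [hexp]
  have hne : cexp (-(2 * w) / 24) ≠ 0 := exp_ne_zero _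
  have h' : cexp (-(2 * Real.pi ^ 2 / w) / 24) * Eq (cexp (-(2 * Real.pi ^ 2 / w)))
      = (Complex.sqrt I)⁻¹ * (Complex.sqrt z * (cexp (-(2 * w) / 24) * Eq (cexp (-(2 * w))))) := h
  calc Eq (cexp (-(2 * w)))
      = Complex.sqrt I * (Complex.sqrt z)⁻¹ * (cexp (-(2 * w) / 24))⁻¹ *
        ((Complex.sqrt I)⁻¹ * (Complex.sqrt z * (cexp (-(2 * w) / 24) * Eq (cexp (-(2 * w)))))) := by
        field_simp
    _ = _ := by
        rw [← h']
        ring

/-- The product over odd exponents. -/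
lemma Oq_mul_Eq {q : ℂ} (hq : ‖q‖ < 1) : Oq q * Eq (q ^ 2) = Eq q := by
  have hq2 : ‖q ^ 2‖ < 1 := by
    rw [norm_pow]
    exact pow_lt_one₀ (norm_nonneg _) hq (by norm_num)
  have h1 := (multipliable_O hq).hasProd
  have h2 := (multipliable_E hq2).hasProd
  have h : HasProd (fun j : ℕ => 1 - q ^ (j + 1)) (Oq q * Eq (q ^ 2)) := by
    refine HasProd.even_mul_odd (f := fun j : ℕ => 1 - q ^ (j + 1)) h1 ?_
    have e : (fun j : ℕ => 1 - q ^ (2 * j + 1 + 1)) = fun j : ℕ => 1 - (q ^ 2) ^ (j + 1) := by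
      funext j
      rw [← pow_mul]
      congr 2
    rw [e]
    exact h2
  exact h.tprod_eq.symm

end Pool.Agent.Helper3.OP
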