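import Mathlib
import Pool.Agent.Helper3.EtaFE

set_option autoImplicit false

open Finset Filter Topology

namespace Pool.Agent.Helper3.OP

/-- Bound for `1/(e^W - 1) - 1/W + 1/2` in a cone. -/
lemma phi_bound {W : ℂ} (hre : 0 < W.re) (him : |W.im| ≤ (6 / 5) * W.re) :
    ‖1 / (Complex.exp W - 1) - 1 / W + 1 / 2‖ ≤ 3 * ‖W‖ := by
  have hW0 : W ≠ 0 := by rintro rfl; simp at hre
  have hn : 0 < ‖W‖ := norm_pos_iff.mpr hW0
  rcases le_or_gt ‖W‖ 1 with h1 | h1
  · have hb := Complex.exp_bound (x := W) h1 (n := 3) (by norm_num)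
    rw [sum_range_succ, sum_range_succ, sum_range_succ, sum_range_zero] at hb
    norm_num at hb
    set r : ℂ := Complex.exp W - (1 + W + W ^ 2 / 2) with hr
    have hrb : ‖r‖ ≤ ‖W‖ ^ 3 * (2 / 9) := hb
    have hE : Complex.exp W - 1 = W + W ^ 2 / 2 + r := by rw [hr]; ring
    have hr2 : ‖r‖ ≤ ‖W‖ * (2 / 9) := by
      refine hrb.trans ?_
      have : ‖W‖ ^ 3 ≤ ‖W‖ := by
        calc ‖W‖ ^ 3 ≤ ‖W‖ ^ 1 := pow_le_pow_of_le_one hn.le h1 (by norm_num)
          _ = ‖W‖ := pow_one _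
      nlinarith
    have hden : (5 / 18) * ‖W‖ ≤ ‖Complex.exp W - 1‖ := by
      rw [hE]
      have h2 : ‖W ^ 2 / 2 + r‖ ≤ (13 / 18) * ‖W‖ := by
        calc ‖W ^ 2 / 2 + r‖ ≤ ‖W ^ 2 / 2‖ + ‖r‖ := norm_add_le _ _
          _ = ‖W‖ ^ 2 / 2 + ‖r‖ := by rw [norm_div, norm_pow]; norm_num
          _ ≤ (13 / 18) * ‖W‖ := by nlinarith
      have h3 : ‖W‖ - ‖W ^ 2 / 2 + r‖ ≤ ‖W + (W ^ 2 / 2 + r)‖ := by
        have := norm_sub_norm_le W (-(W ^ 2 / 2 + r))
        rw [norm_neg, sub_neg_eq_add] at this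
        exact this
      rw [add_assoc]
      linarith
    have hne : Complex.exp W - 1 ≠ 0 := by
      intro h
      rw [h, norm_zero] at hden
      linarith
    have hnum : ‖W ^ 3 / 2 + (W - 2) * r‖ ≤ (7 / 6) * ‖W‖ ^ 3 := by
      calc ‖W ^ 3 / 2 + (W - 2) * r‖ ≤ ‖W ^ 3 / 2‖ + ‖(W - 2) * r‖ := norm_add_le _ _
        _ = ‖W‖ ^ 3 / 2 + ‖W - 2‖ * ‖r‖ := by rw [norm_div, norm_pow, norm_mul]; norm_num
        _ ≤ ‖W‖ ^ 3 / 2 + 3 * (‖W‖ ^ 3 * (2 / 9)) := by
            gcongr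
            calc ‖W - 2‖ ≤ ‖W‖ + ‖(2 : ℂ)‖ := norm_sub_le _ _
              _ ≤ 1 + 2 := by gcongr; norm_num
              _ = 3 := by norm_num
        _ = (7 / 6) * ‖W‖ ^ 3 := by ring
    have heq : 1 / (Complex.exp W - 1) - 1 / W + 1 / 2
        = (W ^ 3 / 2 + (W - 2) * r) / (2 * W * (Complex.exp W - 1)) := by
      rw [eq_div_iff (mul_ne_zero (mul_ne_zero two_ne_zero hW0) hne)]
      have : 1 / (Complex.exp W - 1) * (2 * W * (Complex.exp W - 1)) = 2 * W := by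
        field_simp
      calc (1 / (Complex.exp W - 1) - 1 / W + 1 / 2) * (2 * W * (Complex.exp W - 1))
          = 1 / (Complex.exp W - 1) * (2 * W * (Complex.exp W - 1))
            - (1 / W * W) * 2 * (Complex.exp W - 1) + W * (Complex.exp W - 1) := by ring
        _ = 2 * W - 2 * (Complex.exp W - 1) + W * (Complex.exp W - 1) := by
            rw [this, one_div, inv_mul_cancel₀ hW0, one_mul]
        _ = _ := by rw [hE]; ring
    have hne2 : 0 < ‖2 * W * (Complex.exp W - 1)‖ :=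
      norm_pos_iff.mpr (mul_ne_zero (mul_ne_zero two_ne_zero hW0) hne)
    rw [heq, norm_div, div_le_iff₀ hne2]
    calc ‖W ^ 3 / 2 + (W - 2) * r‖ ≤ (7 / 6) * ‖W‖ ^ 3 := hnum
      _ ≤ 3 * ‖W‖ * (2 * ‖W‖ * ((5 / 18) * ‖W‖)) := by nlinarith [pow_pos hn 3]
      _ ≤ 3 * ‖W‖ * ‖2 * W * (Complex.exp W - 1)‖ := by
          rw [norm_mul, norm_mul]
          norm_num
          gcongr
  · -- the case of large `W`
    have hsq : ‖W‖ ^ 2 = W.re ^ 2 + W.im ^ 2 := by
      rw [← Complex.normSq_eq_norm_sq, Complex.normSq_apply]; ring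
    have him2 : W.im ^ 2 ≤ (36 / 25) * W.re ^ 2 := by
      rw [← sq_abs W.im]
      calc |W.im| ^ 2 ≤ ((6 / 5) * W.re) ^ 2 := by gcongr
        _ = _ := by ring
    have hre2 : (16 / 25 : ℝ) ≤ W.re := by
      by_contra hcon
      push Not at hcon
      have : W.re ^ 2 < (16 / 25 : ℝ) ^ 2 := by gcongr
      nlinarith
    have hexp : (184 / 100 : ℝ) ≤ ‖Complex.exp W‖ := by
      rw [Complex.norm_exp]
      have := Real.quadratic_le_exp_of_nonneg hre.le
      nlinarith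
    have hden : (84 / 100 : ℝ) ≤ ‖Complex.exp W - 1‖ := by
      have := norm_sub_norm_le (Complex.exp W) 1
      rw [norm_one] at this
      linarith
    have h3 : ‖1 / (Complex.exp W - 1)‖ ≤ 120 / 100 := by
      rw [norm_div, norm_one, div_le_iff₀ (by linarith)]
      linarith
    have h4 : ‖1 / W‖ ≤ 1 := by
      rw [norm_div, norm_one, div_le_iff₀ (by linarith)]
      linarith
    calc ‖1 / (Complex.exp W - 1) - 1 / W + 1 / 2‖
        ≤ ‖1 / (Complex.exp W - 1) - 1 / W‖ + ‖(1 / 2 : ℂ)‖ := norm_add_le _ _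
      _ ≤ ‖1 / (Complex.exp W - 1)‖ + ‖1 / W‖ + ‖(1 / 2 : ℂ)‖ := by
          gcongr; exact norm_sub_le _ _
      _ ≤ 120 / 100 + 1 + 1 / 2 := by
          gcongr
          norm_num
      _ ≤ 3 * ‖W‖ := by linarith

/-- The termwise comparison `|1-z| ≥ (1-|z|) exp(|z| - Re z)`. -/
lemma one_sub_norm_lower {z : ℂ} (hz : ‖z‖ < 1) :
    (1 - ‖z‖) * Real.exp (‖z‖ - z.re) ≤ ‖1 - z‖ := by
  have h1 := Complex.hasSum_taylorSeries_neg_log hz
  have hz' : ‖((‖z‖ : ℝ) : ℂ)‖ < 1 := by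
    rw [Complex.norm_real, norm_norm]; exact hz
  have h2 := Complex.hasSum_taylorSeries_neg_log hz'
  have h3 := Complex.hasSum_re (h2.sub h1)
  have hpos : 0 < 1 - ‖z‖ := by linarith
  have hne : 1 - z ≠ 0 := by
    intro h
    have : z = 1 := by linear_combination -h
    rw [this, norm_one] at hz
    exact lt_irrefl _ hz
  have hnn : 0 < ‖1 - z‖ := norm_pos_iff.mpr hne
  have h4 := le_hasSum h3 1 (by
    intro j _
    rw [Complex.sub_re, Complex.div_natCast_re, Complex.div_natCast_re, ← sub_div]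
    apply div_nonneg _ (by positivity)
    rw [← Complex.ofReal_pow, Complex.ofReal_re, sub_nonneg, ← norm_pow]
    exact Complex.re_le_norm _)
  simp only [pow_one, Nat.cast_one, div_one, Complex.sub_re, Complex.neg_re, Complex.ofReal_re] at h4
  have h5 : (Complex.log (1 - ((‖z‖ : ℝ) : ℂ))).re = Real.log (1 - ‖z‖) := by
    rw [Complex.log_re]
    congr 1
    rw [← Complex.ofReal_one, ← Complex.ofReal_sub, Complex.norm_real, Real.norm_of_nonneg hpos.le]
  rw [h5, Complex.log_re] at h4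
  have h6 : Real.log (1 - ‖z‖) + (‖z‖ - z.re) ≤ Real.log ‖1 - z‖ := by linarith
  have h7 := Real.exp_le_exp.mpr h6
  rw [Real.exp_add, Real.exp_log hpos, Real.exp_log hnn] at h7
  exact h7

/-- Lower bound for `|E(q)|` in terms of `E(|q|)`. -/
lemma Eq_lower {q : ℂ} (hq : ‖q‖ < 1) :
    ‖Eq ((‖q‖ : ℝ) : ℂ)‖ * Real.exp (‖q‖ / (1 - ‖q‖) - (q / (1 - q)).re) ≤ ‖Eq q‖ := by
  have hq' : ‖((‖q‖ : ℝ) : ℂ)‖ < 1 := by
    rw [Complex.norm_real, norm_norm]; exact hq
  have t1 := (tendsto_Qp hq').norm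
  have t2 := (tendsto_Qp hq).norm
  have s1 : HasSum (fun j : ℕ => ‖q‖ ^ (j + 1)) (‖q‖ / (1 - ‖q‖)) := by
    have := (hasSum_geometric_of_lt_one (norm_nonneg q) hq).mul_left ‖q‖
    simpa [pow_succ', div_eq_mul_inv] using this
  have s2 : HasSum (fun j : ℕ => (q ^ (j + 1)).re) ((q / (1 - q)).re) := by
    have := (hasSum_geometric_of_norm_lt_one hq).mul_left q
    have h := Complex.hasSum_re this
    simpa [pow_succ', div_eq_mul_inv] using h
  have s := (s1.sub s2).tendsto_sum_nat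
  have t3 := (Real.continuous_exp.tendsto _).comp s
  refine le_of_tendsto_of_tendsto' (t1.mul t3) t2 fun N => ?_
  simp only [Function.comp_apply, Qp]
  rw [norm_prod, norm_prod, Real.exp_sum, ← prod_mul_distrib]
  refine prod_le_prod (fun j _ => by positivity) fun j _ => ?_
  have hj : ‖q ^ (j + 1)‖ < 1 := by
    rw [norm_pow]; exact pow_lt_one₀ (norm_nonneg _) hq (by omega)
  have := one_sub_norm_lower hj
  rw [norm_pow] at this
  have e : ‖1 - ((‖q‖ : ℝ) : ℂ) ^ (j + 1)‖ = 1 - ‖q‖ ^ (j + 1) := by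
    rw [← Complex.ofReal_one, ← Complex.ofReal_pow, ← Complex.ofReal_sub, Complex.norm_real,
      Real.norm_of_nonneg]
    rw [norm_pow] at hj
    linarith
  rw [e]
  exact this

/-- `|E(x) - 1|` is small when `x` is small. -/
lemma Eq_near_one {x : ℂ} (hx : ‖x‖ ≤ 1 / 100) : ‖Eq x - 1‖ ≤ 11 / 10 * ‖x‖ := by
  have hx1 : ‖x‖ < 1 := by linarith
  have t := ((tendsto_Qp hx1).sub_const 1).norm
  refine le_of_tendsto' t fun N => ?_
  have h := Finset.norm_prod_one_add_sub_one_le (range N) (fun j => - x ^ (j + 1))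
  have e : Qp x N - 1 = ∏ i ∈ range N, (1 + -x ^ (i + 1)) - 1 := by
    simp [Qp, sub_eq_add_neg]
  rw [e]
  refine h.trans ?_
  have hs : ∑ i ∈ range N, ‖-x ^ (i + 1)‖ ≤ ‖x‖ * (100 / 99) := by
    have s1 : HasSum (fun j : ℕ => ‖x‖ ^ (j + 1)) (‖x‖ / (1 - ‖x‖)) := by
      have := (hasSum_geometric_of_lt_one (norm_nonneg x) hx1).mul_left ‖x‖
      simpa [pow_succ', div_eq_mul_inv] using this
    calc ∑ i ∈ range N, ‖-x ^ (i + 1)‖ = ∑ i ∈ range N, ‖x‖ ^ (i + 1) := by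
          simp
      _ ≤ ‖x‖ / (1 - ‖x‖) := sum_le_hasSum _ (fun i _ => by positivity) s1
      _ ≤ ‖x‖ * (100 / 99) := by
          rw [div_le_iff₀ (by linarith)]
          nlinarith [norm_nonneg x]
  have hy : ∀ y : ℝ, 0 ≤ y → y ≤ 1 / 50 → Real.exp y - 1 ≤ y * (103 / 100) := by
    intro y hy0 hy1
    have := Real.exp_bound_div_one_sub_of_interval hy0 (by linarith)
    have h2 : 1 / (1 - y) ≤ 1 + y * (103 / 100) := by
      rw [div_le_iff₀ (by linarith)]
      nlinarith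
    linarith
  calc Real.exp (∑ i ∈ range N, ‖-x ^ (i + 1)‖) - 1 ≤ Real.exp (‖x‖ * (100 / 99)) - 1 := by
        gcongr
    _ ≤ ‖x‖ * (100 / 99) * (103 / 100) := by
        apply hy _ (by positivity)
        linarith
    _ ≤ 11 / 10 * ‖x‖ := by linarith [norm_nonneg x]

end Pool.Agent.Helper3.OP
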