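import Mathlib
import Pool.Agent.Helper3.Est1

set_option autoImplicit false

open Finset Filter Topology

namespace Pool.Agent.Helper3.OP

lemma norm_pow_div_three_lt {q : ℂ} (hq : ‖q‖ < 1) (j : ℕ) : ‖q ^ (j + 1) / 3‖ < 1 / 3 := by
  rw [norm_div, norm_pow]
  have : ‖q‖ ^ (j + 1) < 1 := pow_lt_one₀ (norm_nonneg _) hq (by omega)
  norm_num
  linarith

lemma one_add_ne_zero_B {q : ℂ} (hq : ‖q‖ < 1) (j : ℕ) : 1 + q ^ (j + 1) / 3 ≠ 0 := by
  intro h
  have h1 : q ^ (j + 1) / 3 = -1 := by linear_combination h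
  have h2 := norm_pow_div_three_lt hq j
  rw [h1, norm_neg, norm_one] at h2
  norm_num at h2

lemma summable_logB {q : ℂ} (hq : ‖q‖ < 1) :
    Summable fun j : ℕ => Complex.log (1 + q ^ (j + 1) / 3) := by
  apply Complex.summable_log_one_add_of_summable
  have : Summable fun j : ℕ => q ^ (j + 1) :=
    (summable_nat_add_iff 1).mpr (summable_geometric_of_norm_lt_one hq)
  exact this.div_const 3

lemma Bq_eq_exp {q : ℂ} (hq : ‖q‖ < 1) :
    Bq q = Complex.exp (∑' j : ℕ, Complex.log (1 + q ^ (j + 1) / 3)) := by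
  rw [Complex.cexp_tsum_eq_tprod (fun j => one_add_ne_zero_B hq j) (summable_logB hq), Bq]

lemma Bq_ne_zero {q : ℂ} (hq : ‖q‖ < 1) : Bq q ≠ 0 := by
  rw [Bq_eq_exp hq]
  exact Complex.exp_ne_zero _

/-- `Re (q/(1-q)) ≥ -1/2`. -/
lemma re_div_one_sub_ge {q : ℂ} (hq : ‖q‖ < 1) : -(1 / 2) ≤ (q / (1 - q)).re := by
  have hne : 1 - q ≠ 0 := by simpa using one_sub_pow_ne_zero hq 0
  have hn : 0 < Complex.normSq (1 - q) := Complex.normSq_pos.mpr hne
  have h2 : (q / (1 - q)).re = (q.re - (q.re ^ 2 + q.im ^ 2)) / Complex.normSq (1 - q) := by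
    rw [Complex.div_re]
    simp only [Complex.sub_re, Complex.sub_im, Complex.one_re, Complex.one_im]
    ring
  rw [h2, le_div_iff₀ hn, Complex.normSq_apply]
  simp only [Complex.sub_re, Complex.sub_im, Complex.one_re, Complex.one_im]
  have h3 : q.re ^ 2 + q.im ^ 2 ≤ 1 := by
    have : q.re ^ 2 + q.im ^ 2 = ‖q‖ ^ 2 := by
      rw [← Complex.normSq_eq_norm_sq, Complex.normSq_apply]; ring
    rw [this]
    nlinarith [norm_nonneg q]
  nlinarith

/-- Lower bound for `|B(q)|` on the circle `|q| = e^{-t}`. -/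
lemma Bq_lower {q : ℂ} {t : ℝ} (ht : 0 < t) (hqt : ‖q‖ = Real.exp (-t)) :
    Real.exp (-(1 / 6) - 1 / (24 * t)) ≤ ‖Bq q‖ := by
  have hq : ‖q‖ < 1 := by rw [hqt, Real.exp_lt_one_iff]; linarith
  rw [Bq_eq_exp hq, Complex.norm_exp]
  apply Real.exp_le_exp.mpr
  have hlog := (summable_logB hq).hasSum
  have h1 := Complex.hasSum_re hlog
  have s2 : HasSum (fun j : ℕ => (q ^ (j + 1)).re) ((q / (1 - q)).re) := by
    have := (hasSum_geometric_of_norm_lt_one hq).mul_left q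
    have h := Complex.hasSum_re this
    simpa [pow_succ', div_eq_mul_inv] using h
  have hq2 : ‖q‖ ^ 2 < 1 := pow_lt_one₀ (norm_nonneg _) hq (by norm_num)
  have s1 : HasSum (fun j : ℕ => (‖q‖ ^ 2) ^ (j + 1)) (‖q‖ ^ 2 / (1 - ‖q‖ ^ 2)) := by
    have := (hasSum_geometric_of_lt_one (by positivity) hq2).mul_left (‖q‖ ^ 2)
    simpa [pow_succ', div_eq_mul_inv] using this
  have h2 := (s2.div_const 3).sub (s1.mul_left (1 / 12))
  have hle : (q / (1 - q)).re / 3 - 1 / 12 * (‖q‖ ^ 2 / (1 - ‖q‖ ^ 2))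
      ≤ (∑' j : ℕ, Complex.log (1 + q ^ (j + 1) / 3)).re := by
    refine hasSum_le (fun j => ?_) h2 h1
    have hz := norm_pow_div_three_lt hq j
    have hb := Complex.norm_log_one_add_sub_self_le (z := q ^ (j + 1) / 3) (by linarith)
    have hre := Complex.abs_re_le_norm (Complex.log (1 + q ^ (j + 1) / 3) - q ^ (j + 1) / 3)
    have h5 : -‖Complex.log (1 + q ^ (j + 1) / 3) - q ^ (j + 1) / 3‖ ≤
        (Complex.log (1 + q ^ (j + 1) / 3)).re - (q ^ (j + 1) / 3).re := by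
      rw [← Complex.sub_re]
      exact (abs_le.mp hre).1
    have h6 : ‖q ^ (j + 1) / 3‖ ^ 2 * (1 - ‖q ^ (j + 1) / 3‖)⁻¹ / 2
        ≤ 1 / 12 * (‖q‖ ^ 2) ^ (j + 1) := by
      have hn : ‖q ^ (j + 1) / 3‖ ^ 2 = (‖q‖ ^ 2) ^ (j + 1) / 9 := by
        rw [norm_div, norm_pow]
        norm_num
        ring
      have hinv : (1 - ‖q ^ (j + 1) / 3‖)⁻¹ ≤ 3 / 2 := by
        rw [inv_le_comm₀ (by linarith) (by norm_num)]
        have e32 : (3 / 2 : ℝ)⁻¹ = 2 / 3 := by norm_num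
        rw [e32]
        linarith
      rw [hn]
      have hp : (0 : ℝ) ≤ (‖q‖ ^ 2) ^ (j + 1) := by positivity
      calc (‖q‖ ^ 2) ^ (j + 1) / 9 * (1 - ‖q ^ (j + 1) / 3‖)⁻¹ / 2
          ≤ (‖q‖ ^ 2) ^ (j + 1) / 9 * (3 / 2) / 2 := by gcongr
        _ = _ := by ring
    have h7 : (q ^ (j + 1) / 3).re = (q ^ (j + 1)).re / 3 := by
      have : q ^ (j + 1) / 3 = q ^ (j + 1) / ((3 : ℝ) : ℂ) := by norm_num
      rw [this, Complex.div_ofReal_re]
    linarith
  have h8 := re_div_one_sub_ge hq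
  have h9 : ‖q‖ ^ 2 / (1 - ‖q‖ ^ 2) ≤ 1 / (2 * t) := by
    rw [div_le_div_iff₀ (by linarith) (by positivity)]
    have e : ‖q‖ ^ 2 = Real.exp (-(2 * t)) := by
      rw [hqt, ← Real.exp_nat_mul]; congr 1; push_cast; ring
    rw [e]
    have h10 : 2 * t + 1 ≤ Real.exp (2 * t) := Real.add_one_le_exp _
    have h11 : Real.exp (-(2 * t)) * Real.exp (2 * t) = 1 := by
      rw [← Real.exp_add]; simp
    nlinarith [Real.exp_pos (-(2 * t))]
  have h12 : 1 / 12 * (1 / (2 * t)) = 1 / (24 * t) := by field_simp; ring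
  have : 1 / 12 * (‖q‖ ^ 2 / (1 - ‖q‖ ^ 2)) ≤ 1 / (24 * t) := by
    rw [← h12]; gcongr
  linarith

/-- The dilogarithm value `Li₂(-1/3)`. -/
noncomputable def Li : ℝ := ∑' n : ℕ, (-1) ^ n * (1 / 3) ^ n / (n : ℝ) ^ 2

/-- The coefficients of `log(1 + x/3)`. -/
noncomputable def aB (n : ℕ) : ℝ := (-1) ^ (n + 1) * (1 / 3) ^ n / n

lemma abs_aB (n : ℕ) : |aB n| ≤ (1 / 3) ^ n := by
  unfold aB
  rcases n with _ | n
  · simp
  · rw [abs_div, abs_mul, abs_pow, abs_neg, abs_one, one_pow, one_mul, abs_of_nonneg (by positivity),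
      abs_of_nonneg (by positivity), div_le_iff₀ (by positivity)]
    have : (0 : ℝ) < (1 / 3) ^ (n + 1) := by positivity
    push_cast
    nlinarith [(Nat.cast_nonneg n : (0 : ℝ) ≤ n)]

lemma abs_aB_mul (n : ℕ) : |aB n| * n ≤ (1 / 3) ^ n := by
  unfold aB
  rcases n with _ | n
  · simp
  · rw [abs_div, abs_mul, abs_pow, abs_neg, abs_one, one_pow, one_mul, abs_of_nonneg (by positivity),
      abs_of_nonneg (by positivity)]
    rw [div_mul_cancel₀ _ (by positivity)]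

lemma aB_zero : aB 0 = 0 := by simp [aB]

lemma summable_third : Summable fun n : ℕ => ((1 : ℝ) / 3) ^ n :=
  summable_geometric_of_lt_one (by norm_num) (by norm_num)

lemma summable_aB : Summable aB :=
  Summable.of_norm_bounded summable_third (fun n => by rw [Real.norm_eq_abs]; exact abs_aB n)

lemma tsum_aB : ∑' n, aB n = Real.log (4 / 3) := by
  have h := Complex.hasSum_taylorSeries_log (z := (1 / 3 : ℂ)) (by norm_num)
  have h2 := Complex.hasSum_re h
  have e1 : (Complex.log (1 + 1 / 3)).re = Real.log (4 / 3) := by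
    rw [Complex.log_re]
    congr 1
    norm_num
  rw [e1] at h2
  rw [← h2.tsum_eq]
  refine tsum_congr fun n => ?_
  have : ((-1 : ℂ)) ^ (n + 1) * (1 / 3) ^ n / n = ((aB n : ℝ) : ℂ) := by
    unfold aB
    push_cast
    ring
  rw [this, Complex.ofReal_re]

lemma tsum_aB_div : ∑' n, aB n / n = - Li := by
  unfold Li
  rw [← tsum_neg]
  refine tsum_congr fun n => ?_
  unfold aB
  rcases n with _ | n
  · simp
  · field_simp
    ring

lemma summable_aB_div : Summable fun n => aB n / n := by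
  refine Summable.of_norm_bounded summable_third (fun n => ?_)
  rw [Real.norm_eq_abs, abs_div]
  rcases n with _ | n
  · simp
  · rw [div_le_iff₀ (by positivity)]
    have h := abs_aB (n + 1)
    have h2 : (0 : ℝ) < (1 / 3) ^ (n + 1) := by positivity
    have h3 : (1 : ℝ) ≤ |((n + 1 : ℕ) : ℝ)| := by
      rw [abs_of_nonneg (by positivity)]
      push_cast
      linarith [(Nat.cast_nonneg n : (0 : ℝ) ≤ n)]
    nlinarith

end Pool.Agent.Helper3.OP
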