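import Mathlib
import Pool.Agent.Helper3.EstB

set_option autoImplicit false

open Finset Filter Topology

namespace Pool.Agent.Helper3.OP

lemma hasSum_log_third {z : ℂ} (hz : ‖z‖ < 1) :
    HasSum (fun n : ℕ => ((aB n : ℝ) : ℂ) * z ^ n) (Complex.log (1 + z / 3)) := by
  have h := Complex.hasSum_taylorSeries_log (z := z / 3) (by
    rw [norm_div]; norm_num; linarith)
  convert h using 2 with n
  unfold aB
  push_cast
  rw [div_pow, div_pow, one_pow]
  ring

lemma summable_double {q : ℂ} (hq : ‖q‖ < 1) :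
    Summable (Function.uncurry fun j n : ℕ => ((aB n : ℝ) : ℂ) * (q ^ (j + 1)) ^ n) := by
  have hs : Summable fun p : ℕ × ℕ => ‖q‖ ^ (p.1 + 1) * ((1 : ℝ) / 3) ^ p.2 :=
    (summable_pow_succ hq).mul_of_nonneg summable_third (fun _ => by positivity)
      (fun _ => by positivity)
  refine Summable.of_norm_bounded hs (fun p => ?_)
  obtain ⟨j, n⟩ := p
  simp only [Function.uncurry_apply_pair]
  rw [norm_mul, Complex.norm_real, Real.norm_eq_abs]
  rcases n with _ | n
  · rw [aB_zero]; simp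
  · rw [mul_comm]
    have h1 : ‖(q ^ (j + 1)) ^ (n + 1)‖ ≤ ‖q‖ ^ (j + 1) := by
      rw [norm_pow, norm_pow]
      have h2 : ‖q‖ ^ (j + 1) ≤ 1 := pow_le_one₀ (norm_nonneg _) hq.le
      calc (‖q‖ ^ (j + 1)) ^ (n + 1) ≤ (‖q‖ ^ (j + 1)) ^ 1 :=
            pow_le_pow_of_le_one (by positivity) h2 (by omega)
        _ = _ := pow_one _
    have h3 := abs_aB (n + 1)
    gcongr

/-- The exact behaviour of `B` near the point `1`. -/
theorem Bq_exact {w : ℂ} (hre : 0 < w.re) (him : |w.im| ≤ (6 / 5) * w.re) :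
    ∃ R : ℂ, ‖R‖ ≤ (3 / 2) * ‖w‖ ∧
      Bq (Complex.exp (-w)) = Complex.exp (-(Li : ℂ) / w - (Real.log (4 / 3) : ℝ) / 2 + R) := by
  set q := Complex.exp (-w) with hqdef
  have hq : ‖q‖ < 1 := norm_exp_neg_lt_one hre
  have hw0 : w ≠ 0 := by rintro rfl; simp at hre
  set ρ : ℕ → ℂ := fun n => 1 / (Complex.exp (n * w) - 1) - 1 / (n * w) + 1 / 2 with hρ
  have hρb : ∀ n : ℕ, ‖((aB n : ℝ) : ℂ) * ρ n‖ ≤ 3 * ‖w‖ * (((1 : ℝ) / 3) ^ n) := by
    intro n
    rcases n with _ | n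
    · rw [aB_zero]; simp
    · have hb := phi_bound (W := ((n + 1 : ℕ) : ℂ) * w) (by
          rw [← Complex.ofReal_natCast, Complex.re_ofReal_mul]; positivity) (by
          rw [← Complex.ofReal_natCast, Complex.re_ofReal_mul, Complex.im_ofReal_mul, abs_mul,
            abs_of_nonneg (by positivity)]
          have : (0 : ℝ) ≤ ((n + 1 : ℕ) : ℝ) := by positivity
          nlinarith)
      rw [norm_mul, Complex.norm_real, Real.norm_eq_abs]
      rw [norm_mul, Complex.norm_natCast] at hb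
      have h := abs_aB_mul (n + 1)
      calc |aB (n + 1)| * ‖ρ (n + 1)‖ ≤ |aB (n + 1)| * (3 * (((n + 1 : ℕ) : ℝ) * ‖w‖)) := by
            gcongr
        _ = 3 * ‖w‖ * (|aB (n + 1)| * ((n + 1 : ℕ) : ℝ)) := by ring
        _ ≤ _ := by gcongr
  have hsρ : Summable fun n : ℕ => ((aB n : ℝ) : ℂ) * ρ n :=
    Summable.of_norm_bounded (summable_third.mul_left _) hρb
  refine ⟨∑' n : ℕ, ((aB n : ℝ) : ℂ) * ρ n - ((aB 0 : ℝ) : ℂ) * ρ 0, ?_, ?_⟩
  · -- the bound for the remainder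
    have h1 : ∑' n : ℕ, ((aB n : ℝ) : ℂ) * ρ n - ((aB 0 : ℝ) : ℂ) * ρ 0
        = ∑' n : ℕ, ((aB (n + 1) : ℝ) : ℂ) * ρ (n + 1) := by
      rw [hsρ.tsum_eq_zero_add]; ring
    rw [h1]
    have hs3 : HasSum (fun n : ℕ => 3 * ‖w‖ * (((1 : ℝ) / 3) ^ (n + 1))) (3 / 2 * ‖w‖) := by
      have h := (hasSum_geometric_of_lt_one (r := (1 : ℝ) / 3) (by norm_num) (by norm_num)).mul_left
        (‖w‖)
      have e : ‖w‖ * (1 - (1 : ℝ) / 3)⁻¹ = 3 / 2 * ‖w‖ := by norm_num; ring
      rw [e] at h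
      have e5 : (fun n : ℕ => 3 * ‖w‖ * (((1 : ℝ) / 3) ^ (n + 1)))
          = fun n : ℕ => ‖w‖ * ((1 : ℝ) / 3) ^ n := by
        funext n
        rw [pow_succ]
        ring
      rw [e5]
      exact h
    exact tsum_of_norm_bounded hs3 (fun n => hρb (n + 1))
  · rw [Bq_eq_exp hq]
    congr 1
    have e1 : ∀ j : ℕ, Complex.log (1 + q ^ (j + 1) / 3)
        = ∑' n : ℕ, ((aB n : ℝ) : ℂ) * (q ^ (j + 1)) ^ n := by
      intro j
      refine (hasSum_log_third ?_).tsum_eq.symm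
      rw [norm_pow]
      exact pow_lt_one₀ (norm_nonneg _) hq (by omega)
    rw [tsum_congr e1, ← (summable_double hq).tsum_comm]
    have e2 : ∀ n : ℕ, ∑' j : ℕ, ((aB n : ℝ) : ℂ) * (q ^ (j + 1)) ^ n
        = ((aB n : ℝ) : ℂ) * ρ n + (1 / w) * ((aB n / n : ℝ) : ℂ) - (1 / 2) * ((aB n : ℝ) : ℂ) := by
      intro n
      rcases n with _ | n
      · simp [aB_zero]
      · rw [tsum_mul_left]
        have hqn : ‖q ^ (n + 1)‖ < 1 := by
          rw [norm_pow]; exact pow_lt_one₀ (norm_nonneg _) hq (by omega)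
        have e3 : ∑' j : ℕ, (q ^ (j + 1)) ^ (n + 1) = q ^ (n + 1) / (1 - q ^ (n + 1)) := by
          have := ((hasSum_geometric_of_norm_lt_one hqn).mul_left (q ^ (n + 1))).tsum_eq
          rw [div_eq_mul_inv, ← this]
          refine tsum_congr fun j => ?_
          rw [← pow_mul, ← pow_succ', ← pow_mul]
          congr 1
          ring
        have e4 : q ^ (n + 1) / (1 - q ^ (n + 1))
            = 1 / (Complex.exp (((n + 1 : ℕ) : ℂ) * w) - 1) := by
          have : q ^ (n + 1) = (Complex.exp (((n + 1 : ℕ) : ℂ) * w))⁻¹ := by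
            rw [hqdef, ← Complex.exp_nat_mul, ← Complex.exp_neg]
            congr 1
            ring
          have hne : Complex.exp (((n + 1 : ℕ) : ℂ) * w) ≠ 0 := Complex.exp_ne_zero _
          rw [this]
          field_simp
        rw [e3, e4, hρ]
        have hn1 : ((n + 1 : ℕ) : ℂ) ≠ 0 := by
          exact_mod_cast Nat.succ_ne_zero n
        simp only
        push_cast at hn1 ⊢
        field_simp
        ring
    rw [tsum_congr e2]
    have s1 : Summable fun n : ℕ => (1 / w) * ((aB n / n : ℝ) : ℂ) :=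
      (Complex.ofRealCLM.summable summable_aB_div).mul_left _
    have s2 : Summable fun n : ℕ => (1 / 2 : ℂ) * ((aB n : ℝ) : ℂ) :=
      (Complex.ofRealCLM.summable summable_aB).mul_left _
    rw [(hsρ.add s1).tsum_sub s2, hsρ.tsum_add s1, tsum_mul_left, tsum_mul_left,
      ← Complex.ofReal_tsum, ← Complex.ofReal_tsum, tsum_aB, tsum_aB_div, aB_zero]
    push_cast
    ring

end Pool.Agent.Helper3.OP
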