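import Mathlib
import Pool.Agent.Helper3.EstB2

set_option autoImplicit false

open Finset Filter Topology

namespace Pool.Agent.Helper3.OP

/-- Summation over the integers, split into even and odd terms. -/
lemma hasSum_int_even_odd {f : ℤ → ℂ} {a b : ℂ} (he : HasSum (fun m : ℤ => f (2 * m)) a)
    (ho : HasSum (fun m : ℤ => f (2 * m - 1)) b) : HasSum f (a + b) := by
  have i1 : Function.Injective fun m : ℤ => 2 * m := fun x y h => by simpa using h
  have i2 : Function.Injective fun m : ℤ => 2 * m - 1 := fun x y h => by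
    simp only at h; omega
  refine (i1.hasSum_range_iff.2 he).add_isCompl ?_ (i2.hasSum_range_iff.2 ho)
  constructor
  · rw [Set.disjoint_left]
    rintro x ⟨m, rfl⟩ ⟨n, hn⟩
    simp only at hn
    omega
  · rw [codisjoint_iff_le_sup]
    intro x _
    rcases Int.even_or_odd' x with ⟨k, rfl | rfl⟩
    · left; exact ⟨k, rfl⟩
    · right; exact ⟨k + 1, by simp only; ring⟩

/-- A two-sided geometric majorant. -/
lemma hasSum_exp_neg_abs {c : ℝ} (hc : 0 < c) :
    HasSum (fun n : ℤ => Real.exp (-c * |(n : ℝ)|))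
      ((1 - Real.exp (-c))⁻¹ + Real.exp (-c) * (1 - Real.exp (-c))⁻¹) := by
  have hx : Real.exp (-c) < 1 := by rw [Real.exp_lt_one_iff]; linarith
  have h0 := hasSum_geometric_of_lt_one (Real.exp_pos (-c)).le hx
  refine HasSum.of_nat_of_neg_add_one ?_ ?_
  · convert h0 using 2 with n
    rw [← Real.exp_nat_mul]
    congr 1
    simp
    ring
  · have h1 := h0.mul_left (Real.exp (-c))
    have e : (fun n : ℕ => Real.exp (-c * |((-((n : ℤ) + 1) : ℤ) : ℝ)|))
        = fun n : ℕ => Real.exp (-c) * Real.exp (-c) ^ n := by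
      funext n
      rw [← Real.exp_nat_mul, ← Real.exp_add]
      congr 1
      push_cast
      rw [abs_neg, abs_of_nonneg (by positivity)]
      ring
    rw [e]
    exact h1

lemma exp_neg_ten : Real.exp (-10) ≤ 1 / 10000 := by
  have h1 : (2.7 : ℝ) ≤ Real.exp 1 := by
    have := Real.exp_one_gt_d9
    linarith
  have h2 : Real.exp 10 = Real.exp 1 ^ 10 := by rw [← Real.exp_nat_mul]; norm_num
  have h3 : (10000 : ℝ) ≤ Real.exp 10 := by
    rw [h2]
    calc (10000 : ℝ) ≤ 2.7 ^ 10 := by norm_num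
      _ ≤ _ := by gcongr
  rw [Real.exp_neg, one_div]
  exact inv_anti₀ (by norm_num) h3

/-- A rapidly convergent series over the integers is dominated by its central term. -/
lemma tsum_near_center {f : ℤ → ℂ} {c : ℝ} (hc : 10 ≤ c)
    (hf : ∀ n : ℤ, n ≠ 0 → ‖f n‖ ≤ Real.exp (-c * |(n : ℝ)|)) :
    ‖∑' n, f n - f 0‖ ≤ 1 / 1000 := by
  have hc0 : 0 < c := by linarith
  have hs := hasSum_exp_neg_abs hc0
  have hxe : Real.exp (-c) ≤ 1 / 10000 :=
    (Real.exp_le_exp.mpr (by linarith)).trans exp_neg_ten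
  have hx0 := Real.exp_pos (-c)
  set g : ℤ → ℂ := fun n => if n = 0 then 0 else f n with hg
  have hgb : ∀ n : ℤ, ‖g n‖ ≤ Real.exp (-c * |(n : ℝ)|) - (if n = 0 then 1 else 0) := by
    intro n
    by_cases hn : n = 0
    · simp [hg, hn]
    · simp only [hg, if_neg hn, sub_zero]
      exact hf n hn
  have hs2 : HasSum (fun n : ℤ => Real.exp (-c * |(n : ℝ)|) - (if n = 0 then (1 : ℝ) else 0))
      (((1 - Real.exp (-c))⁻¹ + Real.exp (-c) * (1 - Real.exp (-c))⁻¹) - 1) :=
    hs.sub (hasSum_ite_eq 0 1)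
  have h1 := tsum_of_norm_bounded hs2 hgb
  have hsg : Summable g := Summable.of_norm_bounded hs2.summable hgb
  have hfg : ∀ n, f n = g n + (if n = 0 then f 0 else 0) := by
    intro n
    by_cases hn : n = 0
    · simp [hg, hn]
    · simp [hg, hn]
  have h2 : ∑' n, f n - f 0 = ∑' n, g n := by
    rw [tsum_congr hfg, hsg.tsum_add (hasSum_ite_eq 0 (f 0)).summable, tsum_ite_eq]
    ring
  rw [h2]
  refine h1.trans ?_
  have h3 : (1 - Real.exp (-c))⁻¹ ≤ 1 + 2 * Real.exp (-c) := by
    rw [inv_le_iff_one_le_mul₀ (by linarith)]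
    nlinarith
  nlinarith

/-- Poisson summation for the theta series. -/
theorem Th_transform {w : ℂ} (hw : 0 < w.re) :
    Th w = 1 / (w / (2 * Real.pi)) ^ (1 / 2 : ℂ) *
      (Complex.exp (((Real.log 3 : ℝ) - w / 2) ^ 2 / (2 * w)) *
      ∑' n : ℤ, Complex.exp (-(2 * Real.pi ^ 2 * n ^ 2 +
        2 * Real.pi * Complex.I * (Real.log 3 : ℝ) * n) / w + Real.pi * Complex.I * n)) := by
  have hpi : (Real.pi : ℂ) ≠ 0 := by exact_mod_cast Real.pi_ne_zero
  have hw0 : w ≠ 0 := by rintro rfl; simp at hw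
  have hI : Complex.I ≠ 0 := Complex.I_ne_zero
  have ha : 0 < (w / (2 * Real.pi)).re := by
    have : w / (2 * Real.pi) = w * ((1 / (2 * Real.pi) : ℝ) : ℂ) := by push_cast; ring
    rw [this, Complex.re_mul_ofReal]
    have := Real.pi_pos
    positivity
  have h := Complex.tsum_exp_neg_quadratic ha (((Real.log 3 : ℝ) - w / 2) / (2 * Real.pi))
  have e1 : Th w = ∑' n : ℤ, Complex.exp (-Real.pi * (w / (2 * Real.pi)) * n ^ 2 +
      2 * Real.pi * (((Real.log 3 : ℝ) - w / 2) / (2 * Real.pi)) * n) := by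
    unfold Th
    refine tsum_congr fun n => ?_
    congr 1
    field_simp
    ring
  rw [e1, h, ← tsum_mul_left, ← tsum_mul_left, ← tsum_mul_left]
  refine tsum_congr fun n => ?_
  rw [← Complex.exp_add]
  congr 2
  field_simp
  ring_nf
  simp only [Complex.I_sq]
  ring

end Pool.Agent.Helper3.OP
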