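import Mathlib
import Pool.Agent.Helper3.Theta

set_option autoImplicit false

open Finset Filter Topology

namespace Pool.Agent.Helper3.OP

lemma log3_lt : Real.log 3 < 1.0987 := by
  rw [Real.log_lt_iff_lt_exp (by norm_num)]
  have h1 : (2.7182818283 : ℝ) < Real.exp 1 := Real.exp_one_gt_d9
  have h2 : Real.exp 1.0987 = Real.exp 1 * Real.exp 0.0987 := by
    rw [← Real.exp_add]; norm_num
  have h3 : (1.103735 : ℝ) ≤ Real.exp 0.0987 := by
    have := Real.sum_le_exp_of_nonneg (x := 0.0987) (by norm_num) 5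
    refine le_trans ?_ this
    simp [Finset.sum_range_succ, Nat.factorial]
    norm_num
  rw [h2]
  nlinarith

lemma lt_log3 : 1.0986 < Real.log 3 := by
  rw [Real.lt_log_iff_exp_lt (by norm_num)]
  have h1 : Real.exp 1 < (2.7182818286 : ℝ) := Real.exp_one_lt_d9
  have h2 : Real.exp 1.0986 = Real.exp 1 * Real.exp 0.0986 := by
    rw [← Real.exp_add]; norm_num
  have h3 : Real.exp 0.0986 ≤ 1.103625 := by
    have := Real.exp_bound' (x := 0.0986) (by norm_num) (by norm_num) (n := 5) (by norm_num)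
    refine this.trans ?_
    simp [Finset.sum_range_succ, Nat.factorial]
    norm_num
  rw [h2]
  have := Real.exp_pos 0.0986
  nlinarith

/-- The dual series. -/
noncomputable def Sd (w : ℂ) : ℂ :=
  ∑' n : ℤ, Complex.exp (-(2 * Real.pi ^ 2 * n ^ 2 +
        2 * Real.pi * Complex.I * (Real.log 3 : ℝ) * n) / w + Real.pi * Complex.I * n)

lemma norm_term_Sd (w : ℂ) (n : ℤ) :
    ‖Complex.exp (-(2 * Real.pi ^ 2 * n ^ 2 +
        2 * Real.pi * Complex.I * (Real.log 3 : ℝ) * n) / w + Real.pi * Complex.I * n)‖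
      = Real.exp (-(2 * Real.pi ^ 2 * n ^ 2 * w.re + 2 * Real.pi * Real.log 3 * n * w.im)
        / Complex.normSq w) := by
  rw [Complex.norm_exp]
  congr 1
  generalize Real.log 3 = L
  have e1 : -(2 * (Real.pi : ℂ) ^ 2 * n ^ 2 +
        2 * Real.pi * Complex.I * (L : ℝ) * n)
      = ⟨-(2 * Real.pi ^ 2 * n ^ 2), -(2 * Real.pi * L * n)⟩ := by
    apply Complex.ext
    · simp [sq]
    · simp [sq]
  have e2 : (Real.pi : ℂ) * Complex.I * n = ⟨0, Real.pi * n⟩ := by
    apply Complex.ext <;> simp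
  rw [e1, e2, Complex.add_re, Complex.div_re]
  simp only
  ring

lemma Sd_near_one {w : ℂ} (hre : 0 < w.re) (him : |w.im| ≤ (6 / 5) * w.re) (hs : w.re ≤ 1 / 10) :
    ‖Sd w - 1‖ ≤ 1 / 1000 := by
  have h := tsum_near_center (c := 10) le_rfl
    (f := fun n : ℤ => Complex.exp (-(2 * Real.pi ^ 2 * n ^ 2 +
        2 * Real.pi * Complex.I * (Real.log 3 : ℝ) * n) / w + Real.pi * Complex.I * n)) ?_
  · have e0 : Complex.exp (-(2 * (Real.pi : ℂ) ^ 2 * ((0 : ℤ) : ℂ) ^ 2 +
        2 * Real.pi * Complex.I * (Real.log 3 : ℝ) * ((0 : ℤ) : ℂ)) / w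
          + Real.pi * Complex.I * ((0 : ℤ) : ℂ)) = 1 := by simp
    rw [e0] at h
    exact h
  · intro n hn
    rw [norm_term_Sd]
    apply Real.exp_le_exp.mpr
    have hns : 0 < Complex.normSq w := Complex.normSq_pos.mpr (by rintro rfl; simp at hre)
    rw [div_le_iff₀ hns, Complex.normSq_apply]
    have hpi := Real.pi_gt_d2
    have hpi0 := Real.pi_pos
    have hL := log3_lt
    have hL0 : 0 < Real.log 3 := Real.log_pos (by norm_num)
    set a : ℝ := |(n : ℝ)| with ha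
    have ha1 : 1 ≤ a := by
      rw [ha, ← Int.cast_abs]
      exact_mod_cast Int.one_le_abs hn
    have hna : (n : ℝ) ^ 2 = a ^ 2 := by rw [ha, sq_abs]
    have him2 : w.im * w.im ≤ (36 / 25) * (w.re * w.re) := by
      have : w.im * w.im = |w.im| * |w.im| := by rw [abs_mul_abs_self]
      rw [this]
      have h0 := abs_nonneg w.im
      nlinarith
    have hcross : -(n * w.im) ≤ a * ((6 / 5) * w.re) := by
      have h1 : -(n * w.im) ≤ |(n : ℝ) * w.im| := neg_le_abs _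
      rw [abs_mul] at h1
      exact h1.trans (by gcongr)
    have h2 : -(2 * Real.pi ^ 2 * (n : ℝ) ^ 2 * w.re + 2 * Real.pi * Real.log 3 * n * w.im)
        ≤ -(2 * Real.pi ^ 2 * a ^ 2 * w.re) + 2 * Real.pi * Real.log 3 * (a * ((6 / 5) * w.re)) := by
      rw [hna]
      have : 2 * Real.pi * Real.log 3 * (-(n * w.im))
          ≤ 2 * Real.pi * Real.log 3 * (a * ((6 / 5) * w.re)) := by gcongr
      linarith
    refine h2.trans ?_
    have h3 : 2 * Real.pi ^ 2 * a ^ 2 * w.re ≥ 2 * Real.pi ^ 2 * a * w.re := by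
      have : a ≤ a ^ 2 := by nlinarith
      gcongr
    have h4 : Real.log 3 * (6 / 5) ≤ 1.32 := by linarith
    have h5 : 2 * Real.pi * (Real.pi - 1.32) ≥ 11 := by nlinarith
    have h6 : -(2 * Real.pi ^ 2 * a * w.re) + 2 * Real.pi * Real.log 3 * (a * ((6 / 5) * w.re))
        ≤ -(11 * (a * w.re)) := by
      have haw : 0 < a * w.re := by positivity
      have : 2 * Real.pi ^ 2 - 2 * Real.pi * (Real.log 3 * (6 / 5)) ≥ 11 := by nlinarith
      nlinarith
    have h7 : w.re * w.re + w.im * w.im ≤ (61 / 250) * w.re := by nlinarith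
    have h8 : -10 * a * (w.re * w.re + w.im * w.im) ≥ -10 * a * ((61 / 250) * w.re) := by
      have : 0 < a := by linarith
      nlinarith
    have h9 : 0 < a * w.re := by positivity
    nlinarith

lemma Th_eq {w : ℂ} (hw : 0 < w.re) :
    Th w = 1 / (w / (2 * Real.pi)) ^ (1 / 2 : ℂ) *
      (Complex.exp (((Real.log 3 : ℝ) - w / 2) ^ 2 / (2 * w)) * Sd w) := Th_transform hw

lemma norm_Th_le_real {w : ℂ} (hw : 0 < w.re) : ‖Th w‖ ≤ ‖Th (w.re : ℂ)‖ := by
  have hr : 0 < ((w.re : ℂ)).re := by simpa using hw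
  have hs := summable_Th hr
  have e : ∀ n : ℤ, Complex.exp (((Real.log 3 : ℝ) - (w.re : ℂ) / 2) * n
      - (w.re : ℂ) / 2 * (n : ℂ) ^ 2)
      = ((Real.exp ((Real.log 3 - w.re / 2) * n - w.re / 2 * (n : ℝ) ^ 2) : ℝ) : ℂ) := by
    intro n
    push_cast
    rfl
  have hs2 : Summable fun n : ℤ =>
      Real.exp ((Real.log 3 - w.re / 2) * n - w.re / 2 * (n : ℝ) ^ 2) := by
    have := hs.congr e
    exact Complex.summable_ofReal.mp this
  have h1 : Th (w.re : ℂ)
      = ((∑' n : ℤ, Real.exp ((Real.log 3 - w.re / 2) * n - w.re / 2 * (n : ℝ) ^ 2) : ℝ) : ℂ) := by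
    rw [Complex.ofReal_tsum]
    exact tsum_congr e
  rw [h1, Complex.norm_real, Real.norm_of_nonneg (tsum_nonneg fun n => (Real.exp_pos _).le)]
  refine tsum_of_norm_bounded hs2.hasSum fun n => ?_
  rw [Complex.norm_exp]
  apply le_of_eq
  congr 1
  have e3 : ((Real.log 3 : ℝ) - w / 2) * n - w / 2 * (n : ℂ) ^ 2
      = ((Real.log 3 * n : ℝ) : ℂ) - w * (((n : ℝ) / 2 + (n : ℝ) ^ 2 / 2 : ℝ) : ℂ) := by
    push_cast; ring
  rw [e3, Complex.sub_re, Complex.ofReal_re, Complex.re_mul_ofReal]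
  ring

/-- The trivial bound for the theta series. -/
lemma norm_Th_le {w : ℂ} (hw : 0 < w.re) (hs : w.re ≤ 1 / 10) :
    ‖Th w‖ ≤ (1001 / 1000) * (Real.sqrt (2 * Real.pi / w.re) *
      Real.exp ((Real.log 3 - w.re / 2) ^ 2 / (2 * w.re))) := by
  refine (norm_Th_le_real hw).trans ?_
  set t : ℝ := w.re with ht
  have hr : 0 < ((t : ℂ)).re := by simpa using hw
  rw [Th_eq hr, norm_mul, norm_mul]
  have h1 : ‖Sd (t : ℂ)‖ ≤ 1001 / 1000 := by
    have h := Sd_near_one (w := (t : ℂ)) hr (by simp; positivity) (by simpa using hs)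
    have h2 := norm_le_norm_add_norm_sub' (Sd (t : ℂ)) 1
    rw [norm_one] at h2
    linarith
  have h2 : ‖Complex.exp (((Real.log 3 : ℝ) - (t : ℂ) / 2) ^ 2 / (2 * t))‖
      = Real.exp ((Real.log 3 - t / 2) ^ 2 / (2 * t)) := by
    rw [Complex.norm_exp]
    congr 1
    rw [← Complex.ofReal_re ((Real.log 3 - t / 2) ^ 2 / (2 * t))]
    congr 1
    push_cast
    rfl
  have h3 : ‖1 / ((t : ℂ) / (2 * Real.pi)) ^ (1 / 2 : ℂ)‖ = Real.sqrt (2 * Real.pi / t) := by
    have e1 : (t : ℂ) / (2 * Real.pi) = ((t / (2 * Real.pi) : ℝ) : ℂ) := by push_cast; rfl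
    have e2 : (1 / 2 : ℂ) = ((1 / 2 : ℝ) : ℂ) := by push_cast; rfl
    have hp : 0 < t / (2 * Real.pi) := by
      have := Real.pi_pos
      positivity
    rw [e1, e2, ← Complex.ofReal_cpow hp.le, norm_div, norm_one, Complex.norm_real,
      Real.norm_of_nonneg (by positivity), ← Real.sqrt_eq_rpow, one_div, ← Real.sqrt_inv]
    congr 1
    rw [inv_div]
  rw [h2, h3]
  calc Real.sqrt (2 * Real.pi / t) * (Real.exp ((Real.log 3 - t / 2) ^ 2 / (2 * t)) * ‖Sd (t : ℂ)‖)
      ≤ Real.sqrt (2 * Real.pi / t) * (Real.exp ((Real.log 3 - t / 2) ^ 2 / (2 * t))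
        * (1001 / 1000)) := by gcongr
    _ = _ := by ring

end Pool.Agent.Helper3.OP
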