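import Mathlib
import Pool.Agent.Helper3.Theta2

set_option autoImplicit false

open Finset Filter Topology

namespace Pool.Agent.Helper3.OP

/-- The half sums of the theta series near `q = -1`. -/
noncomputable def Ts (s w : ℂ) : ℂ :=
  ∑' m : ℤ, Complex.exp ((2 * (Real.log 3 : ℝ) + s * w + Real.pi * Complex.I) * m
    - 2 * w * (m : ℂ) ^ 2)

lemma exp_int_two_pi (m : ℤ) : Complex.exp (2 * Real.pi * Complex.I * m) = 1 := by
  rw [mul_comm]; exact Complex.exp_int_mul_two_pi_mul_I m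

lemma summable_quad {a b : ℂ} (ha : 0 < a.re) :
    Summable fun m : ℤ => Complex.exp (b * m - a * (m : ℂ) ^ 2) := by
  have hpi : (Real.pi : ℂ) ≠ 0 := by exact_mod_cast Real.pi_ne_zero
  have h := (summable_jacobiTheta₂_term_iff
    (b / (2 * Real.pi * Complex.I)) (Complex.I * a / Real.pi)).mpr (by
      have : Complex.I * a / Real.pi = Complex.I * a * ((1 / Real.pi : ℝ) : ℂ) := by
        push_cast; ring
      rw [this, Complex.im_mul_ofReal]
      have : (Complex.I * a).im = a.re := by simp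
      rw [this]
      have := Real.pi_pos
      positivity)
  refine h.congr fun n => ?_
  unfold jacobiTheta₂_term
  congr 1
  have hI : Complex.I ≠ 0 := Complex.I_ne_zero
  field_simp
  rw [Complex.I_sq]
  ring

lemma Th_pi_aux {L : ℝ} {w : ℂ} (hw : 0 < w.re) :
    HasSum (fun n : ℤ => Complex.exp (((L : ℝ) -
      (w - Real.pi * Complex.I) / 2) * n - (w - Real.pi * Complex.I) / 2 * (n : ℂ) ^ 2))
      (∑' m : ℤ, Complex.exp ((2 * (L : ℝ) + (-1) * w + Real.pi * Complex.I) * m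
        - 2 * w * (m : ℂ) ^ 2) + Complex.exp (-(L : ℝ)) *
        ∑' m : ℤ, Complex.exp ((2 * (L : ℝ) + 1 * w + Real.pi * Complex.I) * m
        - 2 * w * (m : ℂ) ^ 2)) := by
  have hre2 : 0 < (2 * w).re := by
    have : (2 * w).re = 2 * w.re := by simp
    rw [this]; linarith
  refine hasSum_int_even_odd ?_ ?_
  · have h := (summable_quad (b := 2 * (L : ℝ) + (-1) * w + Real.pi * Complex.I) hre2).hasSum
    convert h using 1
    funext m
    have e : ((L : ℂ) - (w - Real.pi * Complex.I) / 2) * ((2 * m : ℤ) : ℂ)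
        - (w - Real.pi * Complex.I) / 2 * (((2 * m : ℤ) : ℂ)) ^ 2
        = (2 * (L : ℂ) + -1 * w + Real.pi * Complex.I) * m - 2 * w * (m : ℂ) ^ 2
          + 2 * Real.pi * Complex.I * ((m ^ 2 : ℤ) : ℂ) := by
      push_cast; ring
    rw [e, Complex.exp_add, exp_int_two_pi, mul_one]
  · have h := ((summable_quad (b := 2 * (L : ℝ) + 1 * w + Real.pi * Complex.I) hre2).hasSum).mul_left
      (Complex.exp (-(L : ℝ)))
    have e0 : (fun m : ℤ => Complex.exp (((L : ℂ) - (w - Real.pi * Complex.I) / 2)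
        * ((2 * m - 1 : ℤ) : ℂ)
        - (w - Real.pi * Complex.I) / 2 * (((2 * m - 1 : ℤ) : ℂ)) ^ 2))
        = fun m : ℤ => Complex.exp (-(L : ℝ)) * Complex.exp ((2 * (L : ℝ) + 1 * w
          + Real.pi * Complex.I) * m - 2 * w * (m : ℂ) ^ 2) := by
      funext m
      have e : ((L : ℂ) - (w - Real.pi * Complex.I) / 2) * ((2 * m - 1 : ℤ) : ℂ)
          - (w - Real.pi * Complex.I) / 2 * (((2 * m - 1 : ℤ) : ℂ)) ^ 2
          = -(L : ℂ) + ((2 * (L : ℂ) + 1 * w + Real.pi * Complex.I) * m - 2 * w * (m : ℂ) ^ 2)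
            + 2 * Real.pi * Complex.I * ((m ^ 2 - m : ℤ) : ℂ) := by
        push_cast; ring
      rw [e, Complex.exp_add, exp_int_two_pi, mul_one, Complex.exp_add]
    exact e0 ▸ h

lemma Th_pi {w : ℂ} (hw : 0 < w.re) :
    Th (w - Real.pi * Complex.I)
      = Ts (-1) w + Complex.exp (-(Real.log 3 : ℝ)) * Ts 1 w := by
  unfold Th Ts
  exact (Th_pi_aux hw).tsum_eq

lemma Ts_transform {s w : ℂ} (hs : s ^ 2 = 1) (hw : 0 < w.re) :
    Ts s w = 1 / (2 * w / Real.pi) ^ (1 / 2 : ℂ) *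
      ∑' n : ℤ, Complex.exp (-((Real.pi * (2 * n - 1) + 2 * Complex.I * (Real.log 3 : ℝ)) ^ 2
        / (8 * w)) - Complex.I * s * Real.pi * (2 * n - 1) / 4 + s * (Real.log 3 : ℝ) / 2
          + w / 8) := by
  have hpi : (Real.pi : ℂ) ≠ 0 := by exact_mod_cast Real.pi_ne_zero
  have hw0 : w ≠ 0 := by rintro rfl; simp at hw
  have ha : 0 < (2 * w / Real.pi).re := by
    have : 2 * w / Real.pi = w * ((2 / Real.pi : ℝ) : ℂ) := by push_cast; ring
    rw [this, Complex.re_mul_ofReal]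
    have := Real.pi_pos
    positivity
  set L : ℝ := Real.log 3 with hL
  have h := Complex.tsum_exp_neg_quadratic ha
    ((2 * (L : ℝ) + s * w + Real.pi * Complex.I) / (2 * Real.pi))
  have e1 : Ts s w = ∑' n : ℤ, Complex.exp (-Real.pi * (2 * w / Real.pi) * n ^ 2 +
      2 * Real.pi * ((2 * (L : ℝ) + s * w + Real.pi * Complex.I) / (2 * Real.pi)) * n) := by
    unfold Ts
    refine tsum_congr fun n => ?_
    congr 1
    field_simp
    ring
  rw [e1, h]
  congr 1
  refine tsum_congr fun n => ?_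
  congr 1
  field_simp
  ring_nf
  simp only [Complex.I_sq, Complex.I_pow_three, Complex.I_pow_four, hs]
  ring

/-- The size of the general term. -/
lemma norm_term_Ts (s : ℝ) (w : ℂ) (n : ℤ) :
    ‖Complex.exp (-((Real.pi * (2 * n - 1) + 2 * Complex.I * (Real.log 3 : ℝ)) ^ 2
        / (8 * w)) - Complex.I * (s : ℂ) * Real.pi * (2 * n - 1) / 4 + (s : ℂ) * (Real.log 3 : ℝ) / 2
          + w / 8)‖
      = Real.exp (s * Real.log 3 / 2 + w.re / 8) *
        Real.exp (((4 * Real.log 3 ^ 2 - Real.pi ^ 2 * (2 * n - 1) ^ 2) * w.re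
          - 4 * Real.pi * (2 * n - 1) * Real.log 3 * w.im) / (8 * Complex.normSq w)) := by
  rw [← Real.exp_add, Complex.norm_exp]
  congr 1
  generalize Real.log 3 = L
  have e1 : ((Real.pi : ℂ) * (2 * n - 1) + 2 * Complex.I * (L : ℝ)) ^ 2
      = ⟨Real.pi ^ 2 * (2 * n - 1) ^ 2 - 4 * L ^ 2, 4 * Real.pi * (2 * n - 1) * L⟩ := by
    apply Complex.ext
    · simp [sq]; ring
    · simp [sq]; ring
  have e2 : Complex.I * (s : ℂ) * Real.pi * (2 * n - 1) / 4
      = ((s * Real.pi * (2 * n - 1) / 4 : ℝ) : ℂ) * Complex.I := by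
    push_cast; ring
  have e3 : (s : ℂ) * (L : ℝ) / 2 = ((s * L / 2 : ℝ) : ℂ) := by push_cast; ring
  have e4 : (⟨Real.pi ^ 2 * (2 * n - 1) ^ 2 - 4 * L ^ 2, 4 * Real.pi * (2 * n - 1) * L⟩ : ℂ)
      / (8 * w) = (⟨(Real.pi ^ 2 * (2 * n - 1) ^ 2 - 4 * L ^ 2) / 8,
        4 * Real.pi * (2 * n - 1) * L / 8⟩ : ℂ) / w := by
    rw [div_mul_eq_div_div]
    congr 1
    apply Complex.ext
    · simp
    · simp
  have e5 : w / 8 = w * ((1 / 8 : ℝ) : ℂ) := by push_cast; ring
  rw [e1, e2, e3, e4, e5]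
  simp only [Complex.add_re, Complex.sub_re, Complex.neg_re, Complex.div_re, Complex.ofReal_re,
    Complex.re_mul_ofReal, Complex.re_ofReal_mul, Complex.I_re]
  ring

end Pool.Agent.Helper3.OP
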