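import Mathlib
import Pool.Agent.Helper3.Theta3

set_option autoImplicit false

open Finset Filter Topology

namespace Pool.Agent.Helper3.OP

/-- The exponent controlling the theta series near `q = -1`. -/
noncomputable def Mpi (w : ℂ) : ℝ :=
  ((4 * Real.log 3 ^ 2 - Real.pi ^ 2) * w.re + 4 * Real.pi * Real.log 3 * |w.im|)
    / (8 * Complex.normSq w)

lemma exponent_le_Mpi {w : ℂ} (hw : 0 < w.re) (him : |w.im| ≤ (3 / 2) * w.re)
    (n : ℤ) :
    ((4 * Real.log 3 ^ 2 - Real.pi ^ 2 * (2 * n - 1) ^ 2) * w.re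
          - 4 * Real.pi * (2 * n - 1) * Real.log 3 * w.im) / (8 * Complex.normSq w) ≤ Mpi w := by
  unfold Mpi
  have hns : 0 < Complex.normSq w := Complex.normSq_pos.mpr (by rintro rfl; simp at hw)
  apply div_le_div_of_nonneg_right _ (by positivity)
  have hpi := Real.pi_gt_d2
  have hpi0 := Real.pi_pos
  have hL := log3_lt
  have hL0 : 0 < Real.log 3 := Real.log_pos (by norm_num)
  set ν : ℝ := 2 * (n : ℝ) - 1 with hν
  have hν1 : 1 ≤ |ν| := by
    have : (1 : ℤ) ≤ |2 * n - 1| := Int.one_le_abs (by omega)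
    have h2 : ((|2 * n - 1| : ℤ) : ℝ) = |ν| := by rw [Int.cast_abs, hν]; push_cast; rfl
    rw [← h2]
    exact_mod_cast this
  rcases eq_or_lt_of_le hν1 with h1 | h1
  · have hsq : ν ^ 2 = 1 := by rw [← sq_abs, ← h1]; norm_num
    have h3 : -(ν * w.im) ≤ |w.im| := by
      have h4 : -(ν * w.im) ≤ |ν * w.im| := neg_le_abs _
      rw [abs_mul, ← h1, one_mul] at h4
      exact h4
    rw [hsq]
    have : 4 * Real.pi * Real.log 3 * (-(ν * w.im)) ≤ 4 * Real.pi * Real.log 3 * |w.im| := by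
      gcongr
    nlinarith
  · -- here `|ν| ≥ 3`
    have hν3 : 3 ≤ |ν| := by
      have h2 : ((|2 * n - 1| : ℤ) : ℝ) = |ν| := by rw [Int.cast_abs, hν]; push_cast; rfl
      rw [← h2] at h1 ⊢
      have h3 : (1 : ℤ) < |2 * n - 1| := by exact_mod_cast h1
      have h4 : (3 : ℤ) ≤ |2 * n - 1| := by
        rcases abs_cases (2 * n - 1) with h | h <;> omega
      exact_mod_cast h4
    have h3 : -(ν * w.im) ≤ |ν| * |w.im| := by
      have h4 : -(ν * w.im) ≤ |ν * w.im| := neg_le_abs _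
      rwa [abs_mul] at h4
    have h5 : 4 * Real.pi * Real.log 3 * (-(ν * w.im))
        ≤ 4 * Real.pi * Real.log 3 * (|ν| * |w.im|) := by gcongr
    rw [← sq_abs ν]
    -- need: (|ν|² - 1) π² t ≥ 4 π L (|ν| - 1) |im|
    have h6 : 4 * Real.pi * Real.log 3 * ((|ν| - 1) * |w.im|)
        ≤ 4 * Real.pi * Real.log 3 * ((|ν| - 1) * ((3 / 2) * w.re)) := by
      have : 0 ≤ |ν| - 1 := by linarith
      gcongr
    have h7 : 4 * Real.pi * Real.log 3 * ((|ν| - 1) * ((3 / 2) * w.re))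
        ≤ Real.pi ^ 2 * (|ν| ^ 2 - 1) * w.re := by
      have h8 : 0 < (|ν| - 1) * w.re * Real.pi := by
        have : 0 < |ν| - 1 := by linarith
        positivity
      have h9 : 6 * Real.log 3 ≤ Real.pi * (|ν| + 1) := by nlinarith
      nlinarith
    nlinarith

lemma exponent_le_Mpi_sub {w : ℂ} (hw : 0 < w.re) (him : |w.im| ≤ (3 / 2) * w.re)
    (hs : w.re ≤ 1 / 100) (n : ℤ) (hn : 2 ≤ |n|) :
    ((4 * Real.log 3 ^ 2 - Real.pi ^ 2 * (2 * n - 1) ^ 2) * w.re
          - 4 * Real.pi * (2 * n - 1) * Real.log 3 * w.im) / (8 * Complex.normSq w)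
      ≤ Mpi w - 10 * |(n : ℝ)| := by
  unfold Mpi
  have hns : 0 < Complex.normSq w := Complex.normSq_pos.mpr (by rintro rfl; simp at hw)
  have h8ns : 8 * Complex.normSq w ≠ 0 := by positivity
  rw [div_le_iff₀ (by positivity), sub_mul (_ / _), div_mul_cancel₀ _ h8ns]
  have hpi := Real.pi_gt_d2
  have hpi0 := Real.pi_pos
  have hL := log3_lt
  have hL0 : 0 < Real.log 3 := Real.log_pos (by norm_num)
  set ν : ℝ := 2 * (n : ℝ) - 1 with hν
  set a : ℝ := |(n : ℝ)| with ha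
  have ha2 : 2 ≤ a := by
    rw [ha, ← Int.cast_abs]
    exact_mod_cast hn
  have hνa : 2 * a - 1 ≤ |ν| := by
    have h := abs_sub_abs_le_abs_sub (2 * (n : ℝ)) 1
    rw [abs_mul, abs_two, abs_one] at h
    rw [ha, hν]
    exact h
  have hν3 : 3 ≤ |ν| := by linarith
  have h3 : -(ν * w.im) ≤ |ν| * |w.im| := by
    have h4 : -(ν * w.im) ≤ |ν * w.im| := neg_le_abs _
    rwa [abs_mul] at h4
  have h5 : 4 * Real.pi * Real.log 3 * (-(ν * w.im))
      ≤ 4 * Real.pi * Real.log 3 * (|ν| * |w.im|) := by gcongr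
  rw [← sq_abs ν]
  have h6 : 4 * Real.pi * Real.log 3 * ((|ν| - 1) * |w.im|)
      ≤ 4 * Real.pi * Real.log 3 * ((|ν| - 1) * ((3 / 2) * w.re)) := by
    have : 0 ≤ |ν| - 1 := by linarith
    gcongr
  have h7 : 4 * Real.pi * Real.log 3 * ((|ν| - 1) * ((3 / 2) * w.re))
      + 18 * ((|ν| - 1) * w.re) ≤ Real.pi ^ 2 * (|ν| ^ 2 - 1) * w.re := by
    have h8 : 0 < (|ν| - 1) * w.re := by
      have : 0 < |ν| - 1 := by linarith
      positivity
    have h9 : Real.pi * (6 * Real.log 3) + 18 ≤ Real.pi * (Real.pi * (|ν| + 1)) := by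
      have h10 : 5.9 ≤ Real.pi * (|ν| + 1) - 6 * Real.log 3 := by nlinarith
      nlinarith
    nlinarith
  have hnsq : Complex.normSq w ≤ (13 / 400) * w.re := by
    rw [Complex.normSq_apply]
    have him2 : w.im * w.im ≤ (9 / 4) * (w.re * w.re) := by
      have : w.im * w.im = |w.im| * |w.im| := by rw [abs_mul_abs_self]
      rw [this]
      have h0 := abs_nonneg w.im
      nlinarith
    nlinarith
  have h10 : 10 * a * (8 * Complex.normSq w) ≤ 10 * a * (8 * ((13 / 400) * w.re)) := by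
    gcongr
  have h11 : 10 * a * (8 * ((13 / 400) * w.re)) ≤ 18 * ((|ν| - 1) * w.re) := by
    have h12 : 10 * a * (8 * (13 / 400)) ≤ 18 * (|ν| - 1) := by linarith
    nlinarith
  nlinarith

lemma norm_Ts_le {s : ℝ} (hs2 : s ^ 2 = 1) {w : ℂ} (hw : 0 < w.re)
    (him : |w.im| ≤ (3 / 2) * w.re) (hs : w.re ≤ 1 / 100) :
    ‖Ts (s : ℂ) w‖ ≤ (4001 / 1000) * (‖1 / (2 * w / Real.pi) ^ (1 / 2 : ℂ)‖ *
      (Real.exp (s * Real.log 3 / 2 + w.re / 8) * Real.exp (Mpi w))) := by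
  rw [Ts_transform (by exact_mod_cast hs2) hw, norm_mul]
  set A : ℝ := Real.exp (s * Real.log 3 / 2 + w.re / 8) with hA
  have hx := hasSum_exp_neg_abs (c := 10) (by norm_num)
  have h1 : HasSum (fun n : ℤ => if n ∈ ({-1, 0, 1} : Finset ℤ) then (1 : ℝ) else 0) 3 := by
    have h0 : HasSum (fun n : ℤ => if n ∈ ({-1, 0, 1} : Finset ℤ) then (1 : ℝ) else 0)
        (∑ b ∈ ({-1, 0, 1} : Finset ℤ), if b ∈ ({-1, 0, 1} : Finset ℤ) then (1 : ℝ) else 0) := by
      apply hasSum_sum_of_ne_finset_zero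
      intro b hb
      simp only [if_neg hb]
    have e : (∑ b ∈ ({-1, 0, 1} : Finset ℤ), if b ∈ ({-1, 0, 1} : Finset ℤ) then (1 : ℝ) else 0)
        = 3 := by
      rw [sum_congr rfl (fun b hb => if_pos hb), sum_const]
      have : #({-1, 0, 1} : Finset ℤ) = 3 := by decide
      rw [this]
      norm_num
    rw [e] at h0
    exact h0
  have h2 := (h1.add hx).mul_left (A * Real.exp (Mpi w))
  have h3 := tsum_of_norm_bounded h2 (f := fun n : ℤ => Complex.exp (-((Real.pi * (2 * n - 1)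
        + 2 * Complex.I * (Real.log 3 : ℝ)) ^ 2
        / (8 * w)) - Complex.I * (s : ℂ) * Real.pi * (2 * n - 1) / 4 + (s : ℂ) * (Real.log 3 : ℝ) / 2
          + w / 8)) (by
    intro n
    rw [norm_term_Ts, ← hA, mul_assoc A]
    have hA0 : 0 < A := Real.exp_pos _
    apply mul_le_mul_of_nonneg_left _ hA0.le
    by_cases hn : 2 ≤ |n|
    · have h4 := exponent_le_Mpi_sub hw him hs n hn
      have hnm : n ∉ ({-1, 0, 1} : Finset ℤ) := by
        simp only [mem_insert, mem_singleton, not_or]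
        refine ⟨?_, ?_, ?_⟩ <;> (rintro rfl; norm_num at hn)
      rw [if_neg hnm, zero_add, ← Real.exp_add]
      apply Real.exp_le_exp.mpr
      linarith
    · have h4 := exponent_le_Mpi hw him n
      have hnm : n ∈ ({-1, 0, 1} : Finset ℤ) := by
        simp only [mem_insert, mem_singleton]
        rcases abs_cases n with h | h <;> omega
      rw [if_pos hnm]
      have h5 := Real.exp_pos (-10 * |(n : ℝ)|)
      have h6 := Real.exp_le_exp.mpr h4
      nlinarith [Real.exp_pos (Mpi w)])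
  have h5 : 3 + ((1 - Real.exp (-10))⁻¹ + Real.exp (-10) * (1 - Real.exp (-10))⁻¹)
      ≤ 4001 / 1000 := by
    have hx0 := Real.exp_pos (-10)
    have hx1 := exp_neg_ten
    have h3 : (1 - Real.exp (-10))⁻¹ ≤ 1 + 2 * Real.exp (-10) := by
      rw [inv_le_iff_one_le_mul₀ (by linarith)]
      nlinarith
    nlinarith
  calc _ ≤ ‖1 / (2 * w / (Real.pi : ℂ)) ^ (1 / 2 : ℂ)‖ * (A * Real.exp (Mpi w) *
        (3 + ((1 - Real.exp (-10))⁻¹ + Real.exp (-10) * (1 - Real.exp (-10))⁻¹))) := by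
        gcongr
    _ ≤ ‖1 / (2 * w / (Real.pi : ℂ)) ^ (1 / 2 : ℂ)‖ * (A * Real.exp (Mpi w) * (4001 / 1000)) := by
        have : 0 < A := Real.exp_pos _
        gcongr
    _ = _ := by ring

lemma norm_Th_pi_le {w : ℂ} (hw : 0 < w.re)
    (him : |w.im| ≤ (3 / 2) * w.re) (hs : w.re ≤ 1 / 100) :
    ‖Th (w - Real.pi * Complex.I)‖ ≤ (8002 / 1000) * (‖1 / (2 * w / Real.pi) ^ (1 / 2 : ℂ)‖ *
      (Real.exp (- Real.log 3 / 2 + w.re / 8) * Real.exp (Mpi w))) := by
  rw [Th_pi hw]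
  have h1 := norm_Ts_le (s := -1) (by norm_num) hw him hs
  have h2 := norm_Ts_le (s := 1) (by norm_num) hw him hs
  have h3 : ‖Complex.exp (-(Real.log 3 : ℝ))‖ = Real.exp (-Real.log 3) := by
    rw [Complex.norm_exp, ← Complex.ofReal_neg, Complex.ofReal_re]
  have e1 : Real.exp (-1 * Real.log 3 / 2 + w.re / 8) = Real.exp (- Real.log 3 / 2 + w.re / 8) := by
    congr 1; ring
  have e2 : Real.exp (-Real.log 3) * Real.exp (1 * Real.log 3 / 2 + w.re / 8)
      = Real.exp (- Real.log 3 / 2 + w.re / 8) := by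
    rw [← Real.exp_add]; congr 1; ring
  rw [e1] at h1
  push_cast at h1 h2
  calc ‖Ts (-1) w + Complex.exp (-(Real.log 3 : ℝ)) * Ts 1 w‖
      ≤ ‖Ts (-1) w‖ + ‖Complex.exp (-(Real.log 3 : ℝ)) * Ts 1 w‖ := norm_add_le _ _
    _ = ‖Ts (-1) w‖ + Real.exp (-Real.log 3) * ‖Ts 1 w‖ := by rw [norm_mul, h3]
    _ ≤ (4001 / 1000) * (‖1 / (2 * w / Real.pi) ^ (1 / 2 : ℂ)‖ *
      (Real.exp (- Real.log 3 / 2 + w.re / 8) * Real.exp (Mpi w))) + Real.exp (-Real.log 3) *
      ((4001 / 1000) * (‖1 / (2 * w / Real.pi) ^ (1 / 2 : ℂ)‖ *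
      (Real.exp (1 * Real.log 3 / 2 + w.re / 8) * Real.exp (Mpi w)))) := by
        gcongr
    _ = _ := by
        rw [← e2]
        ring

end Pool.Agent.Helper3.OP
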