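import Mathlib
import Pool.Agent.Helper3.Theta4

set_option autoImplicit false

open Finset Filter Topology

namespace Pool.Agent.Helper3.OP

/-- The generating function `∏ (1+3q^j)/(1+q^j) = ∏ (1+3q^j) ∏ (1-q^(2j-1))`. -/
noncomputable def Fq (q : ℂ) : ℂ := Aq q * Oq q

lemma Fq_eq {w : ℂ} (hw : 0 < w.re) :
    Fq (Complex.exp (-w)) = (3 / 4) * Th w /
      (Bq (Complex.exp (-w)) * Eq (Complex.exp (-w) ^ 2)) := by
  have hq := norm_exp_neg_lt_one hw
  have h1 := triple hw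
  have h2 := Oq_mul_Eq hq
  have hq2 : ‖Complex.exp (-w) ^ 2‖ < 1 := by
    rw [norm_pow]
    exact pow_lt_one₀ (norm_nonneg _) hq (by norm_num)
  have hB := Bq_ne_zero hq
  have hE := Eq_ne_zero hq2
  rw [← h2] at h1
  unfold Fq
  rw [eq_div_iff (mul_ne_zero hB hE), ← h1]
  ring

lemma norm_sqrt (z : ℂ) : ‖Complex.sqrt z‖ = Real.sqrt ‖z‖ := by
  rw [Complex.sqrt]
  have e2 : (2⁻¹ : ℂ) = ((1 / 2 : ℝ) : ℂ) := by push_cast; norm_num
  rw [e2, Complex.norm_cpow_real, Real.sqrt_eq_rpow]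

/-- Lower bound for `E (exp (-2w))` near the cusp. -/
lemma norm_Eq_inv_le {w : ℂ} (hw : 0 < w.re) (him : |w.im| ≤ 10 * w.re) (hs : w.re ≤ 1 / 100) :
    ‖Eq (Complex.exp (-(2 * w)))‖⁻¹ ≤ (1001 / 1000) * (Real.sqrt (‖w‖ / Real.pi) *
      Real.exp (Real.pi ^ 2 * w.re / (12 * Complex.normSq w) - w.re / 12)) := by
  have hpi0 := Real.pi_pos
  have hw0 : w ≠ 0 := by rintro rfl; simp at hw
  have hns : 0 < Complex.normSq w := Complex.normSq_pos.mpr hw0
  have hwn : 0 < ‖w‖ := norm_pos_iff.mpr hw0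
  rw [Eq_transform hw]
  have h1 : ‖Complex.sqrt Complex.I‖ = 1 := by rw [norm_sqrt]; simp
  have h2 : ‖Complex.sqrt (Complex.I * w / Real.pi)‖ = Real.sqrt (‖w‖ / Real.pi) := by
    rw [norm_sqrt, norm_div, norm_mul, Complex.norm_I, one_mul, Complex.norm_real,
      Real.norm_of_nonneg hpi0.le]
  have h3 : ‖Complex.exp (w / 12 - Real.pi ^ 2 / (12 * w))‖
      = Real.exp (w.re / 12 - Real.pi ^ 2 * w.re / (12 * Complex.normSq w)) := by
    rw [Complex.norm_exp]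
    congr 1
    have e1 : w / 12 = w * ((1 / 12 : ℝ) : ℂ) := by push_cast; ring
    have e2 : (Real.pi : ℂ) ^ 2 / (12 * w) = ((Real.pi ^ 2 / 12 : ℝ) : ℂ) / w := by
      push_cast
      field_simp
    rw [e1, e2, Complex.sub_re, Complex.re_mul_ofReal, Complex.div_re, Complex.ofReal_re,
      Complex.ofReal_im]
    field_simp
    ring
  have h4 : ‖Complex.exp (-(2 * Real.pi ^ 2 / w))‖ ≤ 1 / 10000 := by
    rw [Complex.norm_exp]
    refine le_trans (Real.exp_le_exp.mpr ?_) exp_neg_ten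
    have e2 : -(2 * (Real.pi : ℂ) ^ 2 / w) = ((-(2 * Real.pi ^ 2) : ℝ) : ℂ) / w := by
      push_cast
      ring
    rw [e2, Complex.div_re, Complex.ofReal_re, Complex.ofReal_im, zero_mul, zero_div, add_zero,
      div_le_iff₀ hns, Complex.normSq_apply]
    have hpi := Real.pi_gt_d2
    have him2 : w.im * w.im ≤ 100 * (w.re * w.re) := by
      have : w.im * w.im = |w.im| * |w.im| := by rw [abs_mul_abs_self]
      rw [this]
      have h0 := abs_nonneg w.im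
      nlinarith
    have : w.re * w.re + w.im * w.im ≤ (101 / 100) * w.re := by nlinarith
    have hp2 : 9.8 ≤ Real.pi ^ 2 := by nlinarith
    have hp3 : 9.8 * w.re ≤ Real.pi ^ 2 * w.re := by gcongr
    linarith
  have h5 := Eq_near_one (x := Complex.exp (-(2 * Real.pi ^ 2 / w))) (by linarith)
  have h6 : 9998 / 10000 ≤ ‖Eq (Complex.exp (-(2 * Real.pi ^ 2 / w)))‖ := by
    have := norm_le_norm_add_norm_sub' (1 : ℂ) (Eq (Complex.exp (-(2 * Real.pi ^ 2 / w))))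
    rw [norm_one, norm_sub_rev] at this
    linarith
  rw [norm_mul, norm_mul, norm_mul, norm_inv, h1, h2, h3, one_mul, mul_inv, mul_inv, inv_inv,
    ← Real.exp_neg]
  have h7 : ‖Eq (Complex.exp (-(2 * Real.pi ^ 2 / w)))‖⁻¹ ≤ 1001 / 1000 := by
    rw [inv_le_comm₀ (by linarith) (by norm_num)]
    refine le_trans ?_ h6
    norm_num
  have e8 : -(w.re / 12 - Real.pi ^ 2 * w.re / (12 * Complex.normSq w))
      = Real.pi ^ 2 * w.re / (12 * Complex.normSq w) - w.re / 12 := by ring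
  rw [e8]
  calc Real.sqrt (‖w‖ / Real.pi) * Real.exp (Real.pi ^ 2 * w.re / (12 * Complex.normSq w)
        - w.re / 12) * ‖Eq (Complex.exp (-(2 * Real.pi ^ 2 / w)))‖⁻¹
      ≤ Real.sqrt (‖w‖ / Real.pi) * Real.exp (Real.pi ^ 2 * w.re / (12 * Complex.normSq w)
        - w.re / 12) * (1001 / 1000) := by gcongr
    _ = _ := by ring

lemma norm_exp_neg {w : ℂ} : ‖Complex.exp (-w)‖ = Real.exp (-w.re) := by
  rw [Complex.norm_exp, Complex.neg_re]

/-- The basic inequality for `F`. -/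
lemma norm_Fq_le {w : ℂ} (hw : 0 < w.re) :
    ‖Fq (Complex.exp (-w))‖ ≤ (3 / 4) * ‖Th w‖ * (Real.exp (1 / 6 + 1 / (24 * w.re)) *
      ‖Eq (Complex.exp (-w) ^ 2)‖⁻¹) := by
  rw [Fq_eq hw, norm_div, norm_mul, norm_mul, div_eq_mul_inv, mul_inv]
  have h1 := Bq_lower hw (norm_exp_neg (w := w))
  have h2 : ‖Bq (Complex.exp (-w))‖⁻¹ ≤ Real.exp (1 / 6 + 1 / (24 * w.re)) := by
    have h3 : Real.exp (1 / 6 + 1 / (24 * w.re)) = (Real.exp (-(1 / 6) - 1 / (24 * w.re)))⁻¹ := by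
      rw [← Real.exp_neg]; congr 1; ring
    rw [h3]
    exact inv_anti₀ (Real.exp_pos _) h1
  have h3 : ‖(3 / 4 : ℂ)‖ = 3 / 4 := by norm_num
  rw [h3]
  gcongr

end Pool.Agent.Helper3.OP
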