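import Mathlib
import Pool.Agent.Helper3.Regions

set_option autoImplicit false

open Finset Filter Topology

namespace Pool.Agent.Helper3.OP

open Polynomial in
/-- Partial products of the generating function. -/
noncomputable def FP (N : ℕ) : Polynomial ℤ :=
  (∏ j ∈ range N, (1 + 3 * X ^ (j + 1))) * ∏ j ∈ range N, (1 - X ^ (2 * j + 1))

/-- The coefficients of the generating function. -/
noncomputable def cc (n : ℕ) : ℤ := (FP n).coeff n

open Polynomial in
lemma coeff_FP_succ {N n : ℕ} (h : n ≤ N) : (FP (N + 1)).coeff n = (FP N).coeff n := by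
  have e : FP (N + 1) = FP N + X ^ (N + 1) * (FP N * (3 - X ^ N - 3 * X ^ (2 * N + 1))) := by
    rw [FP, FP, prod_range_succ, prod_range_succ]
    ring
  rw [e, coeff_add, coeff_X_pow_mul', if_neg (by omega), add_zero]

lemma coeff_FP {N n : ℕ} (h : n ≤ N) : (FP N).coeff n = cc n := by
  induction N, h using Nat.le_induction with
  | base => rfl
  | succ N hN ih => rw [coeff_FP_succ hN, ih]

/-- The value of the partial product at a complex number. -/
noncomputable def FPe (N : ℕ) (q : ℂ) : ℂ :=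
  (∏ j ∈ range N, (1 + 3 * q ^ (j + 1))) * ∏ j ∈ range N, (1 - q ^ (2 * j + 1))

lemma FPe_eq (N : ℕ) (q : ℂ) : FPe N q = Polynomial.aeval q (FP N) := by
  rw [FPe, FP, map_mul, map_prod, map_prod]
  have h3 : Polynomial.aeval q (3 : Polynomial ℤ) = (3 : ℂ) := by
    have := map_ofNat (Polynomial.aeval (R := ℤ) q) 3
    exact this
  congr 1
  · refine prod_congr rfl fun j _ => ?_
    rw [map_add, map_mul, map_one, h3, map_pow, Polynomial.aeval_X]
  · refine prod_congr rfl fun j _ => ?_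
    simp

lemma tendsto_FPe {q : ℂ} (hq : ‖q‖ < 1) : Tendsto (fun N => FPe N q) atTop (𝓝 (Fq q)) :=
  (multipliable_A hq).hasProd.tendsto_prod_nat.mul (multipliable_O hq).hasProd.tendsto_prod_nat

lemma sum_pow_succ_le {r : ℝ} (h0 : 0 ≤ r) (h1 : r < 1) (N : ℕ) :
    ∑ j ∈ range N, r ^ (j + 1) ≤ 1 / (1 - r) := by
  have h := (summable_geometric_of_lt_one h0 h1).sum_le_tsum (range N) (fun _ _ => by positivity)
  rw [tsum_geometric_of_lt_one h0 h1] at h
  rw [one_div]
  refine le_trans (sum_le_sum fun j _ => ?_) h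
  rw [pow_succ]
  exact mul_le_of_le_one_right (by positivity) h1.le

lemma norm_prod_le_exp (N : ℕ) (f : ℕ → ℂ) :
    ‖∏ j ∈ range N, (1 + f j)‖ ≤ Real.exp (∑ j ∈ range N, ‖f j‖) := by
  have h := Finset.norm_prod_one_add_sub_one_le (range N) f
  have h2 := norm_sub_norm_le (∏ j ∈ range N, (1 + f j)) 1
  rw [norm_one] at h2
  linarith

lemma norm_FPe_le {q : ℂ} (hq : ‖q‖ < 1) (N : ℕ) :
    ‖FPe N q‖ ≤ Real.exp (4 / (1 - ‖q‖)) := by
  have h0 := norm_nonneg q
  have hs := sum_pow_succ_le h0 hq N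
  have h1 : ‖∏ j ∈ range N, (1 + 3 * q ^ (j + 1))‖ ≤ Real.exp (3 / (1 - ‖q‖)) := by
    refine (norm_prod_le_exp N _).trans (Real.exp_le_exp.mpr ?_)
    calc ∑ j ∈ range N, ‖3 * q ^ (j + 1)‖ = 3 * ∑ j ∈ range N, ‖q‖ ^ (j + 1) := by
          rw [mul_sum]
          refine sum_congr rfl fun j _ => ?_
          rw [norm_mul, norm_pow]; norm_num
      _ ≤ 3 * (1 / (1 - ‖q‖)) := by gcongr
      _ = _ := by ring
  have h2 : ‖∏ j ∈ range N, (1 - q ^ (2 * j + 1))‖ ≤ Real.exp (1 / (1 - ‖q‖)) := by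
    have h := norm_prod_le_exp N (fun j => - q ^ (2 * j + 1))
    simp only [← sub_eq_add_neg] at h
    refine h.trans (Real.exp_le_exp.mpr (le_trans (sum_le_sum fun j _ => ?_) hs))
    rw [norm_neg, norm_pow]
    exact pow_le_pow_of_le_one h0 hq.le (by omega)
  rw [FPe, norm_mul]
  calc _ ≤ Real.exp (3 / (1 - ‖q‖)) * Real.exp (1 / (1 - ‖q‖)) := by gcongr
    _ = _ := by rw [← Real.exp_add]; congr 1; ring

lemma integral_monomial (m n : ℕ) :
    ∫ θ in (-(Real.pi / 2))..(3 * Real.pi / 2),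
      Complex.exp ((((m : ℤ) - (n : ℤ) : ℤ) : ℂ) * Complex.I * (θ : ℝ))
      = if m = n then 2 * (Real.pi : ℂ) else 0 := by
  split_ifs with h
  · subst h
    simp only [sub_self, Int.cast_zero, zero_mul, Complex.exp_zero]
    rw [intervalIntegral.integral_const]
    rw [Complex.real_smul]
    push_cast
    ring
  · have hk : ((m : ℤ) - (n : ℤ) : ℤ) ≠ 0 := by omega
    set k : ℤ := (m : ℤ) - (n : ℤ) with hkdef
    have hc : (k : ℂ) * Complex.I ≠ 0 := mul_ne_zero (by exact_mod_cast hk) Complex.I_ne_zero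
    rw [integral_exp_mul_complex hc]
    have e : (k : ℂ) * Complex.I * ((3 * Real.pi / 2 : ℝ) : ℂ)
        = (k : ℂ) * Complex.I * ((-(Real.pi / 2) : ℝ) : ℂ) + k * (2 * Real.pi * Complex.I) := by
      push_cast; ring
    rw [e, Complex.exp_add, Complex.exp_int_mul_two_pi_mul_I, mul_one, sub_self, zero_div]

lemma integral_FPe (t : ℝ) (N n : ℕ) :
    ∫ θ in (-(Real.pi / 2))..(3 * Real.pi / 2),
      FPe N (Complex.exp (-((t : ℂ) - (θ : ℝ) * Complex.I))) *
        Complex.exp (n * ((t : ℂ) - (θ : ℝ) * Complex.I))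
      = 2 * Real.pi * ((FP N).coeff n : ℤ) := by
  have e : ∀ θ : ℝ, FPe N (Complex.exp (-((t : ℂ) - (θ : ℝ) * Complex.I))) *
        Complex.exp (n * ((t : ℂ) - (θ : ℝ) * Complex.I))
      = ∑ m ∈ range ((FP N).natDegree + 1), (((FP N).coeff m : ℤ) : ℂ) *
        Complex.exp (((n : ℂ) - m) * t) *
        Complex.exp ((((m : ℤ) - (n : ℤ) : ℤ) : ℂ) * Complex.I * (θ : ℝ)) := by
    intro θ
    rw [FPe_eq, Polynomial.aeval_eq_sum_range, sum_mul]
    refine sum_congr rfl fun m _ => ?_
    rw [← Complex.exp_nat_mul, zsmul_eq_mul, mul_assoc, mul_assoc, ← Complex.exp_add,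
      ← Complex.exp_add]
    congr 2
    push_cast
    ring
  simp_rw [e]
  rw [intervalIntegral.integral_finsetSum]
  · simp_rw [intervalIntegral.integral_const_mul, integral_monomial]
    simp only [mul_ite, mul_zero]
    rw [sum_ite_eq' (range ((FP N).natDegree + 1)) n]
    split_ifs with h
    · rw [sub_self, zero_mul, Complex.exp_zero]
      ring
    · rw [Polynomial.coeff_eq_zero_of_natDegree_lt (by simpa using h)]
      simp
  · intro m _
    apply Continuous.intervalIntegrable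
    fun_prop

theorem coeff_integral {t : ℝ} (ht : 0 < t) (n : ℕ) :
    ∫ θ in (-(Real.pi / 2))..(3 * Real.pi / 2),
      Fq (Complex.exp (-((t : ℂ) - (θ : ℝ) * Complex.I))) *
        Complex.exp (n * ((t : ℂ) - (θ : ℝ) * Complex.I))
      = 2 * Real.pi * (cc n : ℤ) := by
  have hre : ∀ θ : ℝ, ((t : ℂ) - (θ : ℝ) * Complex.I).re = t := fun θ => by simp
  have hqn : ∀ θ : ℝ, ‖Complex.exp (-((t : ℂ) - (θ : ℝ) * Complex.I))‖ = Real.exp (-t) := by
    intro θ
    rw [norm_exp_neg, hre]
  have hq1 : Real.exp (-t) < 1 := by rw [Real.exp_lt_one_iff]; linarith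
  have hlim := intervalIntegral.tendsto_integral_filter_of_dominated_convergence
    (μ := MeasureTheory.volume) (a := -(Real.pi / 2)) (b := 3 * Real.pi / 2) (l := atTop)
    (F := fun N θ => FPe N (Complex.exp (-((t : ℂ) - (θ : ℝ) * Complex.I))) *
        Complex.exp (n * ((t : ℂ) - (θ : ℝ) * Complex.I)))
    (f := fun θ => Fq (Complex.exp (-((t : ℂ) - (θ : ℝ) * Complex.I))) *
        Complex.exp (n * ((t : ℂ) - (θ : ℝ) * Complex.I)))
    (fun _ => Real.exp (4 / (1 - Real.exp (-t))) * Real.exp (n * t)) ?_ ?_ ?_ ?_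
  · have hc : Tendsto (fun N : ℕ => ∫ θ in (-(Real.pi / 2))..(3 * Real.pi / 2),
      FPe N (Complex.exp (-((t : ℂ) - (θ : ℝ) * Complex.I))) *
        Complex.exp (n * ((t : ℂ) - (θ : ℝ) * Complex.I))) atTop
        (𝓝 (2 * Real.pi * (cc n : ℤ))) := by
      refine tendsto_const_nhds.congr' ?_
      filter_upwards [eventually_ge_atTop n] with N hN
      rw [integral_FPe, coeff_FP hN]
    exact tendsto_nhds_unique hlim hc
  · refine Eventually.of_forall fun N => ?_
    apply Continuous.aestronglyMeasurable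
    unfold FPe
    fun_prop
  · refine Eventually.of_forall fun N => ?_
    refine Eventually.of_forall fun θ _ => ?_
    rw [norm_mul]
    have h1 := norm_FPe_le (q := Complex.exp (-((t : ℂ) - (θ : ℝ) * Complex.I)))
      (by rw [hqn]; exact hq1) N
    rw [hqn] at h1
    have h2 : ‖Complex.exp (n * ((t : ℂ) - (θ : ℝ) * Complex.I))‖ = Real.exp (n * t) := by
      rw [Complex.norm_exp]
      congr 1
      simp
    rw [h2]
    gcongr
  · exact intervalIntegrable_const
  · refine Eventually.of_forall fun θ _ => ?_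
    apply Tendsto.mul_const
    exact tendsto_FPe (by rw [hqn]; exact hq1)

end Pool.Agent.Helper3.OP
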