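import Mathlib

set_option autoImplicit false

open Finset

namespace Pool.Agent.Helper3.OP

/-- The number of parts larger than `j`. -/
def ctop (s : Multiset ℕ) (j : ℕ) : ℕ := s.countP (fun x => j < x)

lemma ctop_anti (s : Multiset ℕ) : Antitone (ctop s) := by
  intro a b hab
  unfold ctop
  rw [Multiset.countP_eq_card_filter, Multiset.countP_eq_card_filter]
  apply Multiset.card_le_card
  apply Multiset.monotone_filter_right
  intro x hx
  omega

/-- The parts of the conjugate. -/
def conjParts (s : Multiset ℕ) : Multiset ℕ := (Multiset.range s.sup).map (ctop s)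

lemma sum_ctop (s : Multiset ℕ) : ∀ M : ℕ, (∀ i ∈ s, i ≤ M) →
    ((Multiset.range M).map (ctop s)).sum = s.sum := by
  induction s using Multiset.induction_on with
  | empty =>
    intro M _
    have : ctop (0 : Multiset ℕ) = fun _ => 0 := by
      ext j
      simp [ctop]
    rw [this]
    simp
  | cons a s ih =>
    intro M hM
    have h1 := ih M (fun i hi => hM i (Multiset.mem_cons_of_mem hi))
    have h2 : a ≤ M := hM a (Multiset.mem_cons_self a s)
    have e : ∀ j, ctop (a ::ₘ s) j = ctop s j + if j < a then 1 else 0 := by
      intro j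
      unfold ctop
      rw [Multiset.countP_cons]
    have h3 : ((Multiset.range M).map (fun j => if j < a then 1 else 0)).sum = a := by
      have : ((Multiset.range M).map (fun j => if j < a then 1 else 0)).sum
          = ∑ j ∈ range M, if j < a then 1 else 0 := rfl
      rw [this, ← sum_filter, sum_const, smul_eq_mul, mul_one]
      have : (range M).filter (fun j => j < a) = range a := by
        ext j
        simp only [mem_filter, mem_range]
        omega
      rw [this, card_range]
    have h4 : ctop (a ::ₘ s) = fun j => ctop s j + if j < a then 1 else 0 := funext e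
    rw [h4, Multiset.sum_map_add, h1, h3, Multiset.sum_cons, add_comm]

lemma exists_of_lt_sup {s : Multiset ℕ} {j : ℕ} (h : j < s.sup) : ∃ i ∈ s, j < i := by
  by_contra hcon
  push Not at hcon
  have := Multiset.sup_le.mpr hcon
  omega

lemma ctop_pos {s : Multiset ℕ} {j : ℕ} (h : j < s.sup) : 0 < ctop s j := by
  obtain ⟨i, hi, hji⟩ := exists_of_lt_sup h
  unfold ctop
  rw [Multiset.countP_pos]
  exact ⟨i, hi, hji⟩

lemma ctop_zero_of_le {s : Multiset ℕ} {j : ℕ} (h : s.sup ≤ j) : ctop s j = 0 := by
  unfold ctop
  rw [Multiset.countP_eq_zero]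
  intro i hi
  have := Multiset.le_sup hi
  omega

lemma card_conjParts (s : Multiset ℕ) : (conjParts s).card = s.sup := by
  simp [conjParts]

lemma ctop_pred {s : Multiset ℕ} {j : ℕ} : ctop s j = s.count (j + 1) + ctop s (j + 1) := by
  induction s using Multiset.induction_on with
  | empty => simp [ctop]
  | cons a s ih =>
    have e : ∀ j, ctop (a ::ₘ s) j = ctop s j + if j < a then 1 else 0 := by
      intro j
      unfold ctop
      rw [Multiset.countP_cons]
    rw [e, e, ih, Multiset.count_cons]
    split_ifs <;> omega

lemma conjParts_inj {s t : Multiset ℕ} (hs : 0 ∉ s) (ht : 0 ∉ t) (h : conjParts s = conjParts t) :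
    s = t := by
  have hsup : s.sup = t.sup := by rw [← card_conjParts, ← card_conjParts, h]
  have hl : (List.range s.sup).map (ctop s) = (List.range s.sup).map (ctop t) := by
    have hp : ((List.range s.sup).map (ctop s)).Perm ((List.range s.sup).map (ctop t)) := by
      rw [← Multiset.coe_eq_coe]
      have h1 : ((List.range s.sup).map (ctop s) : Multiset ℕ) = conjParts s := rfl
      have h2 : ((List.range s.sup).map (ctop t) : Multiset ℕ) = conjParts t := by
        rw [hsup]; rfl
      rw [h1, h2, h]
    have g : ∀ u : Multiset ℕ, ((List.range s.sup).map (ctop u)).Pairwise (· ≥ ·) := by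
      intro u
      exact List.pairwise_le_range.map _ fun a b hab => ctop_anti u hab
    exact hp.eq_of_pairwise (fun a b _ _ h1 h2 => le_antisymm h2 h1) (g s) (g t)
  have hc : ∀ j, ctop s j = ctop t j := by
    intro j
    by_cases hj : j < s.sup
    · exact List.map_inj_left.mp hl j (List.mem_range.mpr hj)
    · rw [ctop_zero_of_le (by omega), ctop_zero_of_le (by omega)]
  ext j
  rcases j with _ | j
  · rw [Multiset.count_eq_zero_of_notMem hs, Multiset.count_eq_zero_of_notMem ht]
  · have h1 := ctop_pred (s := s) (j := j)
    have h2 := ctop_pred (s := t) (j := j)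
    rw [hc, hc] at h1
    omega

lemma card_distinct_conj {s : Multiset ℕ} (hs : 0 ∉ s) :
    (conjParts s).toFinset.card = s.toFinset.card := by
  have himg : (conjParts s).toFinset = s.toFinset.image (fun i => ctop s (i - 1)) := by
    ext y
    simp only [conjParts, Multiset.mem_toFinset, Multiset.mem_map, Multiset.mem_range, mem_image]
    constructor
    · rintro ⟨j, hj, rfl⟩
      have hex : ∃ i, i ∈ s ∧ j < i := by
        obtain ⟨i, hi, hji⟩ := exists_of_lt_sup hj
        exact ⟨i, hi, hji⟩
      classical
      refine ⟨Nat.find hex, (Nat.find_spec hex).1, ?_⟩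
      have hmin := fun k (hk : k < Nat.find hex) => Nat.find_min hex hk
      have hlt := (Nat.find_spec hex).2
      set i := Nat.find hex with hi
      unfold ctop
      apply Multiset.countP_congr rfl
      intro x hx
      rw [eq_iff_iff]
      constructor
      · intro h; omega
      · intro h
        by_contra hcon
        exact hmin x (by omega) ⟨hx, h⟩
    · rintro ⟨i, hi, rfl⟩
      have h1 : i ≠ 0 := fun h => hs (h ▸ hi)
      have h2 := Multiset.le_sup hi
      exact ⟨i - 1, by omega, rfl⟩
  rw [himg, card_image_of_injOn]
  have key : ∀ a ∈ s, ∀ b ∈ s, a < b → ctop s (b - 1) < ctop s (a - 1) := by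
    intro a ha b hb hab
    have ha0 : a ≠ 0 := fun h => hs (h ▸ ha)
    obtain ⟨a', rfl⟩ := Nat.exists_eq_succ_of_ne_zero ha0
    have h1 := ctop_pred (s := s) (j := a')
    have h2 : ctop s (b - 1) ≤ ctop s (a' + 1) := ctop_anti s (by omega)
    have h3 : 0 < s.count (a' + 1) := Multiset.count_pos.mpr ha
    simp only [Nat.succ_eq_add_one, Nat.add_sub_cancel]
    omega
  intro a ha b hb hab
  simp only [mem_coe, Multiset.mem_toFinset] at ha hb hab
  rcases lt_trichotomy a b with h | h | h
  · have := key a ha b hb h; omega
  · exact h
  · have := key b hb a ha h; omega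

/-- The conjugate partition. -/
def conj {n : ℕ} (p : Nat.Partition n) : Nat.Partition n where
  parts := conjParts p.parts
  parts_pos := by
    intro i hi
    simp only [conjParts, Multiset.mem_map, Multiset.mem_range] at hi
    obtain ⟨j, hj, rfl⟩ := hi
    exact ctop_pos hj
  parts_sum := by
    have := sum_ctop p.parts p.parts.sup (fun i hi => Multiset.le_sup hi)
    rw [conjParts, this, p.parts_sum]

lemma zero_notMem {n : ℕ} (p : Nat.Partition n) : 0 ∉ p.parts := fun h => by
  have := p.parts_pos h
  omega

lemma conj_bijective (n : ℕ) : Function.Bijective (conj (n := n)) := by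
  apply Finite.injective_iff_bijective.mp
  intro p r h
  have h1 : conjParts p.parts = conjParts r.parts := congrArg Nat.Partition.parts h
  exact Nat.Partition.ext (conjParts_inj (zero_notMem p) (zero_notMem r) h1)

/-- The conjugation symmetry of the weight. -/
lemma sum_conj (n : ℕ) :
    ∑ p : Nat.Partition n, ((-1 : ℤ) ^ p.parts.sup * (-2) ^ p.parts.toFinset.card)
      = ∑ p : Nat.Partition n, ((-1 : ℤ) ^ p.parts.card * (-2) ^ p.parts.toFinset.card) := by
  rw [← (Equiv.ofBijective _ (conj_bijective n)).sum_comp
    (fun p : Nat.Partition n => ((-1 : ℤ) ^ p.parts.card * (-2) ^ p.parts.toFinset.card))]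
  refine sum_congr rfl fun p _ => ?_
  have h1 : ((Equiv.ofBijective _ (conj_bijective n)) p).parts = conjParts p.parts := rfl
  rw [h1, card_conjParts, card_distinct_conj (zero_notMem p)]

end Pool.Agent.Helper3.OP
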