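import Mathlib
import Pool.Agent.Helper3.Regions

set_option autoImplicit false

open Finset Filter Topology

namespace Pool.Agent.Helper3.OP

/-- The constant in the exponent. -/
noncomputable def kap : ℝ := Real.log 3 ^ 2 / 2 + Real.pi ^ 2 / 12 + Li

lemma sqrt_ratio {w : ℂ} (hw : 0 < w.re) :
    Complex.sqrt (Complex.I * w / Real.pi) =
      (Real.sqrt 2 : ℝ) * (Complex.sqrt Complex.I * (w / (2 * Real.pi)) ^ (1 / 2 : ℂ)) := by
  have hpi0 := Real.pi_pos
  have hpi : (Real.pi : ℂ) ≠ 0 := by exact_mod_cast Real.pi_ne_zero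
  have hw0 : w ≠ 0 := by rintro rfl; simp at hw
  set v : ℂ := w / (2 * Real.pi) with hv
  have hv0 : v ≠ 0 := div_ne_zero hw0 (by simp [hpi])
  have hvre : 0 < v.re := by
    have : v = ((1 / (2 * Real.pi) : ℝ) : ℂ) * w := by rw [hv]; push_cast; field_simp
    rw [this, Complex.re_ofReal_mul]
    positivity
  have harg : |Complex.arg v| < Real.pi / 2 := Complex.abs_arg_lt_pi_div_two_iff.mpr (Or.inl hvre)
  have e1 : Complex.I * w / Real.pi = ((2 : ℝ) : ℂ) * (Complex.I * v) := by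
    rw [hv]; push_cast; field_simp
  have hI : Complex.I ≠ 0 := Complex.I_ne_zero
  have h2 : Complex.log (Complex.I * v) = Complex.log Complex.I + Complex.log v := by
    apply Complex.log_mul hI hv0
    rw [Complex.arg_I]
    rw [abs_lt] at harg
    constructor <;> linarith [harg.1, harg.2]
  have h3 : Complex.log (((2 : ℝ) : ℂ) * (Complex.I * v))
      = (Real.log 2 : ℝ) + (Complex.log Complex.I + Complex.log v) := by
    rw [Complex.log_ofReal_mul (by norm_num) (mul_ne_zero hI hv0), h2]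
  have h4 : ((Real.sqrt 2 : ℝ) : ℂ) = Complex.exp ((Real.log 2 : ℝ) / 2) := by
    have : Real.sqrt 2 = Real.exp (Real.log 2 / 2) := by
      rw [Real.sqrt_eq_rpow, Real.rpow_def_of_pos (by norm_num)]
      congr 1; ring
    rw [this]; push_cast; rfl
  rw [e1, Complex.sqrt, Complex.sqrt, h4, Complex.cpow_def_of_ne_zero (by
      simp [hI, hv0]), Complex.cpow_def_of_ne_zero hI, Complex.cpow_def_of_ne_zero hv0, h3,
      ← Complex.exp_add, ← Complex.exp_add]
  congr 1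
  ring

lemma const_eq : (3 / 4 : ℂ) * ((Real.sqrt 2 : ℝ) : ℂ) *
    Complex.exp (-(Real.log 3 : ℝ) / 2 + (Real.log (4 / 3) : ℝ) / 2)
      = ((Real.sqrt 2 : ℝ) : ℂ) / 2 := by
  have h : Complex.exp (-(Real.log 3 : ℝ) / 2 + (Real.log (4 / 3) : ℝ) / 2) = 2 / 3 := by
    have e : (-((Real.log 3 : ℝ) : ℂ) / 2 + (Real.log (4 / 3) : ℝ) / 2)
        = ((Real.log (2 / 3) : ℝ) : ℂ) := by
      have h1 : Real.log (4 / 3) = 2 * Real.log 2 - Real.log 3 := by
        rw [Real.log_div (by norm_num) (by norm_num), show (4 : ℝ) = 2 ^ 2 by norm_num,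
          Real.log_pow]
        norm_num
      rw [h1, Real.log_div (by norm_num) (by norm_num)]
      push_cast
      ring
    rw [e, ← Complex.ofReal_exp, Real.exp_log (by norm_num)]
    norm_num
  rw [h]
  ring

theorem main_arc {w : ℂ} (hre : 0 < w.re) (him : |w.im| ≤ (6 / 5) * w.re) (hs : w.re ≤ 1 / 100) :
    ∃ ε : ℂ, ‖ε‖ ≤ 3 / 100 ∧ Fq (Complex.exp (-w)) =
      ((Real.sqrt 2 / 2 : ℝ) : ℂ) * Complex.exp ((kap : ℂ) / w) * (1 + ε) := by
  have hpi0 := Real.pi_pos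
  have hpi : (Real.pi : ℂ) ≠ 0 := by exact_mod_cast Real.pi_ne_zero
  have hw0 : w ≠ 0 := by rintro rfl; simp at hre
  have hns : 0 < Complex.normSq w := Complex.normSq_pos.mpr hw0
  obtain ⟨R, hR, hB⟩ := Bq_exact hre him
  have hT := Th_eq hre
  have hE := Eq_transform hre
  have hF := Fq_eq hre
  have hS := Sd_near_one hre him (by linarith)
  -- norm of w
  have hwn : ‖w‖ ≤ 1.5624 * w.re := by
    have h1 : ‖w‖ ^ 2 = w.re ^ 2 + w.im ^ 2 := by
      rw [← Complex.normSq_eq_norm_sq, Complex.normSq_apply]; ring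
    have h2 : w.im ^ 2 ≤ (6 / 5 * w.re) ^ 2 := by
      rw [← sq_abs w.im]
      exact pow_le_pow_left₀ (abs_nonneg _) him 2
    apply le_of_sq_le_sq _ (by positivity)
    rw [h1]
    nlinarith [sq_nonneg w.re]
  -- the tiny term
  set x : ℂ := Complex.exp (-(2 * Real.pi ^ 2 / w)) with hx
  have hxn : ‖x‖ ≤ 1 / 10000 := by
    rw [hx, Complex.norm_exp]
    refine le_trans (Real.exp_le_exp.mpr ?_) exp_neg_ten
    have e : (-(2 * (Real.pi : ℂ) ^ 2 / w)).re = -(2 * Real.pi ^ 2 * (w.re / Complex.normSq w)) := by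
      have : (2 * (Real.pi : ℂ) ^ 2 / w) = ((2 * Real.pi ^ 2 : ℝ) : ℂ) * w⁻¹ := by
        push_cast; rw [div_eq_mul_inv]
      rw [Complex.neg_re, this, Complex.re_ofReal_mul, Complex.inv_re]
    rw [e]
    have h3 : Complex.normSq w ≤ 2.4411 * w.re ^ 2 := by
      rw [Complex.normSq_eq_norm_sq]
      calc ‖w‖ ^ 2 ≤ (1.5624 * w.re) ^ 2 := pow_le_pow_left₀ (norm_nonneg _) hwn 2
        _ ≤ _ := by nlinarith [sq_nonneg w.re]
    have h4 : 40 ≤ w.re / Complex.normSq w := by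
      rw [le_div_iff₀ hns]
      nlinarith
    have h5 : 9 < Real.pi ^ 2 := by nlinarith [Real.pi_gt_three]
    nlinarith
  have hEx := Eq_near_one (x := x) (by linarith)
  have hEx1 : ‖Eq x - 1‖ ≤ 11 / 100000 := by linarith
  have hxlt : ‖x‖ < 1 := by linarith
  have hEx0 : Eq x ≠ 0 := Eq_ne_zero hxlt
  have hv0 : w / (2 * (Real.pi : ℂ)) ≠ 0 := div_ne_zero hw0 (by simp [hpi])
  have hcp0 : (w / (2 * (Real.pi : ℂ))) ^ (1 / 2 : ℂ) ≠ 0 := by
    rw [Complex.cpow_def_of_ne_zero hv0]; exact Complex.exp_ne_zero _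
  have hsI0 : Complex.sqrt Complex.I ≠ 0 := by
    rw [Complex.sqrt, Complex.cpow_def_of_ne_zero Complex.I_ne_zero]; exact Complex.exp_ne_zero _
  have hs20 : ((Real.sqrt 2 : ℝ) : ℂ) ≠ 0 := by
    have : Real.sqrt 2 ≠ 0 := by positivity
    exact_mod_cast this
  set a : ℂ := Complex.exp (w / 24 - R) with ha
  refine ⟨a * Sd w * (Eq x)⁻¹ - 1, ?_, ?_⟩
  · -- the error bound
    have b1 : ‖w / 24 - R‖ ≤ 0.0242 := by
      calc ‖w / 24 - R‖ ≤ ‖w / 24‖ + ‖R‖ := norm_sub_le _ _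
        _ ≤ ‖w‖ / 24 + 3 / 2 * ‖w‖ := by
            gcongr
            rw [norm_div]; norm_num
        _ ≤ 0.0242 := by nlinarith
    have b2 : ‖a - 1‖ ≤ 0.0248 := by
      have h := Complex.norm_exp_sub_one_sub_id_le (x := w / 24 - R) (by linarith)
      calc ‖a - 1‖ = ‖(Complex.exp (w / 24 - R) - 1 - (w / 24 - R)) + (w / 24 - R)‖ := by
            rw [ha]; congr 1; ring
        _ ≤ ‖w / 24 - R‖ ^ 2 + ‖w / 24 - R‖ := (norm_add_le _ _).trans (by gcongr)
        _ ≤ 0.0242 ^ 2 + 0.0242 := by gcongr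
        _ ≤ _ := by norm_num
    have b3 : ‖(Eq x)⁻¹ - 1‖ ≤ 0.0002 := by
      have h1 : (Eq x)⁻¹ - 1 = -(Eq x - 1) * (Eq x)⁻¹ := by field_simp; ring
      have h2 : 1 - 11 / 100000 ≤ ‖Eq x‖ := by
        have := norm_sub_norm_le (1 : ℂ) (1 - Eq x)
        rw [norm_one, norm_sub_rev, sub_sub_cancel] at this
        linarith
      rw [h1, norm_mul, norm_neg, norm_inv]
      have h3 : ‖Eq x‖⁻¹ ≤ (1 - 11 / 100000)⁻¹ := inv_anti₀ (by norm_num) h2
      calc ‖Eq x - 1‖ * ‖Eq x‖⁻¹ ≤ 11 / 100000 * (1 - 11 / 100000)⁻¹ := by gcongr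
        _ ≤ _ := by norm_num
    have e : a * Sd w * (Eq x)⁻¹ - 1 = (a - 1) * (Sd w - 1) * ((Eq x)⁻¹ - 1)
        + (a - 1) * (Sd w - 1) + (a - 1) * ((Eq x)⁻¹ - 1) + (Sd w - 1) * ((Eq x)⁻¹ - 1)
        + (a - 1) + (Sd w - 1) + ((Eq x)⁻¹ - 1) := by ring
    rw [e]
    have n1 : ‖(a - 1) * (Sd w - 1) * ((Eq x)⁻¹ - 1)‖ ≤ 0.0248 * (1 / 1000) * 0.0002 := by
      rw [norm_mul, norm_mul]; gcongr
    have n2 : ‖(a - 1) * (Sd w - 1)‖ ≤ 0.0248 * (1 / 1000) := by rw [norm_mul]; gcongr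
    have n3 : ‖(a - 1) * ((Eq x)⁻¹ - 1)‖ ≤ 0.0248 * 0.0002 := by rw [norm_mul]; gcongr
    have n4 : ‖(Sd w - 1) * ((Eq x)⁻¹ - 1)‖ ≤ (1 / 1000) * 0.0002 := by rw [norm_mul]; gcongr
    refine (norm_add_le _ _).trans ?_
    refine (add_le_add_left (norm_add_le _ _) _).trans ?_
    refine (add_le_add_left (add_le_add_left (norm_add_le _ _) _) _).trans ?_
    refine (add_le_add_left (add_le_add_left (add_le_add_left (norm_add_le _ _) _) _) _).trans ?_
    refine (add_le_add_left (add_le_add_left (add_le_add_left (add_le_add_left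
      (norm_add_le _ _) _) _) _) _).trans ?_
    refine (add_le_add_left (add_le_add_left (add_le_add_left (add_le_add_left (add_le_add_left
      (norm_add_le _ _) _) _) _) _) _).trans ?_
    linarith
  · have hexp2 : Complex.exp (-w) ^ 2 = Complex.exp (-(2 * w)) := by
      rw [← Complex.exp_nat_mul]; congr 1; push_cast; ring
    rw [hF, hT, hB, hexp2, hE, sqrt_ratio hre]
    have key : Complex.exp (((Real.log 3 : ℝ) - w / 2) ^ 2 / (2 * w))
        = Complex.exp ((kap : ℂ) / w) * Complex.exp (w / 24 - R) *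
          Complex.exp (-(Real.log 3 : ℝ) / 2 + (Real.log (4 / 3) : ℝ) / 2) *
          Complex.exp (-(Li : ℂ) / w - (Real.log (4 / 3) : ℝ) / 2 + R) *
          Complex.exp (w / 12 - Real.pi ^ 2 / (12 * w)) := by
      rw [← Complex.exp_add, ← Complex.exp_add, ← Complex.exp_add, ← Complex.exp_add]
      congr 1
      rw [kap]
      push_cast
      field_simp
      ring
    rw [key]
    have hc := const_eq
    have h1 := Complex.exp_ne_zero (-(Li : ℂ) / w - (Real.log (4 / 3) : ℝ) / 2 + R)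
    have h2 := Complex.exp_ne_zero (w / 12 - Real.pi ^ 2 / (12 * w))
    rw [← ha]
    generalize Complex.exp (-(Li : ℂ) / w - (Real.log (4 / 3) : ℝ) / 2 + R) = e1 at *
    generalize Complex.exp (w / 12 - Real.pi ^ 2 / (12 * w)) = e2 at *
    generalize Complex.exp (-((Real.log 3 : ℝ) : ℂ) / 2 + (Real.log (4 / 3) : ℝ) / 2) = e3 at *
    generalize Complex.exp ((kap : ℂ) / w) = e4 at *
    generalize (w / (2 * (Real.pi : ℂ))) ^ (1 / 2 : ℂ) = p at *
    generalize Complex.sqrt Complex.I = s at *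
    generalize Sd w = S at *
    generalize Eq x = E at *
    push_cast
    rw [← hc]
    field_simp
    ring
end Pool.Agent.Helper3.OP
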