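import Mathlib
import Pool.Agent.Helper3.Regions

set_option autoImplicit false

open Finset Filter Topology

namespace Pool.Agent.Helper3.OP

lemma exp_neg_038 : Real.exp (-0.38) ≤ 0.689 := by
  have h := Real.quadratic_le_exp_of_nonneg (x := 0.38) (by norm_num)
  have h2 : (1.4522 : ℝ) ≤ Real.exp 0.38 := by
    refine le_trans ?_ h; norm_num
  rw [Real.exp_neg, inv_le_comm₀ (Real.exp_pos _) (by norm_num)]
  refine le_trans ?_ h2
  norm_num

lemma norm_half_cpow_inv {w : ℂ} :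
    ‖1 / (2 * w / Real.pi) ^ (1 / 2 : ℂ)‖ = (Real.sqrt (2 * ‖w‖ / Real.pi))⁻¹ := by
  have e2 : (1 / 2 : ℂ) = ((1 / 2 : ℝ) : ℂ) := by push_cast; norm_num
  rw [norm_div, norm_one, e2, Complex.norm_cpow_real, ← Real.sqrt_eq_rpow, norm_div, norm_mul,
    Complex.norm_real, Real.norm_of_nonneg Real.pi_pos.le, one_div]
  norm_num

/-- The region near `q = -1`. -/
lemma region_pi {w : ℂ} (hw : 0 < w.re)
    (him : |w.im| ≤ (3 / 2) * w.re) (hs : w.re ≤ 1 / 100) :
    ‖Fq (Complex.exp (-(w - Real.pi * Complex.I)))‖ ≤ 3 * Real.exp (1.01 / w.re) := by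
  have hpi := Real.pi_gt_d4
  have hpi2 := Real.pi_lt_d4
  have hpi0 := Real.pi_pos
  have hL := log3_lt
  have hL1 := lt_log3
  have hw0 : w ≠ 0 := by rintro rfl; simp at hw
  have hns : 0 < Complex.normSq w := Complex.normSq_pos.mpr hw0
  have hwn : 0 < ‖w‖ := norm_pos_iff.mpr hw0
  have hre' : (w - Real.pi * Complex.I).re = w.re := by simp
  have h1 := norm_Fq_le (w := w - Real.pi * Complex.I) (by rw [hre']; exact hw)
  have hsq : Complex.exp (-(w - Real.pi * Complex.I)) ^ 2 = Complex.exp (-(2 * w)) := by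
    rw [← Complex.exp_nat_mul]
    have : ((2 : ℕ) : ℂ) * -(w - Real.pi * Complex.I) = -(2 * w) + 2 * Real.pi * Complex.I := by
      push_cast; ring
    rw [this, Complex.exp_add, Complex.exp_two_pi_mul_I, mul_one]
  rw [hre', hsq] at h1
  have h2 := norm_Th_pi_le hw him hs
  have h3 := norm_Eq_inv_le hw (by linarith) hs
  set t : ℝ := w.re with ht
  rw [norm_half_cpow_inv] at h2
  have hsqrt : (Real.sqrt (2 * ‖w‖ / Real.pi))⁻¹ * Real.sqrt (‖w‖ / Real.pi) ≤ 0.7072 := by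
    have e1 : 2 * ‖w‖ / Real.pi = 2 * (‖w‖ / Real.pi) := by ring
    rw [e1, Real.sqrt_mul (by norm_num)]
    have hp : 0 < Real.sqrt (‖w‖ / Real.pi) := Real.sqrt_pos.mpr (by positivity)
    rw [mul_inv, mul_assoc, inv_mul_cancel₀ hp.ne', mul_one]
    rw [inv_le_comm₀ (by positivity) (by norm_num)]
    apply Real.le_sqrt_of_sq_le
    norm_num
  -- the exponent
  have hexp : Mpi w + 1 / (24 * t) + Real.pi ^ 2 * t / (12 * Complex.normSq w) ≤ 1.01 / t := by
    have hnse : Complex.normSq w = t ^ 2 + |w.im| ^ 2 := by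
      rw [Complex.normSq_apply, sq_abs]; ring
    unfold Mpi
    rw [← ht, hnse]
    set y : ℝ := |w.im| with hy
    have hy0 : 0 ≤ y := abs_nonneg _
    have hn2 : 0 < t ^ 2 + y ^ 2 := by positivity
    have key : t * ((4 * Real.log 3 ^ 2 - Real.pi ^ 2 / 3) * t + 4 * Real.pi * Real.log 3 * y)
        ≤ 8 * (1.01 - 1 / 24) * (t ^ 2 + y ^ 2) := by
      have hb : 4 * Real.pi * Real.log 3 ≤ 13.80675 := by nlinarith
      have hc : 4 * Real.log 3 ^ 2 - Real.pi ^ 2 / 3 ≤ 1.539 := by nlinarith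
      have hty : 0 ≤ t * y := by positivity
      have h5 : t * (4 * Real.pi * Real.log 3 * y) ≤ 13.80675 * (t * y) := by nlinarith
      have h6 : t * ((4 * Real.log 3 ^ 2 - Real.pi ^ 2 / 3) * t) ≤ 1.539 * t ^ 2 := by nlinarith
      nlinarith [sq_nonneg (y - 0.8911 * t)]
    have e : ((4 * Real.log 3 ^ 2 - Real.pi ^ 2) * t + 4 * Real.pi * Real.log 3 * y)
          / (8 * (t ^ 2 + y ^ 2)) + 1 / (24 * t) + Real.pi ^ 2 * t / (12 * (t ^ 2 + y ^ 2))
        = (t * ((4 * Real.log 3 ^ 2 - Real.pi ^ 2 / 3) * t + 4 * Real.pi * Real.log 3 * y)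
            / (8 * (t ^ 2 + y ^ 2)) + 1 / 24) / t := by
      field_simp
      ring
    rw [e]
    apply div_le_div_of_nonneg_right _ hw.le
    have h7 : t * ((4 * Real.log 3 ^ 2 - Real.pi ^ 2 / 3) * t + 4 * Real.pi * Real.log 3 * y)
            / (8 * (t ^ 2 + y ^ 2)) ≤ 1.01 - 1 / 24 := by
      rw [div_le_iff₀ (by positivity)]
      linarith
    linarith
  have hconst : Real.exp (-Real.log 3 / 2 + t / 8) * (Real.exp (1 / 6) * Real.exp (-(t / 12)))
      ≤ 0.689 := by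
    rw [← Real.exp_add, ← Real.exp_add]
    refine le_trans (Real.exp_le_exp.mpr ?_) exp_neg_038
    linarith
  have hT0 : 0 ≤ ‖Th (w - Real.pi * Complex.I)‖ := norm_nonneg _
  calc ‖Fq (Complex.exp (-(w - Real.pi * Complex.I)))‖
      ≤ (3 / 4) * ‖Th (w - Real.pi * Complex.I)‖ * (Real.exp (1 / 6 + 1 / (24 * t)) *
        ‖Eq (Complex.exp (-(2 * w)))‖⁻¹) := h1
    _ ≤ (3 / 4) * ((8002 / 1000) * ((Real.sqrt (2 * ‖w‖ / Real.pi))⁻¹ *
      (Real.exp (- Real.log 3 / 2 + t / 8) * Real.exp (Mpi w)))) * (Real.exp (1 / 6 + 1 / (24 * t)) *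
        ((1001 / 1000) * (Real.sqrt (‖w‖ / Real.pi) *
      Real.exp (Real.pi ^ 2 * t / (12 * Complex.normSq w) - t / 12)))) := by
        gcongr
    _ = (3 / 4) * (8002 / 1000) * (1001 / 1000) *
        ((Real.sqrt (2 * ‖w‖ / Real.pi))⁻¹ * Real.sqrt (‖w‖ / Real.pi)) *
        (Real.exp (-Real.log 3 / 2 + t / 8) * (Real.exp (1 / 6) * Real.exp (-(t / 12)))) *
        Real.exp (Mpi w + 1 / (24 * t) + Real.pi ^ 2 * t / (12 * Complex.normSq w)) := by
        rw [Real.exp_add (1 / 6), Real.exp_add (Mpi w + 1 / (24 * t)), Real.exp_add (Mpi w),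
          sub_eq_add_neg, Real.exp_add (Real.pi ^ 2 * t / (12 * Complex.normSq w))]
        ring
    _ ≤ (3 / 4) * (8002 / 1000) * (1001 / 1000) * 0.7072 * 0.689 * Real.exp (1.01 / t) := by
        gcongr
    _ ≤ 3 * Real.exp (1.01 / t) := by
        have := Real.exp_pos (1.01 / t)
        nlinarith

/-- The middle region. -/
lemma region_mid {w v : ℂ} (hw : 0 < w.re) (hs : w.re ≤ 1 / 100) (hv : v.re = w.re)
    (hsq : Complex.exp (-w) ^ 2 = Complex.exp (-(2 * v))) (him : |v.im| ≤ 10 * v.re)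
    (hlow : (61 / 25) * v.re ^ 2 ≤ Complex.normSq v) :
    ‖Fq (Complex.exp (-w))‖ ≤ 3 * Real.exp (1.01 / w.re) := by
  have hpi := Real.pi_gt_d4
  have hpi2 := Real.pi_lt_d4
  have hpi0 := Real.pi_pos
  have hL := log3_lt
  have hL1 := lt_log3
  have h1 := norm_Fq_le hw
  rw [hsq] at h1
  have h2 := norm_Th_le hw (by linarith)
  have hvr : 0 < v.re := by rw [hv]; exact hw
  have h3 := norm_Eq_inv_le hvr him (by linarith)
  rw [hv] at h3 him hlow
  set t : ℝ := w.re with ht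
  have hv0 : v ≠ 0 := by
    intro h
    rw [h] at hv
    simp at hv
    linarith
  have hns : 0 < Complex.normSq v := Complex.normSq_pos.mpr hv0
  have hsqrt : Real.sqrt (2 * Real.pi / t) * Real.sqrt (‖v‖ / Real.pi) ≤ 4.5 := by
    rw [← Real.sqrt_mul (by positivity)]
    apply Real.sqrt_le_iff.mpr
    refine ⟨by norm_num, ?_⟩
    have e : 2 * Real.pi / t * (‖v‖ / Real.pi) = 2 * ‖v‖ / t := by field_simp
    rw [e, div_le_iff₀ hw]
    have hvn : ‖v‖ ≤ |v.re| + |v.im| := Complex.norm_le_abs_re_add_abs_im v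
    rw [hv, abs_of_pos hw] at hvn
    have hvn2 : ‖v‖ ^ 2 ≤ (10.05 * t) ^ 2 := by
      rw [← Complex.normSq_eq_norm_sq, Complex.normSq_apply, hv]
      have : v.im * v.im = |v.im| * |v.im| := by rw [abs_mul_abs_self]
      rw [this]
      have h0 := abs_nonneg v.im
      nlinarith
    have hvn3 : ‖v‖ ≤ 10.05 * t := by
      apply le_of_sq_le_sq hvn2 (by positivity) |> fun h => h
    nlinarith
  have hexp : Real.log 3 ^ 2 / (2 * t) + 1 / (24 * t) + Real.pi ^ 2 * t / (12 * Complex.normSq v)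
      ≤ 0.984 / t := by
    have h5 : Real.pi ^ 2 * t / (12 * Complex.normSq v) ≤ 0.3372 / t := by
      rw [div_le_div_iff₀ (by positivity) hw]
      have hp2 : Real.pi ^ 2 ≤ 9.8697 := by nlinarith
      have : Real.pi ^ 2 * t * t ≤ 9.8697 * t ^ 2 := by nlinarith [sq_nonneg t]
      nlinarith
    have h6 : Real.log 3 ^ 2 / (2 * t) ≤ 0.6036 / t := by
      rw [div_le_div_iff₀ (by positivity) hw]
      have : Real.log 3 ^ 2 ≤ 1.2072 := by nlinarith
      nlinarith
    have h7 : 1 / (24 * t) ≤ 0.0417 / t := by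
      rw [div_le_div_iff₀ (by positivity) hw]
      nlinarith
    have h8 : 0.984 / t ≥ 0.6036 / t + 0.0417 / t + 0.3372 / t := by
      rw [← add_div, ← add_div]
      apply div_le_div_of_nonneg_right _ hw.le
      norm_num
    linarith
  have hexp2 : 0.984 / t ≤ 1.01 / t - 2 := by
    have : 2 ≤ 0.026 / t := by rw [le_div_iff₀ hw]; linarith
    have e : 1.01 / t = 0.984 / t + 0.026 / t := by rw [← add_div]; norm_num
    linarith
  have e9 : (Real.log 3 - t / 2) ^ 2 / (2 * t) = Real.log 3 ^ 2 / (2 * t) + (-Real.log 3 / 2 + t / 8) := by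
    field_simp
    ring
  rw [e9] at h2
  calc ‖Fq (Complex.exp (-w))‖
      ≤ (3 / 4) * ‖Th w‖ * (Real.exp (1 / 6 + 1 / (24 * t)) *
        ‖Eq (Complex.exp (-(2 * v)))‖⁻¹) := h1
    _ ≤ (3 / 4) * ((1001 / 1000) * (Real.sqrt (2 * Real.pi / t) *
        Real.exp (Real.log 3 ^ 2 / (2 * t) + (-Real.log 3 / 2 + t / 8)))) *
        (Real.exp (1 / 6 + 1 / (24 * t)) *
        ((1001 / 1000) * (Real.sqrt (‖v‖ / Real.pi) *
      Real.exp (Real.pi ^ 2 * t / (12 * Complex.normSq v) - t / 12)))) := by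
        gcongr
    _ = (3 / 4) * (1001 / 1000) * (1001 / 1000) *
        (Real.sqrt (2 * Real.pi / t) * Real.sqrt (‖v‖ / Real.pi)) *
        Real.exp ((Real.log 3 ^ 2 / (2 * t) + 1 / (24 * t) +
          Real.pi ^ 2 * t / (12 * Complex.normSq v)) + (1 / 6 + (-Real.log 3 / 2 + t / 8) - t / 12)) := by
        rw [show (Real.log 3 ^ 2 / (2 * t) + 1 / (24 * t) +
          Real.pi ^ 2 * t / (12 * Complex.normSq v)) + (1 / 6 + (-Real.log 3 / 2 + t / 8) - t / 12)
          = (Real.log 3 ^ 2 / (2 * t) + (-Real.log 3 / 2 + t / 8)) + ((1 / 6 + 1 / (24 * t)) +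
          (Real.pi ^ 2 * t / (12 * Complex.normSq v) - t / 12)) by ring,
          Real.exp_add (Real.log 3 ^ 2 / (2 * t) + (-Real.log 3 / 2 + t / 8)),
          Real.exp_add (1 / 6 + 1 / (24 * t))]
        ring
    _ ≤ (3 / 4) * (1001 / 1000) * (1001 / 1000) * 4.5 * Real.exp (1.01 / t - 2) := by
        have h10 : 1 / 6 + (-Real.log 3 / 2 + t / 8) - t / 12 ≤ 0 := by linarith
        have h11 : (Real.log 3 ^ 2 / (2 * t) + 1 / (24 * t) +
          Real.pi ^ 2 * t / (12 * Complex.normSq v)) + (1 / 6 + (-Real.log 3 / 2 + t / 8) - t / 12)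
          ≤ 1.01 / t - 2 := by linarith
        gcongr
    _ ≤ 3 * Real.exp (1.01 / t) := by
        rw [sub_eq_add_neg, Real.exp_add]
        have h12 : Real.exp (-2) ≤ 1 / 2 := by
          have := Real.add_one_le_exp (2 : ℝ)
          rw [Real.exp_neg, inv_le_comm₀ (Real.exp_pos _) (by norm_num)]
          linarith
        have := Real.exp_pos (1.01 / t)
        nlinarith [Real.exp_pos (-2)]

end Pool.Agent.Helper3.OP
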