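import Mathlib
import Pool.Agent.Helper3.Regions2

set_option autoImplicit false

open Finset Filter Topology

namespace Pool.Agent.Helper3.OP

/-- Away from the real axis, `Re (Q/(1-Q))` is small. -/
lemma re_geom_le {v : ℂ} (hv : 0 < v.re) (hs : Real.sin v.im ≠ 0) :
    (Complex.exp (-(2 * v)) / (1 - Complex.exp (-(2 * v)))).re
      ≤ v.re / (2 * Real.sin v.im ^ 2) := by
  set t : ℝ := v.re with ht
  set y : ℝ := v.im with hy
  set Q : ℂ := Complex.exp (-(2 * v)) with hQ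
  have hqt : ‖Q‖ = Real.exp (-(2 * t)) := by
    rw [hQ, Complex.norm_exp]; congr 1; simp [ht]
  have hre : Q.re = Real.exp (-(2 * t)) * Real.cos (2 * y) := by
    rw [hQ, Complex.exp_re]
    simp [ht, hy]
  have him : Q.im = -(Real.exp (-(2 * t)) * Real.sin (2 * y)) := by
    rw [hQ, Complex.exp_im]
    simp [ht, hy]
  set r : ℝ := Real.exp (-(2 * t)) with hr
  have hr0 : 0 < r := Real.exp_pos _
  have hr1 : r < 1 := by rw [hr, Real.exp_lt_one_iff]; linarith
  have hns : Complex.normSq (1 - Q) = (1 - r) ^ 2 + 4 * r * Real.sin y ^ 2 := by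
    rw [Complex.normSq_apply, Complex.sub_re, Complex.sub_im, Complex.one_re, Complex.one_im,
      hre, him, Real.cos_two_mul, Real.sin_two_mul]
    have h1 := Real.sin_sq_add_cos_sq y
    have h2 : Real.sin y ^ 2 = 1 - Real.cos y ^ 2 := by linarith
    ring_nf
    have h3 : Real.cos y ^ 4 = Real.cos y ^ 2 * Real.cos y ^ 2 := by ring
    rw [h2, h3]
    ring
  have hpos : 0 < (1 - r) ^ 2 + 4 * r * Real.sin y ^ 2 := by
    have : 0 < 1 - r := by linarith
    positivity
  have h2 : (Q / (1 - Q)).re = (Q.re - (Q.re ^ 2 + Q.im ^ 2)) / Complex.normSq (1 - Q) := by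
    rw [Complex.div_re]
    simp only [Complex.sub_re, Complex.sub_im, Complex.one_re, Complex.one_im]
    ring
  have h3 : Q.re ^ 2 + Q.im ^ 2 = r ^ 2 := by
    rw [hre, him]
    have := Real.sin_sq_add_cos_sq (2 * y)
    nlinarith
  have hsin : 0 < Real.sin y ^ 2 := by positivity
  rw [h2, h3, hns, hre, div_le_div_iff₀ hpos (by positivity)]
  have h4 : r * Real.cos (2 * y) - r ^ 2 ≤ r * (1 - r) := by
    have := Real.cos_le_one (2 * y)
    nlinarith
  have h5 : 1 - r ≤ 2 * t := by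
    have := Real.add_one_le_exp (-(2 * t))
    rw [← hr] at this
    linarith
  have h6 : (r * Real.cos (2 * y) - r ^ 2) * (2 * Real.sin y ^ 2)
      ≤ (r * (1 - r)) * (2 * Real.sin y ^ 2) := by gcongr
  refine h6.trans ?_
  have h7 : t * (4 * r * Real.sin y ^ 2) ≤ t * ((1 - r) ^ 2 + 4 * r * Real.sin y ^ 2) := by
    have : 0 ≤ (1 - r) ^ 2 := by positivity
    nlinarith
  refine le_trans ?_ h7
  have : 0 < r * Real.sin y ^ 2 := by positivity
  nlinarith

/-- Lower bound for `E (exp (-2v))` in the far region. -/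
lemma Eq_inv_far {v : ℂ} {t : ℝ} (hw : 0 < t) (hs : t ≤ 1 / 100) (hv : v.re = t)
    (him : 10 * t ≤ |v.im|) (him2 : |v.im| ≤ Real.pi / 2) :
    ‖Eq (Complex.exp (-(2 * v)))‖⁻¹ ≤ (1001 / 1000) * (Real.sqrt (t / Real.pi) *
      Real.exp (Real.pi ^ 2 * t / (12 * (t * t)) - t / 12)) *
      Real.exp (Real.pi ^ 2 / (800 * t) - (1 / (2 * t) - 1)) := by
  have hpi0 := Real.pi_pos
  have hvr : 0 < v.re := by rw [hv]; exact hw
  have hsinabs : |Real.sin v.im| = Real.sin |v.im| := by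
    rcases abs_cases v.im with ⟨h, h'⟩ | ⟨h, h'⟩
    · rw [h, abs_of_nonneg]
      apply Real.sin_nonneg_of_nonneg_of_le_pi h'
      rw [h] at him2; linarith
    · rw [h, Real.sin_neg, abs_of_nonpos]
      apply Real.sin_nonpos_of_nonpos_of_neg_pi_le h'.le
      rw [h] at him2; linarith
  have hjordan : 2 / Real.pi * |v.im| ≤ |Real.sin v.im| := by
    rw [hsinabs]
    exact Real.mul_le_sin (abs_nonneg _) him2
  have hsin1 : (20 / Real.pi * t) ^ 2 ≤ Real.sin v.im ^ 2 := by
    rw [← sq_abs (Real.sin v.im)]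
    have : 20 / Real.pi * t ≤ |Real.sin v.im| := by
      refine le_trans ?_ hjordan
      have e : 20 / Real.pi * t = 2 / Real.pi * (10 * t) := by ring
      rw [e]
      gcongr
    gcongr
  have hsin0 : Real.sin v.im ≠ 0 := by
    intro h
    rw [h] at hsin1
    have : 0 < (20 / Real.pi * t) ^ 2 := by positivity
    simp at hsin1
    linarith
  have h3 := re_geom_le hvr hsin0
  rw [hv] at h3
  set Q : ℂ := Complex.exp (-(2 * v)) with hQ
  have hqt : ‖Q‖ = Real.exp (-(2 * t)) := by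
    rw [hQ, Complex.norm_exp]; congr 1; simp [hv]
  have hQ1 : ‖Q‖ < 1 := by rw [hqt, Real.exp_lt_one_iff]; linarith
  have h4 := Eq_lower hQ1
  -- the real point
  have hreal := norm_Eq_inv_le (w := (t : ℂ)) (by simpa using hw) (by simp; positivity)
    (by simpa using hs)
  have hQr : ((‖Q‖ : ℝ) : ℂ) = Complex.exp (-(2 * (t : ℂ))) := by
    rw [hqt]; push_cast; rfl
  rw [← hQr] at hreal
  have hnt : ‖(t : ℂ)‖ = t := by rw [Complex.norm_real, Real.norm_of_nonneg hw.le]
  have hnst : Complex.normSq (t : ℂ) = t * t := Complex.normSq_ofReal t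
  rw [hnt, hnst, Complex.ofReal_re] at hreal
  have hgeo : 1 / (2 * t) - 1 ≤ ‖Q‖ / (1 - ‖Q‖) := by
    rw [hqt]
    have hb := Real.exp_bound_div_one_sub_of_interval (x := 2 * t) (by positivity) (by linarith)
    have he : Real.exp (-(2 * t)) = (Real.exp (2 * t))⁻¹ := Real.exp_neg _
    have hE1 : 1 < Real.exp (2 * t) := by rw [Real.one_lt_exp_iff]; positivity
    have e2 : Real.exp (-(2 * t)) / (1 - Real.exp (-(2 * t))) = 1 / (Real.exp (2 * t) - 1) := by
      rw [he]
      have : Real.exp (2 * t) ≠ 0 := (Real.exp_pos _).ne'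
      have h' : Real.exp (2 * t) - 1 ≠ 0 := by linarith
      field_simp
    rw [e2]
    have h2t : 0 < 1 - 2 * t := by linarith
    have h5 : Real.exp (2 * t) - 1 ≤ 2 * t / (1 - 2 * t) := by
      have : 1 / (1 - 2 * t) - 1 = 2 * t / (1 - 2 * t) := by field_simp; ring
      linarith
    have h6 : 1 / (2 * t / (1 - 2 * t)) ≤ 1 / (Real.exp (2 * t) - 1) := by
      apply one_div_le_one_div_of_le (by linarith) h5
    refine le_trans (le_of_eq ?_) h6
    field_simp
  have hp1 : 0 < ‖Eq ((‖Q‖ : ℝ) : ℂ)‖ := by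
    apply norm_pos_iff.mpr
    apply Eq_ne_zero
    rw [Complex.norm_real, norm_norm]; exact hQ1
  have hp2 : 0 < ‖Eq ((‖Q‖ : ℝ) : ℂ)‖ * Real.exp (‖Q‖ / (1 - ‖Q‖) - (Q / (1 - Q)).re) := by
    positivity
  refine (inv_anti₀ hp2 h4).trans ?_
  rw [mul_inv, ← Real.exp_neg]
  have h7 : -(‖Q‖ / (1 - ‖Q‖) - (Q / (1 - Q)).re) ≤ Real.pi ^ 2 / (800 * t) - (1 / (2 * t) - 1) := by
    have h8 : t / (2 * Real.sin v.im ^ 2) ≤ Real.pi ^ 2 / (800 * t) := by
      rw [div_le_div_iff₀ (by positivity) (by positivity)]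
      have e : (20 / Real.pi * t) ^ 2 = 400 * t ^ 2 / Real.pi ^ 2 := by field_simp; ring
      rw [e, div_le_iff₀ (by positivity)] at hsin1
      nlinarith
    linarith
  gcongr

lemma far_exponent {t : ℝ} (hw : 0 < t) (hs : t ≤ 1 / 100) :
    (Real.log 3 ^ 2 / (2 * t) + (-Real.log 3 / 2 + t / 8)) + ((1 / 6 + 1 / (24 * t)) +
      ((Real.pi ^ 2 * t / (12 * (t * t)) - t / 12) +
      (Real.pi ^ 2 / (800 * t) - (1 / (2 * t) - 1)))) ≤ 1.01 / t := by
  have hpi2 := Real.pi_lt_d4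
  have hpi0 := Real.pi_pos
  have hL := log3_lt
  have hL1 := lt_log3
  have e : (Real.log 3 ^ 2 / (2 * t) + (-Real.log 3 / 2 + t / 8)) + ((1 / 6 + 1 / (24 * t)) +
    ((Real.pi ^ 2 * t / (12 * (t * t)) - t / 12) +
    (Real.pi ^ 2 / (800 * t) - (1 / (2 * t) - 1))))
    = (Real.log 3 ^ 2 / 2 + 1 / 24 + Real.pi ^ 2 / 12 + Real.pi ^ 2 / 800 - 1 / 2) / t
      + (-Real.log 3 / 2 + t / 24 + 7 / 6) := by
    field_simp
    ring
  rw [e]
  have h10 : Real.log 3 ^ 2 / 2 + 1 / 24 + Real.pi ^ 2 / 12 + Real.pi ^ 2 / 800 - 1 / 2 ≤ 0.981 := by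
    have : Real.log 3 ^ 2 ≤ 1.2072 := by nlinarith
    have hp2 : Real.pi ^ 2 ≤ 9.8697 := by nlinarith
    linarith
  have h11 : (Real.log 3 ^ 2 / 2 + 1 / 24 + Real.pi ^ 2 / 12 + Real.pi ^ 2 / 800 - 1 / 2) / t
      ≤ 0.981 / t := by gcongr
  have h12 : 1.01 / t = 0.981 / t + 0.029 / t := by rw [← add_div]; norm_num
  have h13 : 2 ≤ 0.029 / t := by rw [le_div_iff₀ hw]; linarith
  linarith

/-- The far region. -/
lemma region_far {w v : ℂ} (hw : 0 < w.re) (hs : w.re ≤ 1 / 100) (hv : v.re = w.re)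
    (hsq : Complex.exp (-w) ^ 2 = Complex.exp (-(2 * v))) (him : 10 * v.re ≤ |v.im|)
    (him2 : |v.im| ≤ Real.pi / 2) :
    ‖Fq (Complex.exp (-w))‖ ≤ 3 * Real.exp (1.01 / w.re) := by
  have hpi0 := Real.pi_pos
  have h1 := norm_Fq_le hw
  rw [hsq] at h1
  have h2 := norm_Th_le hw (by linarith)
  rw [hv] at him
  have hEqinv := Eq_inv_far hw hs hv him him2
  have hexp := far_exponent hw hs
  have hT : 0 ≤ ‖Th w‖ := norm_nonneg _
  generalize w.re = t at *
  generalize ‖Eq (Complex.exp (-(2 * v)))‖⁻¹ = E at *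
  generalize ‖Th w‖ = T at *
  have hsqrt : Real.sqrt (2 * Real.pi / t) * Real.sqrt (t / Real.pi) ≤ 1.4143 := by
    rw [← Real.sqrt_mul (by positivity)]
    have e : 2 * Real.pi / t * (t / Real.pi) = 2 := by field_simp
    rw [e]
    apply Real.sqrt_le_iff.mpr
    norm_num
  have e9 : (Real.log 3 - t / 2) ^ 2 / (2 * t) = Real.log 3 ^ 2 / (2 * t) + (-Real.log 3 / 2 + t / 8) := by
    field_simp
    ring
  rw [e9] at h2
  generalize Real.log 3 ^ 2 / (2 * t) + (-Real.log 3 / 2 + t / 8) = A at *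
  generalize 1 / 6 + 1 / (24 * t) = B at *
  generalize Real.pi ^ 2 * t / (12 * (t * t)) - t / 12 = C at *
  generalize Real.pi ^ 2 / (800 * t) - (1 / (2 * t) - 1) = D at *
  have hS1 : 0 ≤ Real.sqrt (2 * Real.pi / t) := Real.sqrt_nonneg _
  have hS2 : 0 ≤ Real.sqrt (t / Real.pi) := Real.sqrt_nonneg _
  generalize Real.sqrt (2 * Real.pi / t) = S1 at *
  generalize Real.sqrt (t / Real.pi) = S2 at *
  have hE0 : 0 ≤ (1001 / 1000) * (S2 * Real.exp C) * Real.exp D := by positivity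
  calc ‖Fq (Complex.exp (-w))‖
      ≤ (3 / 4) * T * (Real.exp B * E) := h1
    _ ≤ (3 / 4) * T * (Real.exp B * ((1001 / 1000) * (S2 * Real.exp C) * Real.exp D)) := by
        gcongr
    _ ≤ (3 / 4) * ((1001 / 1000) * (S1 * Real.exp A)) *
        (Real.exp B * ((1001 / 1000) * (S2 * Real.exp C) * Real.exp D)) := by
        gcongr
    _ = (3 / 4) * (1001 / 1000) * (1001 / 1000) * (S1 * S2) *
        Real.exp (A + (B + (C + D))) := by
        rw [Real.exp_add A, Real.exp_add B, Real.exp_add C]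
        ring
    _ ≤ (3 / 4) * (1001 / 1000) * (1001 / 1000) * 1.4143 * Real.exp (1.01 / t) := by
        gcongr
    _ ≤ 3 * Real.exp (1.01 / t) := by
        have := Real.exp_pos (1.01 / t)
        nlinarith

/-- All points of the circle outside the main arc. -/
theorem region_all {t θ : ℝ} (ht : 0 < t) (hs : t ≤ 1 / 100) (h1 : -(Real.pi / 2) ≤ θ)
    (h2 : θ ≤ 3 * Real.pi / 2) (h3 : (6 / 5) * t ≤ |θ|) :
    ‖Fq (Complex.exp (-((t : ℂ) - θ * Complex.I)))‖ ≤ 3 * Real.exp (1.01 / t) := by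
  have hpi0 := Real.pi_pos
  set w : ℂ := (t : ℂ) - θ * Complex.I with hw
  have hwre : w.re = t := by simp [hw]
  have hwim : w.im = -θ := by simp [hw]
  have hw0 : 0 < w.re := by rw [hwre]; exact ht
  have hs' : w.re ≤ 1 / 100 := by rw [hwre]; exact hs
  rw [← hwre]
  by_cases hcase : θ ≤ Real.pi / 2
  · -- near `1`
    have hθ : |θ| ≤ Real.pi / 2 := abs_le.mpr ⟨h1, hcase⟩
    have hsq : Complex.exp (-w) ^ 2 = Complex.exp (-(2 * w)) := by
      rw [← Complex.exp_nat_mul]; congr 1; push_cast; ring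
    by_cases hfar : |w.im| ≤ 10 * w.re
    · refine region_mid hw0 hs' rfl hsq hfar ?_
      rw [Complex.normSq_apply, hwre, hwim]
      have : (6 / 5 * t) ^ 2 ≤ θ ^ 2 := by
        rw [← sq_abs θ]; gcongr
      nlinarith
    · push Not at hfar
      refine region_far hw0 hs' rfl hsq hfar.le ?_
      rw [hwim, abs_neg]
      exact hθ
  · -- near `-1`
    push Not at hcase
    set v : ℂ := (t : ℂ) - (θ - Real.pi : ℝ) * Complex.I with hv
    have hvre : v.re = t := by simp [hv]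
    have hvim : v.im = -(θ - Real.pi) := by simp [hv]
    have hwv : w = v - Real.pi * Complex.I := by
      rw [hw, hv]; push_cast; ring
    have hsq : Complex.exp (-w) ^ 2 = Complex.exp (-(2 * v)) := by
      rw [hwv, ← Complex.exp_nat_mul]
      have : ((2 : ℕ) : ℂ) * -(v - Real.pi * Complex.I) = -(2 * v) + 2 * Real.pi * Complex.I := by
        push_cast; ring
      rw [this, Complex.exp_add, Complex.exp_two_pi_mul_I, mul_one]
    have hθ : |θ - Real.pi| ≤ Real.pi / 2 := abs_le.mpr ⟨by linarith, by linarith⟩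
    by_cases hnear : |v.im| ≤ (3 / 2) * v.re
    · have h := region_pi (w := v) (by rw [hvre]; exact ht) hnear (by rw [hvre]; exact hs)
      rw [← hwv, hvre] at h
      rw [hwre]
      exact h
    · push Not at hnear
      by_cases hfar : |v.im| ≤ 10 * v.re
      · refine region_mid hw0 hs' (by rw [hvre, hwre]) hsq hfar ?_
        rw [Complex.normSq_apply]
        rw [hvre] at hnear ⊢
        have : (3 / 2 * t) ^ 2 ≤ v.im ^ 2 := by
          rw [← sq_abs v.im]; gcongr
        nlinarith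
      · push Not at hfar
        refine region_far hw0 hs' (by rw [hvre, hwre]) hsq hfar.le ?_
        rw [hvim, abs_neg]
        exact hθ

end Pool.Agent.Helper3.OP
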