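import Mathlib
import Pool.Agent.Helper3.Regions3
import Pool.Agent.Helper3.MainArc
import Pool.Agent.Helper3.Coef

set_option autoImplicit false

open Finset Filter Topology

namespace Pool.Agent.Helper3.OP

lemma Li_bounds : -0.30904 < Li ∧ Li < -0.30903 := by
  have hs : Summable fun n : ℕ => (-1 : ℝ) ^ n * (1 / 3) ^ n / (n : ℝ) ^ 2 := by
    refine Summable.of_norm_bounded summable_third (fun n => ?_)
    rcases n with _ | n
    · simp
    · rw [norm_div, norm_mul, norm_pow, norm_pow, norm_neg, norm_one, one_pow, one_mul]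
      have h3 : (1 : ℝ) ≤ ‖((n + 1 : ℕ) : ℝ) ^ 2‖ := by
        rw [Real.norm_eq_abs, abs_of_nonneg (by positivity)]
        push_cast
        nlinarith [(Nat.cast_nonneg n : (0 : ℝ) ≤ n)]
      have h4 : ‖(1 / 3 : ℝ)‖ = 1 / 3 := by norm_num
      rw [h4, div_le_iff₀ (by linarith)]
      have : (0 : ℝ) < (1 / 3) ^ (n + 1) := by positivity
      nlinarith
  have h1 := hs.sum_add_tsum_nat_add 8
  have hg : HasSum (fun n : ℕ => ((1 : ℝ) / 3) ^ 8 / 64 * (1 / 3) ^ n)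
      ((1 / 3) ^ 8 / 64 * (1 - 1 / 3)⁻¹) :=
    (hasSum_geometric_of_lt_one (by norm_num) (by norm_num)).mul_left _
  have h2 := tsum_of_norm_bounded hg (f := fun i : ℕ =>
    (-1 : ℝ) ^ (i + 8) * (1 / 3) ^ (i + 8) / ((i + 8 : ℕ) : ℝ) ^ 2) (fun n => by
      rw [norm_div, norm_mul, norm_pow, norm_pow, norm_neg, norm_one, one_pow, one_mul,
        Real.norm_eq_abs, Real.norm_eq_abs, abs_of_nonneg (by norm_num : (0 : ℝ) ≤ 1 / 3),
        abs_of_nonneg (by positivity : (0 : ℝ) ≤ ((n + 8 : ℕ) : ℝ) ^ 2), pow_add]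
      rw [div_le_iff₀ (by positivity)]
      have h5 : (64 : ℝ) ≤ ((n + 8 : ℕ) : ℝ) ^ 2 := by
        push_cast
        nlinarith [(Nat.cast_nonneg n : (0 : ℝ) ≤ n)]
      have h6 : (0 : ℝ) < (1 / 3) ^ n * (1 / 3) ^ 8 := by positivity
      calc (1 / 3 : ℝ) ^ n * (1 / 3) ^ 8 = (1 / 3) ^ 8 / 64 * (1 / 3) ^ n * 64 := by ring
        _ ≤ _ := by gcongr)
  rw [Real.norm_eq_abs, abs_le] at h2
  have h3 : Li = ∑' n : ℕ, (-1 : ℝ) ^ n * (1 / 3) ^ n / (n : ℝ) ^ 2 := rfl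
  rw [← h1] at h3
  simp only [sum_range_succ, sum_range_zero] at h3
  norm_num at h2 h3 ⊢
  constructor <;> linarith [h2.1, h2.2]

lemma kap_gt : 1.1168 < kap := by
  have h1 := lt_log3
  have h2 := Real.pi_gt_d6
  have h3 := Li_bounds.1
  unfold kap
  nlinarith

lemma kap_lt : kap < 1.1171 := by
  have h1 := log3_lt
  have h1' := lt_log3
  have h2 := Real.pi_lt_d6
  have h2' := Real.pi_gt_d6
  have h3 := Li_bounds.2
  unfold kap
  nlinarith

/-- The integrand. -/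
noncomputable def GG (n : ℕ) (t θ : ℝ) : ℂ :=
  Fq (Complex.exp (-((t : ℂ) - (θ : ℝ) * Complex.I))) *
        Complex.exp (n * ((t : ℂ) - (θ : ℝ) * Complex.I))

lemma exponent_eq {n : ℕ} {t θ : ℝ} (ht : 0 < t) (hk : n * t ^ 2 = kap) :
    (kap : ℂ) / ((t : ℂ) - (θ : ℝ) * Complex.I) + n * ((t : ℂ) - (θ : ℝ) * Complex.I)
      = ((2 * (n * t) - n * t * (θ ^ 2 / (t ^ 2 + θ ^ 2)) : ℝ) : ℂ)
        + ((-(n * θ ^ 3 / (t ^ 2 + θ ^ 2)) : ℝ) : ℂ) * Complex.I := by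
  have h0 : (0 : ℝ) < t ^ 2 + θ ^ 2 := by positivity
  have hne : ((t : ℂ) ^ 2 + (θ : ℂ) ^ 2) ≠ 0 := by exact_mod_cast h0.ne'
  have hw : (t : ℂ) - (θ : ℝ) * Complex.I ≠ 0 := by
    intro h
    have := congrArg Complex.re h
    simp at this
    linarith
  have e : (kap : ℂ) / ((t : ℂ) - (θ : ℝ) * Complex.I)
      = kap * ((t : ℂ) + θ * Complex.I) / ((t : ℂ) ^ 2 + (θ : ℂ) ^ 2) := by
    rw [div_eq_div_iff hw hne]
    have hI : Complex.I ^ 2 = -1 := Complex.I_sq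
    linear_combination (kap : ℂ) * (θ : ℂ) ^ 2 * hI
  rw [e, ← hk]
  push_cast
  field_simp
  ring

lemma cube_exp_le {x : ℝ} (hx : 0 ≤ x) : x ^ 3 * Real.exp (-(x / 2)) ≤ 10.8 := by
  have h1 := Real.add_one_le_exp (x / 6 - 1)
  have h2 : x * Real.exp (-(x / 6)) ≤ 6 * Real.exp (-1) := by
    have h3 : x / 6 ≤ Real.exp (x / 6 - 1) := by linarith
    have h4 : Real.exp (x / 6 - 1) = Real.exp (x / 6) * Real.exp (-1) := by
      rw [← Real.exp_add]; congr 1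
    have h5 : Real.exp (x / 6) * Real.exp (-(x / 6)) = 1 := by
      rw [← Real.exp_add]; simp
    have h6 := Real.exp_pos (-(x / 6))
    rw [h4] at h3
    calc x * Real.exp (-(x / 6)) = 6 * (x / 6) * Real.exp (-(x / 6)) := by ring
      _ ≤ 6 * (Real.exp (x / 6) * Real.exp (-1)) * Real.exp (-(x / 6)) := by gcongr
      _ = 6 * Real.exp (-1) * (Real.exp (x / 6) * Real.exp (-(x / 6))) := by ring
      _ = _ := by rw [h5, mul_one]
  have h7 : x ^ 3 * Real.exp (-(x / 2)) = (x * Real.exp (-(x / 6))) ^ 3 := by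
    rw [mul_pow, ← Real.exp_nat_mul]
    congr 2
    push_cast
    ring
  have h8 : Real.exp (-1) ≤ 1 / 2.718 := by
    rw [Real.exp_neg, one_div]
    apply inv_anti₀ (by norm_num)
    have := Real.exp_one_gt_d9
    linarith
  rw [h7]
  calc (x * Real.exp (-(x / 6))) ^ 3 ≤ (6 * Real.exp (-1)) ^ 3 := by gcongr
    _ ≤ (6 * (1 / 2.718)) ^ 3 := by gcongr
    _ ≤ _ := by norm_num

lemma GG_main {n : ℕ} {t θ : ℝ} (ht : 0 < t) (hs : t ≤ 1 / 100) (hk : n * t ^ 2 = kap)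
    (hθ : |θ| ≤ (6 / 5) * t) : ∃ ε : ℂ, ‖ε‖ ≤ 3 / 100 ∧
    GG n t θ = ((Real.sqrt 2 / 2 *
      Real.exp (2 * (n * t) - n * t * (θ ^ 2 / (t ^ 2 + θ ^ 2))) : ℝ) : ℂ) *
      (Complex.exp (((-(n * θ ^ 3 / (t ^ 2 + θ ^ 2)) : ℝ) : ℂ) * Complex.I) * (1 + ε)) := by
  set w : ℂ := (t : ℂ) - (θ : ℝ) * Complex.I with hw
  have hwre : w.re = t := by simp [hw]
  have hwim : w.im = -θ := by simp [hw]
  obtain ⟨ε, h1, h2⟩ := main_arc (w := w) (by rw [hwre]; exact ht)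
    (by rw [hwre, hwim, abs_neg]; exact hθ) (by rw [hwre]; exact hs)
  refine ⟨ε, h1, ?_⟩
  have h3 := exponent_eq (θ := θ) ht hk
  rw [← hw] at h3
  rw [GG, ← hw, h2]
  have h4 : Complex.exp ((kap : ℂ) / w) * Complex.exp (n * w) =
      Complex.exp ((2 * (n * t) - n * t * (θ ^ 2 / (t ^ 2 + θ ^ 2)) : ℝ) : ℂ) *
      Complex.exp (((-(n * θ ^ 3 / (t ^ 2 + θ ^ 2)) : ℝ) : ℂ) * Complex.I) := by
    rw [← Complex.exp_add, h3, Complex.exp_add]
  rw [Complex.ofReal_mul, Complex.ofReal_exp]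
  linear_combination ((Real.sqrt 2 / 2 : ℝ) : ℂ) * (1 + ε) * h4

lemma re_exp_lower (φ : ℝ) {ε : ℂ} (hε : ‖ε‖ ≤ 3 / 100) :
    0.97 - φ ^ 2 / 2 ≤ (Complex.exp ((φ : ℂ) * Complex.I) * (1 + ε)).re := by
  rw [mul_add, mul_one, Complex.add_re, Complex.exp_ofReal_mul_I_re]
  have h1 := Real.one_sub_sq_div_two_le_cos (x := φ)
  have h2 : |(Complex.exp ((φ : ℂ) * Complex.I) * ε).re| ≤ 3 / 100 := by
    refine (Complex.abs_re_le_norm _).trans ?_
    rw [norm_mul, Complex.norm_exp_ofReal_mul_I, one_mul]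
    exact hε
  rw [abs_le] at h2
  linarith [h2.1]

/-- The lower bound close to the saddle point. -/
lemma GG_lower {n : ℕ} {t θ : ℝ} (ht : 0 < t) (hs : t ≤ 1 / 100) (hk : n * t ^ 2 = kap)
    (hθ : |θ| ≤ t / 2) :
    Real.sqrt 2 / 2 * Real.exp (2 * (n * t)) * (0.97 * Real.exp (-(n / t * θ ^ 2))
      - 5.4 / (n * t) * Real.exp (-(0.3 * (n / t) * θ ^ 2))) ≤ (GG n t θ).re := by
  have hkp := kap_gt
  have hn : (0 : ℝ) < n := by
    by_contra hcon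
    push Not at hcon
    have : (n : ℝ) * t ^ 2 ≤ 0 := mul_nonpos_of_nonpos_of_nonneg hcon (by positivity)
    linarith
  obtain ⟨ε, h1, h2⟩ := GG_main (n := n) (θ := θ) ht hs hk (by linarith)
  have h3 := re_exp_lower (-(n * θ ^ 3 / (t ^ 2 + θ ^ 2))) h1
  rw [h2, Complex.re_ofReal_mul]
  have hs2 : 0 < Real.sqrt 2 / 2 := by positivity
  have hθ2 : θ ^ 2 ≤ t ^ 2 / 4 := by
    have := pow_le_pow_left₀ (abs_nonneg θ) hθ 2
    rw [sq_abs] at this
    linarith [this, (by ring : (t / 2) ^ 2 = t ^ 2 / 4)]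
  set D : ℝ := t ^ 2 + θ ^ 2 with hD
  have hD0 : 0 < D := by positivity
  have hDt : t ^ 2 ≤ D := by rw [hD]; nlinarith [sq_nonneg θ]
  have hDt' : D ≤ 1.25 * t ^ 2 := by rw [hD]; linarith
  set y : ℝ := n / t * θ ^ 2 with hy
  have hy0 : 0 ≤ y := by positivity
  have e1 : n * t * (θ ^ 2 / D) ≤ y := by
    rw [hy]
    have : n / t * θ ^ 2 = n * t * (θ ^ 2 / t ^ 2) := by field_simp
    rw [this]
    gcongr
  have e2 : 0.8 * y ≤ n * t * (θ ^ 2 / D) := by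
    rw [hy]
    have : 0.8 * (n / t * θ ^ 2) = n * t * (θ ^ 2 / (1.25 * t ^ 2)) := by
      field_simp; norm_num; ring_nf
    rw [this]
    gcongr
  have e3 : (-(n * θ ^ 3 / D)) ^ 2 ≤ y ^ 3 / (n * t) := by
    have a1 : (-(n * θ ^ 3 / D)) ^ 2 = n ^ 2 * θ ^ 6 / D ^ 2 := by
      rw [neg_sq, div_pow, mul_pow, ← pow_mul]
    have a2 : y ^ 3 / (n * t) = n ^ 2 * θ ^ 6 / (t ^ 2) ^ 2 := by rw [hy]; field_simp
    rw [a1, a2]
    gcongr
  -- combine
  have e4 : Real.exp (2 * (n * t) - n * t * (θ ^ 2 / D)) =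
      Real.exp (2 * (n * t)) * Real.exp (-(n * t * (θ ^ 2 / D))) := by
    rw [← Real.exp_add]; congr 1
  rw [e4]
  set X : ℝ := Real.exp (-(n * t * (θ ^ 2 / D))) with hX
  have hX0 : 0 < X := Real.exp_pos _
  have x1 : Real.exp (-y) ≤ X := Real.exp_le_exp.mpr (by linarith)
  have x2 : X ≤ Real.exp (-(0.3 * y)) * Real.exp (-(y / 2)) := by
    rw [← Real.exp_add]
    exact Real.exp_le_exp.mpr (by linarith)
  have x3 := cube_exp_le hy0
  have x4 : X * (y ^ 3 / (n * t) / 2) ≤ 5.4 / (n * t) * Real.exp (-(0.3 * y)) := by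
    calc X * (y ^ 3 / (n * t) / 2)
        ≤ (Real.exp (-(0.3 * y)) * Real.exp (-(y / 2))) * (y ^ 3 / (n * t) / 2) := by gcongr
      _ = (y ^ 3 * Real.exp (-(y / 2))) * (Real.exp (-(0.3 * y)) / (n * t) / 2) := by ring
      _ ≤ 10.8 * (Real.exp (-(0.3 * y)) / (n * t) / 2) := by gcongr
      _ = _ := by ring
  have x5 : -(0.3 * (n / t) * θ ^ 2) = -(0.3 * y) := by rw [hy]; ring
  rw [x5]
  have hE : 0 < Real.exp (2 * (n * t)) := Real.exp_pos _
  set r : ℝ := (Complex.exp (((-(n * θ ^ 3 / D) : ℝ) : ℂ) * Complex.I) * (1 + ε)).re with hr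
  have x6 : 0.97 * Real.exp (-y) - 5.4 / (n * t) * Real.exp (-(0.3 * y)) ≤ X * r := by
    have : X * (0.97 - (-(n * θ ^ 3 / D)) ^ 2 / 2) ≤ X * r := by gcongr
    have x7 : X * ((-(n * θ ^ 3 / D)) ^ 2 / 2) ≤ X * (y ^ 3 / (n * t) / 2) := by gcongr
    nlinarith
  calc Real.sqrt 2 / 2 * Real.exp (2 * (n * t)) * (0.97 * Real.exp (-y)
      - 5.4 / (n * t) * Real.exp (-(0.3 * y)))
      ≤ Real.sqrt 2 / 2 * Real.exp (2 * (n * t)) * (X * r) := by gcongr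
    _ = _ := by ring

/-- The upper bound away from the saddle point. -/
lemma GG_upper {n : ℕ} {t θ : ℝ} (ht : 0 < t) (hs : t ≤ 1 / 100) (hk : n * t ^ 2 = kap)
    (h1 : -(Real.pi / 2) ≤ θ) (h2 : θ ≤ 3 * Real.pi / 2) (hθ : t / 2 ≤ |θ|) :
    ‖GG n t θ‖ ≤ 3 * Real.exp (1.01 / t + n * t) := by
  have hn : ‖Complex.exp (n * ((t : ℂ) - (θ : ℝ) * Complex.I))‖ = Real.exp (n * t) := by
    rw [Complex.norm_exp]; congr 1; simp
  rcases le_or_gt ((6 / 5) * t) |θ| with hc | hc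
  · have h := region_all ht hs h1 h2 hc
    rw [GG, norm_mul, hn, Real.exp_add, ← mul_assoc]
    gcongr
  · obtain ⟨ε, g1, g2⟩ := GG_main (n := n) (θ := θ) ht hs hk hc.le
    have hkp := kap_gt
    have hkl := kap_lt
    have hn0 : (0 : ℝ) < n := by
      by_contra hcon
      push Not at hcon
      have : (n : ℝ) * t ^ 2 ≤ 0 := mul_nonpos_of_nonpos_of_nonneg hcon (by positivity)
      linarith
    have hnt : (n : ℝ) * t = kap / t := by
      rw [← hk]; field_simp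
    rw [g2, norm_mul, norm_mul, Complex.norm_real, Complex.norm_exp_ofReal_mul_I, one_mul,
      Real.norm_eq_abs, abs_of_pos (by positivity)]
    have a1 : ‖1 + ε‖ ≤ 1.03 := by
      refine (norm_add_le _ _).trans ?_
      rw [norm_one]; linarith
    have a2 : Real.sqrt 2 / 2 ≤ 1 := by
      have : Real.sqrt 2 ≤ 2 := by
        rw [Real.sqrt_le_left (by norm_num)]; norm_num
      linarith
    have hθ2 : t ^ 2 / 4 ≤ θ ^ 2 := by
      have := pow_le_pow_left₀ (by positivity) hθ 2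
      rw [sq_abs] at this
      linarith [this, (by ring : (t / 2) ^ 2 = t ^ 2 / 4)]
    have hD0 : 0 < t ^ 2 + θ ^ 2 := by positivity
    have a3 : 0.2 ≤ θ ^ 2 / (t ^ 2 + θ ^ 2) := by
      rw [le_div_iff₀ hD0]; linarith
    have a4 : 2 * (n * t) - n * t * (θ ^ 2 / (t ^ 2 + θ ^ 2)) ≤ 1.01 / t + n * t := by
      have a5 : n * t * 0.2 ≤ n * t * (θ ^ 2 / (t ^ 2 + θ ^ 2)) := by gcongr
      have a6 : 0.8 * (n * t) ≤ 1.01 / t := by
        rw [hnt, ← mul_div_assoc]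
        gcongr
        linarith
      linarith
    calc Real.sqrt 2 / 2 * Real.exp (2 * (n * t) - n * t * (θ ^ 2 / (t ^ 2 + θ ^ 2))) * ‖1 + ε‖
        ≤ 1 * Real.exp (1.01 / t + n * t) * 1.03 := by gcongr
      _ ≤ _ := by
        have := Real.exp_pos (1.01 / t + n * t)
        nlinarith

end Pool.Agent.Helper3.OP
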