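import Mathlib
import Pool.Agent.Helper3.Final1

set_option autoImplicit false

open Finset Filter Topology MeasureTheory

namespace Pool.Agent.Helper3.OP

/-- The central gaussian integral from below. -/
lemma gauss_lower {a T : ℝ} (ha : 0 < a) (hT : 0 < T) (h : 1 ≤ a * T ^ 2) :
    4 / 3 / Real.sqrt a ≤ ∫ θ in (-T)..T, Real.exp (-(a * θ ^ 2)) := by
  set s : ℝ := 1 / Real.sqrt a with hs
  have hsa : 0 < Real.sqrt a := Real.sqrt_pos.mpr ha
  have hs0 : 0 < s := by positivity
  have hs2 : a * s ^ 2 = 1 := by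
    rw [hs, div_pow, Real.sq_sqrt ha.le]; field_simp
  have hsT : s ≤ T := by
    apply le_of_sq_le_sq _ hT.le
    have : a * s ^ 2 ≤ a * T ^ 2 := by rw [hs2]; exact h
    exact le_of_mul_le_mul_left this ha
  have hc : Continuous fun θ : ℝ => Real.exp (-(a * θ ^ 2)) := by fun_prop
  have h1 : ∫ θ in (-s)..s, Real.exp (-(a * θ ^ 2)) ≤ ∫ θ in (-T)..T, Real.exp (-(a * θ ^ 2)) := by
    apply intervalIntegral.integral_mono_interval (by linarith) (by linarith) hsT
    · exact Eventually.of_forall fun θ => (Real.exp_pos _).le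
    · exact hc.intervalIntegrable _ _
  have h2 : ∫ θ in (-s)..s, (1 - a * θ ^ 2) ≤ ∫ θ in (-s)..s, Real.exp (-(a * θ ^ 2)) := by
    apply intervalIntegral.integral_mono_on (by linarith)
    · exact (by fun_prop : Continuous fun θ : ℝ => 1 - a * θ ^ 2).intervalIntegrable _ _
    · exact hc.intervalIntegrable _ _
    · intro θ _
      have := Real.add_one_le_exp (-(a * θ ^ 2))
      linarith
  have h3 : ∫ θ in (-s)..s, (1 - a * θ ^ 2) = 4 / 3 * s := by
    rw [intervalIntegral.integral_sub (by simp) (by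
      exact (by fun_prop : Continuous fun θ : ℝ => a * θ ^ 2).intervalIntegrable _ _)]
    rw [intervalIntegral.integral_const_mul, integral_pow]
    simp only [intervalIntegral.integral_const, smul_eq_mul, mul_one]
    norm_num
    have : a * ((s ^ 3 - (-s) ^ 3) / 3) = 2 / 3 * s * (a * s ^ 2) := by ring
    rw [this, hs2]; ring
  calc 4 / 3 / Real.sqrt a = 4 / 3 * s := by rw [hs]; ring
    _ ≤ _ := by rw [← h3]; exact h2.trans h1

lemma gauss_upper {a T : ℝ} (ha : 0 < a) (hT : 0 < T) :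
    ∫ θ in (-T)..T, Real.exp (-(0.3 * a * θ ^ 2)) ≤ 3.24 / Real.sqrt a := by
  have hint : Integrable fun θ : ℝ => Real.exp (-(0.3 * a) * θ ^ 2) :=
    integrable_exp_neg_mul_sq (by positivity)
  have h1 : ∫ θ in (-T)..T, Real.exp (-(0.3 * a * θ ^ 2)) ≤
      ∫ θ : ℝ, Real.exp (-(0.3 * a) * θ ^ 2) := by
    rw [intervalIntegral.integral_of_le (by linarith)]
    have e : ∀ θ : ℝ, -(0.3 * a * θ ^ 2) = -(0.3 * a) * θ ^ 2 := fun θ => by ring
    simp_rw [e]
    exact setIntegral_le_integral hint (Eventually.of_forall fun θ => (Real.exp_pos _).le)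
  refine h1.trans ?_
  rw [integral_gaussian, le_div_iff₀ (Real.sqrt_pos.mpr ha), ← Real.sqrt_mul (by positivity)]
  have e : Real.pi / (0.3 * a) * a = Real.pi / 0.3 := by field_simp
  rw [e, Real.sqrt_le_left (by norm_num)]
  have := Real.pi_lt_d4
  rw [div_le_iff₀ (by norm_num)]
  norm_num at this ⊢
  linarith

/-- The numerical inequality of the end. -/
lemma final_num {x : ℝ} (hx : 100 ≤ x) :
    (24.3 ^ 2 * kap) * x ^ 3 < Real.exp (2 * (0.1068 * x)) := by
  have hk := kap_lt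
  have hk' := kap_gt
  have h1 := Real.add_one_le_exp (x / 100 - 1)
  have h2 : x ^ 3 ≤ 10 ^ 6 * Real.exp (3 * (x / 100 - 1)) := by
    have h3 : x / 100 ≤ Real.exp (x / 100 - 1) := by linarith
    calc x ^ 3 = 10 ^ 6 * (x / 100) ^ 3 := by ring
      _ ≤ 10 ^ 6 * (Real.exp (x / 100 - 1)) ^ 3 := by gcongr
      _ = _ := by
        rw [← Real.exp_nat_mul]; norm_num
  have h4 : (1.3e9 : ℝ) ≤ Real.exp 21 := by
    have h5 : (2.718281 : ℝ) ≤ Real.exp 1 := by
      have := Real.exp_one_gt_d9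
      linarith
    have h6 : Real.exp 21 = Real.exp 1 ^ 21 := by rw [← Real.exp_nat_mul]; norm_num
    rw [h6]
    calc (1.3e9 : ℝ) ≤ 2.718281 ^ 21 := by norm_num
      _ ≤ _ := by gcongr
  have h7 : Real.exp (21 + 3 * (x / 100 - 1)) ≤ Real.exp (2 * (0.1068 * x)) := by
    apply Real.exp_le_exp.mpr
    linarith
  rw [Real.exp_add] at h7
  have h8 := Real.exp_pos (3 * (x / 100 - 1))
  calc (24.3 ^ 2 * kap) * x ^ 3 ≤ (24.3 ^ 2 * 1.1171) * (10 ^ 6 * Real.exp (3 * (x / 100 - 1))) := by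
        gcongr
    _ < 1.3e9 * Real.exp (3 * (x / 100 - 1)) := by
        rw [← mul_assoc]
        apply mul_lt_mul_of_pos_right _ h8
        norm_num
    _ ≤ Real.exp 21 * Real.exp (3 * (x / 100 - 1)) := by gcongr
    _ ≤ _ := h7

lemma ii_GG (n : ℕ) {t : ℝ} (ht : 0 < t) (a b : ℝ) : IntervalIntegrable (GG n t) volume a b := by
  have hre : ∀ θ : ℝ, ((t : ℂ) - (θ : ℝ) * Complex.I).re = t := fun θ => by simp
  have hqn : ∀ θ : ℝ, ‖Complex.exp (-((t : ℂ) - (θ : ℝ) * Complex.I))‖ = Real.exp (-t) := by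
    intro θ
    rw [norm_exp_neg, hre]
  have hq1 : Real.exp (-t) < 1 := by rw [Real.exp_lt_one_iff]; linarith
  have hFm : Measurable fun θ : ℝ => Fq (Complex.exp (-((t : ℂ) - (θ : ℝ) * Complex.I))) := by
    refine measurable_of_tendsto_metrizable (f := fun N θ =>
      FPe N (Complex.exp (-((t : ℂ) - (θ : ℝ) * Complex.I)))) (fun N => ?_) ?_
    · apply Continuous.measurable
      unfold FPe
      fun_prop
    · rw [tendsto_pi_nhds]
      intro θ
      exact tendsto_FPe (by rw [hqn]; exact hq1)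
  have hGm : Measurable (GG n t) := by
    unfold GG
    apply hFm.mul
    apply Continuous.measurable
    fun_prop
  have hc : IntervalIntegrable (fun _ : ℝ => Real.exp (4 / (1 - Real.exp (-t))) * Real.exp (n * t))
    volume a b := intervalIntegrable_const
  refine hc.mono_fun hGm.aestronglyMeasurable (Eventually.of_forall fun θ => ?_)
  simp only
  rw [Real.norm_eq_abs, abs_of_pos (by positivity), GG, norm_mul]
  have h1 : ‖Fq (Complex.exp (-((t : ℂ) - (θ : ℝ) * Complex.I)))‖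
      ≤ Real.exp (4 / (1 - Real.exp (-t))) := by
    have hq := hqn θ
    set q := Complex.exp (-((t : ℂ) - (θ : ℝ) * Complex.I)) with hqdef
    refine le_of_tendsto' (tendsto_FPe (q := q) (by rw [hq]; exact hq1)).norm fun N => ?_
    have := norm_FPe_le (q := q) (by rw [hq]; exact hq1) N
    rw [hq] at this
    exact this
  have h2 : ‖Complex.exp (n * ((t : ℂ) - (θ : ℝ) * Complex.I))‖ = Real.exp (n * t) := by
    rw [Complex.norm_exp]
    congr 1
    simp
  rw [h2]
  gcongr

/-- The final comparison, with abstract parameters. -/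
lemma final_cmp {K t a : ℝ} (ha : 0 < a) (hx : 100 ≤ 1 / t) (hK : K = kap * (1 / t))
    (haa : a = kap * (1 / t) ^ 3) :
    3 * Real.exp (1.01 / t + K) * (2 * Real.pi) <
      Real.sqrt 2 / 2 * Real.exp (2 * K) * (1.1 / Real.sqrt a) := by
  have hkp := kap_gt
  have hpi := Real.pi_pos
  have hpi4 := Real.pi_lt_d4
  have hsa : 0 < Real.sqrt a := Real.sqrt_pos.mpr ha
  have hfin := final_num hx
  have f1 : 24.3 * Real.sqrt a < Real.exp (K - 1.01 / t) := by
    have g1 : (24.3 * Real.sqrt a) ^ 2 < (Real.exp (K - 1.01 / t)) ^ 2 := by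
      have g2 : (24.3 * Real.sqrt a) ^ 2 = (24.3 ^ 2 * kap) * (1 / t) ^ 3 := by
        rw [mul_pow, Real.sq_sqrt ha.le, haa]
        ring
      rw [g2, ← Real.exp_nat_mul]
      refine hfin.trans_le (Real.exp_le_exp.mpr ?_)
      have e : 1.01 / t = 1.01 * (1 / t) := by ring
      rw [hK, e]
      push_cast
      nlinarith
    exact lt_of_pow_lt_pow_left₀ 2 (Real.exp_pos _).le g1
  have f2 : Real.exp (2 * K) = Real.exp (1.01 / t + K) * Real.exp (K - 1.01 / t) := by
    rw [← Real.exp_add]; congr 1; ring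
  have hs2 : 1.414 ≤ Real.sqrt 2 := by
    apply Real.le_sqrt_of_sq_le; norm_num
  set Y : ℝ := Real.exp (1.01 / t + K) with hY
  have hY0 : 0 < Y := Real.exp_pos _
  rw [f2]
  have f4 : 24.3 < Real.exp (K - 1.01 / t) / Real.sqrt a := by
    rw [lt_div_iff₀ hsa]; exact f1
  calc 3 * Y * (2 * Real.pi) < Y * (1.414 / 2 * 1.1 * 24.3) := by nlinarith
    _ ≤ Y * (Real.sqrt 2 / 2 * 1.1 * (Real.exp (K - 1.01 / t) / Real.sqrt a)) := by gcongr
    _ = _ := by ring

/-- The difference is positive for every large index. -/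
theorem cc_pos_large {n : ℕ} (hn : 11200 ≤ n) : 0 < cc n := by
  have hkp := kap_gt
  have hkl := kap_lt
  have hpi := Real.pi_pos
  have hpi4 := Real.pi_lt_d2
  have hn0 : (11200 : ℝ) ≤ n := by exact_mod_cast hn
  have hn1 : (0 : ℝ) < n := by linarith
  set t : ℝ := Real.sqrt (kap / n) with htd
  have ht2 : t ^ 2 = kap / n := by rw [htd, Real.sq_sqrt (by positivity)]
  have ht : 0 < t := Real.sqrt_pos.mpr (by positivity)
  have hk : n * t ^ 2 = kap := by rw [ht2]; field_simp
  have hs : t ≤ 1 / 100 := by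
    apply le_of_sq_le_sq _ (by norm_num)
    rw [ht2, div_le_iff₀ hn1]
    norm_num
    linarith
  have hx : 100 ≤ 1 / t := by
    rw [le_div_iff₀ ht]; linarith
  have hKt : (n : ℝ) * t = kap / t := by rw [← hk]; field_simp
  have hK : 111 ≤ (n : ℝ) * t := by
    rw [hKt, ← mul_one_div]
    nlinarith
  have hK0 : (0 : ℝ) < (n : ℝ) * t := by linarith
  -- splitting
  have hI := coeff_integral ht n
  have hI' : ∫ θ in (-(Real.pi / 2))..(3 * Real.pi / 2), GG n t θ = 2 * Real.pi * (cc n : ℤ) := hI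
  have hi := ii_GG n ht
  have hsplit : ∫ θ in (-(Real.pi / 2))..(3 * Real.pi / 2), GG n t θ =
      (∫ θ in (-(Real.pi / 2))..(-(t / 2)), GG n t θ) + (∫ θ in (-(t / 2))..(t / 2), GG n t θ)
        + ∫ θ in (t / 2)..(3 * Real.pi / 2), GG n t θ := by
    rw [intervalIntegral.integral_add_adjacent_intervals (hi _ _) (hi _ _),
      intervalIntegral.integral_add_adjacent_intervals (hi _ _) (hi _ _)]
  set Bd : ℝ := 3 * Real.exp (1.01 / t + n * t) with hBd
  have hBd0 : 0 < Bd := by positivity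
  have hpi3 := Real.pi_gt_three
  have o1 : ‖∫ θ in (-(Real.pi / 2))..(-(t / 2)), GG n t θ‖ ≤ Bd * |-(t / 2) - -(Real.pi / 2)| := by
    apply intervalIntegral.norm_integral_le_of_norm_le_const
    intro θ hθ
    rw [Set.uIoc_of_le (by linarith)] at hθ
    apply GG_upper ht hs hk hθ.1.le (by linarith [hθ.2])
    rw [abs_of_neg (by linarith [hθ.2])]
    linarith [hθ.2]
  have o2 : ‖∫ θ in (t / 2)..(3 * Real.pi / 2), GG n t θ‖ ≤ Bd * |3 * Real.pi / 2 - t / 2| := by
    apply intervalIntegral.norm_integral_le_of_norm_le_const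
    intro θ hθ
    rw [Set.uIoc_of_le (by linarith)] at hθ
    apply GG_upper ht hs hk (by linarith [hθ.1]) hθ.2
    rw [abs_of_pos (by linarith [hθ.1])]
    exact hθ.1.le
  rw [abs_of_pos (by linarith)] at o1 o2
  have o3 : -(Bd * (-(t / 2) - -(Real.pi / 2))) ≤
      (∫ θ in (-(Real.pi / 2))..(-(t / 2)), GG n t θ).re := by
    have := Complex.abs_re_le_norm (∫ θ in (-(Real.pi / 2))..(-(t / 2)), GG n t θ)
    have h2 := abs_le.mp (this.trans o1)
    exact h2.1
  have o4 : -(Bd * (3 * Real.pi / 2 - t / 2)) ≤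
      (∫ θ in (t / 2)..(3 * Real.pi / 2), GG n t θ).re := by
    have := Complex.abs_re_le_norm (∫ θ in (t / 2)..(3 * Real.pi / 2), GG n t θ)
    have h2 := abs_le.mp (this.trans o2)
    exact h2.1
  -- the central part
  set a : ℝ := n / t with ha
  have ha0 : 0 < a := by positivity
  have hsa : 0 < Real.sqrt a := Real.sqrt_pos.mpr ha0
  have haT : 1 ≤ a * (t / 2) ^ 2 := by
    have : a * (t / 2) ^ 2 = n * t / 4 := by rw [ha]; field_simp; norm_num
    rw [this]; linarith
  have c1 : (∫ θ in (-(t / 2))..(t / 2), GG n t θ).re = ∫ θ in (-(t / 2))..(t / 2), (GG n t θ).re :=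
    (Complex.reCLM.intervalIntegral_comp_comm (hi _ _)).symm
  have c2 : ∫ θ in (-(t / 2))..(t / 2), (Real.sqrt 2 / 2 * Real.exp (2 * (n * t)) *
      (0.97 * Real.exp (-(a * θ ^ 2)) - 5.4 / (n * t) * Real.exp (-(0.3 * a * θ ^ 2))))
      ≤ ∫ θ in (-(t / 2))..(t / 2), (GG n t θ).re := by
    apply intervalIntegral.integral_mono_on (by linarith)
    · exact (by fun_prop : Continuous fun θ : ℝ => (Real.sqrt 2 / 2 * Real.exp (2 * (n * t)) *
        (0.97 * Real.exp (-(a * θ ^ 2)) - 5.4 / (n * t) *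
          Real.exp (-(0.3 * a * θ ^ 2))))).intervalIntegrable _ _
    · exact ⟨(hi _ _).1.re, (hi _ _).2.re⟩
    · intro θ hθ
      exact GG_lower ht hs hk (abs_le.mpr ⟨hθ.1, hθ.2⟩)
  have c3 : ∫ θ in (-(t / 2))..(t / 2), (Real.sqrt 2 / 2 * Real.exp (2 * (n * t)) *
      (0.97 * Real.exp (-(a * θ ^ 2)) - 5.4 / (n * t) * Real.exp (-(0.3 * a * θ ^ 2))))
      = Real.sqrt 2 / 2 * Real.exp (2 * (n * t)) *
        (0.97 * (∫ θ in (-(t / 2))..(t / 2), Real.exp (-(a * θ ^ 2))) -
          5.4 / (n * t) * ∫ θ in (-(t / 2))..(t / 2), Real.exp (-(0.3 * a * θ ^ 2))) := by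
    rw [intervalIntegral.integral_const_mul, intervalIntegral.integral_sub,
      intervalIntegral.integral_const_mul, intervalIntegral.integral_const_mul]
    · exact (by fun_prop : Continuous fun θ : ℝ =>
        0.97 * Real.exp (-(a * θ ^ 2))).intervalIntegrable _ _
    · exact (by fun_prop : Continuous fun θ : ℝ =>
        5.4 / (n * t) * Real.exp (-(0.3 * a * θ ^ 2))).intervalIntegrable _ _
  have c4 := gauss_lower ha0 (by positivity : 0 < t / 2) haT
  have c5 := gauss_upper ha0 (by positivity : 0 < t / 2)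
  have c6 : 1.1 / Real.sqrt a ≤
      0.97 * (∫ θ in (-(t / 2))..(t / 2), Real.exp (-(a * θ ^ 2))) -
          5.4 / (n * t) * ∫ θ in (-(t / 2))..(t / 2), Real.exp (-(0.3 * a * θ ^ 2)) := by
    have d1 : 5.4 / (n * t) ≤ 5.4 / 111 := by gcongr
    have d2 : 5.4 / (n * t) * (∫ θ in (-(t / 2))..(t / 2), Real.exp (-(0.3 * a * θ ^ 2)))
        ≤ 5.4 / 111 * (3.24 / Real.sqrt a) := by
      apply mul_le_mul d1 c5 _ (by norm_num)
      exact intervalIntegral.integral_nonneg (by linarith) (fun θ _ => (Real.exp_pos _).le)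
    have d3 : 0.97 * (4 / 3 / Real.sqrt a) ≤
      0.97 * (∫ θ in (-(t / 2))..(t / 2), Real.exp (-(a * θ ^ 2))) := by gcongr
    have d4 : 1.1 / Real.sqrt a ≤ 0.97 * (4 / 3 / Real.sqrt a) - 5.4 / 111 * (3.24 / Real.sqrt a) := by
      have : 0.97 * (4 / 3 / Real.sqrt a) - 5.4 / 111 * (3.24 / Real.sqrt a)
        = (0.97 * (4 / 3) - 5.4 / 111 * 3.24) / Real.sqrt a := by ring
      rw [this]
      gcongr
      norm_num
    linarith
  have c7 : Real.sqrt 2 / 2 * Real.exp (2 * (n * t)) * (1.1 / Real.sqrt a) ≤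
      (∫ θ in (-(t / 2))..(t / 2), GG n t θ).re := by
    rw [c1]
    refine le_trans ?_ c2
    rw [c3]
    gcongr
  -- final comparison
  have hre : 2 * Real.pi * (cc n : ℤ) = (∫ θ in (-(Real.pi / 2))..(-(t / 2)), GG n t θ).re
      + (∫ θ in (-(t / 2))..(t / 2), GG n t θ).re
      + (∫ θ in (t / 2)..(3 * Real.pi / 2), GG n t θ).re := by
    have h := congrArg Complex.re (hI'.symm.trans hsplit)
    rw [Complex.add_re, Complex.add_re] at h
    rw [← h]
    have : (2 * (Real.pi : ℂ) * ((cc n : ℤ) : ℂ)) = ((2 * Real.pi * (cc n : ℤ) : ℝ) : ℂ) := by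
      push_cast; rfl
    rw [this, Complex.ofReal_re]
  have f3 : Bd * (2 * Real.pi) < Real.sqrt 2 / 2 * Real.exp (2 * (n * t)) * (1.1 / Real.sqrt a) := by
    refine final_cmp ha0 hx (by rw [hKt]; ring) ?_
    rw [ha, ← hk]
    field_simp
  have f5 : Bd * (-(t / 2) - -(Real.pi / 2)) + Bd * (3 * Real.pi / 2 - t / 2) ≤ Bd * (2 * Real.pi) := by
    rw [← mul_add]
    gcongr
    linarith
  have f6 : 0 < 2 * Real.pi * (cc n : ℤ) := by
    rw [hre]; linarith
  have f7 : (0 : ℝ) < (cc n : ℤ) := by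
    by_contra hcon
    push Not at hcon
    have : 2 * Real.pi * ((cc n : ℤ) : ℝ) ≤ 0 :=
      mul_nonpos_of_nonneg_of_nonpos (by positivity) hcon
    linarith
  exact_mod_cast f7

end Pool.Agent.Helper3.OP
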