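import Mathlib.Data.Nat.Bitwise

set_option autoImplicit false

/-! Functions on natural numbers that evaluate the generating function at a power of two. -/

namespace Pool.Agent.Helper3.OP

/-- `v / (1 - X^k)` up to a high power of `X = 2^B`. -/
def geomDiv (B k m v : ℕ) : ℕ := ((v <<< (B * (k * m))) - v) / (2 ^ (B * k) - 1)

/-- One step of the recursion for Euler's coefficients. -/
def stepR (B L k r : ℕ) : ℕ :=
  (geomDiv B k ((L - k * (k + 1) / 2) / k + 1) r) % 2 ^ (B * (L - k * (k + 1) / 2))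

/-- The loop which sums Euler's series at `3` and at `1`. -/
def loop (B L : ℕ) (cont : ℕ → ℕ → Bool) (fuel : ℕ) : ℕ → ℕ → ℕ → ℕ → Bool :=
  Nat.rec (fun _ _ A D => cont A D)
    (fun _ ih k r A D => ih (k + 1) (stepR B L k r)
      (A + (3 ^ k * stepR B L k r) <<< (B * (k * (k + 1) / 2)))
      (D + stepR B L k r <<< (B * (k * (k + 1) / 2)))) fuel

/-- Newton iteration for the inverse. -/
def newton (B : ℕ) (D : ℕ) (cont : ℕ → Bool) (fuel : ℕ) : ℕ → ℕ → Bool :=
  Nat.rec (fun _ v => cont v)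
    (fun _ ih m v => ih (2 * m)
      (v * (2 ^ (B * m) + 2 - (D % 2 ^ (B * m)) * v % 2 ^ (B * m)) % 2 ^ (B * m))) fuel

/-- All digits of `W` in base `2^B` exceed `2^(B-1)`. -/
def chk (B : ℕ) (fuel : ℕ) : ℕ → ℕ → Bool :=
  Nat.rec (fun _ _ => false)
    (fun _ ih len W =>
      bif Nat.ble len 1 then Nat.blt (2 ^ (B - 1)) W else
      and (ih (len / 2) (W % 2 ^ (B * (len / 2))))
        (ih (len - len / 2) (W / 2 ^ (B * (len / 2))))) fuel

/-- The digit test. -/
def digits (B L : ℕ) (W : ℕ) : Bool := chk B 20 (L - 28) (W / 2 ^ (B * 28))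

/-- The shifted value. -/
def shifted (B L A v : ℕ) : ℕ :=
  (A * v + 2 ^ (B - 1) * ((2 ^ (B * L) - 1) / (2 ^ B - 1))) % 2 ^ (B * L)

/-- The final test for a candidate inverse. -/
def final (B L A D v : ℕ) : Bool :=
  and (Nat.beq (D * v % 2 ^ (B * L)) 1) (digits B L (shifted B L A v))

/-- The full test. -/
def mainTest (B L K s : ℕ) : Bool :=
  loop B L (fun A D => newton B (D % 2 ^ (B * L))
    (fun v => final B L (A % 2 ^ (B * L)) (D % 2 ^ (B * L)) v) s 2 1) K 1 1 1 1

end Pool.Agent.Helper3.OP
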