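import Mathlib
import Pool.Agent.Helper3.KernDef
import Pool.Agent.Helper3.Final2

set_option autoImplicit false

open Finset

namespace Pool.Agent.Helper3.OP

/-! ### The digit test -/

/-- The number with given digits. -/
def digsum (B : ℕ) (d : ℕ → ℕ) (len : ℕ) : ℕ := ∑ n ∈ range len, d n * 2 ^ (B * n)

lemma digsum_lt {B len : ℕ} {d : ℕ → ℕ} (hd : ∀ n < len, d n < 2 ^ B) :
    digsum B d len < 2 ^ (B * len) := by
  induction len with
  | zero => simp [digsum]
  | succ m ih =>
    have h1 := ih (fun n hn => hd n (by omega))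
    have h2 := hd m (by omega)
    unfold digsum at *
    rw [sum_range_succ]
    have h3 : (d m + 1) * 2 ^ (B * m) ≤ 2 ^ B * 2 ^ (B * m) := Nat.mul_le_mul_right _ h2
    have h4 : 2 ^ (B * (m + 1)) = 2 ^ B * 2 ^ (B * m) := by rw [← pow_add]; congr 1; ring
    rw [h4]
    calc _ < 2 ^ (B * m) + d m * 2 ^ (B * m) := by omega
      _ = (d m + 1) * 2 ^ (B * m) := by ring
      _ ≤ _ := h3

lemma digsum_add (B : ℕ) (d : ℕ → ℕ) (h m : ℕ) :
    digsum B d (h + m) = digsum B d h + 2 ^ (B * h) * digsum B (fun n => d (h + n)) m := by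
  unfold digsum
  rw [sum_range_add, mul_sum]
  congr 1
  refine sum_congr rfl fun n _ => ?_
  rw [mul_add, pow_add]
  ring

lemma digsum_mod {B h m : ℕ} {d : ℕ → ℕ} (hd : ∀ n < h + m, d n < 2 ^ B) :
    digsum B d (h + m) % 2 ^ (B * h) = digsum B d h := by
  rw [digsum_add, Nat.add_mul_mod_self_left]
  exact Nat.mod_eq_of_lt (digsum_lt fun n hn => hd n (by omega))

lemma digsum_div {B h m : ℕ} {d : ℕ → ℕ} (hd : ∀ n < h + m, d n < 2 ^ B) :
    digsum B d (h + m) / 2 ^ (B * h) = digsum B (fun n => d (h + n)) m := by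
  rw [digsum_add, Nat.add_mul_div_left _ _ (by positivity),
    Nat.div_eq_of_lt (digsum_lt fun n hn => hd n (by omega)), zero_add]

lemma chk_succ (B fuel len W : ℕ) : chk B (fuel + 1) len W =
    (bif Nat.ble len 1 then Nat.blt (2 ^ (B - 1)) W else
      and (chk B fuel (len / 2) (W % 2 ^ (B * (len / 2))))
        (chk B fuel (len - len / 2) (W / 2 ^ (B * (len / 2))))) := rfl

lemma chk_sound {B : ℕ} : ∀ (fuel len : ℕ) (d : ℕ → ℕ), (∀ n < len, d n < 2 ^ B) →
    chk B fuel len (digsum B d len) = true → ∀ n < len, 2 ^ (B - 1) < d n := by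
  intro fuel
  induction fuel with
  | zero => intro len d _ h; exact absurd h (by simp [chk])
  | succ fuel ih =>
    intro len d hd h n hn
    rw [chk_succ] at h
    by_cases hl : len ≤ 1
    · have hlen : len = 1 := by omega
      subst hlen
      have hn0 : n = 0 := by omega
      subst hn0
      rw [show Nat.ble 1 1 = true from rfl, cond_true] at h
      have h2 : digsum B d 1 = d 0 := by simp [digsum]
      rw [h2] at h
      exact Nat.le_of_ble_eq_true h
    · have hb : Nat.ble len 1 = false := by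
        rw [← Bool.not_eq_true]
        intro hc
        exact hl (Nat.le_of_ble_eq_true hc)
      rw [hb, cond_false] at h
      have hsplit : len = len / 2 + (len - len / 2) := by omega
      have hd' : ∀ n < len / 2 + (len - len / 2), d n < 2 ^ B := by rw [← hsplit]; exact hd
      have e1 : digsum B d len % 2 ^ (B * (len / 2)) = digsum B d (len / 2) := by
        conv_lhs => rw [hsplit]
        have := digsum_mod hd'
        rw [← hsplit] at this ⊢
        exact this
      have e2 : digsum B d len / 2 ^ (B * (len / 2))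
          = digsum B (fun n => d (len / 2 + n)) (len - len / 2) := by
        have := digsum_div hd'
        rw [← hsplit] at this
        exact this
      rw [e1, e2, Bool.and_eq_true] at h
      by_cases hnl : n < len / 2
      · exact ih _ _ (fun m hm => hd m (by omega)) h.1 n hnl
      · have := ih _ _ (fun m hm => hd (len / 2 + m) (by omega)) h.2 (n - len / 2) (by omega)
        rwa [show len / 2 + (n - len / 2) = n by omega] at this

/-! ### Euler's expansion in a ring where `x` is nilpotent -/

section ring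

variable {R : Type*} [CommRing R]

open Polynomial in
lemma euler_exists (x : R) (N : ℕ) (hx : x ^ (N + 1) = 0) :
    ∃ p : ℕ → R, p 0 = 1 ∧ (∀ k, p (k + 1) * (1 - x ^ (k + 1)) = x ^ (k + 1) * p k) ∧
      ∀ z : R, ∏ j ∈ range N, (1 + z * x ^ (j + 1)) = ∑ k ∈ range (N + 1), p k * z ^ k := by
  set P : R[X] := ∏ j ∈ range N, (1 + C (x ^ (j + 1)) * X) with hP
  have hfun : P.comp (C x * X) * (1 + C x * X) = P := by
    have h1 : P.comp (C x * X) = ∏ j ∈ range N, (1 + C (x ^ (j + 1 + 1)) * X) := by
      rw [hP, Polynomial.prod_comp]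
      refine prod_congr rfl fun j _ => ?_
      rw [Polynomial.add_comp, Polynomial.mul_comp, Polynomial.one_comp, Polynomial.C_comp,
        Polynomial.X_comp, ← mul_assoc, ← C_mul, ← pow_succ]
    have h2 : (∏ j ∈ range N, (1 + C (x ^ (j + 1 + 1)) * X)) * (1 + C x * X)
        = ∏ j ∈ range (N + 1), (1 + C (x ^ (j + 1)) * X) := by
      rw [prod_range_succ']
      simp
    rw [h1, h2, prod_range_succ, hx]
    simp [hP]
  refine ⟨fun k => P.coeff k, ?_, ?_, ?_⟩
  · change P.coeff 0 = 1
    rw [Polynomial.coeff_zero_eq_eval_zero, hP, Polynomial.eval_prod]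
    simp
  · intro k
    have h : (P.comp (C x * X) * (1 + C x * X)).coeff (k + 1) = P.coeff (k + 1) := by rw [hfun]
    rw [mul_add, mul_one, Polynomial.coeff_add, ← mul_assoc, Polynomial.coeff_mul_X,
      Polynomial.coeff_mul_C, Polynomial.comp_C_mul_X_coeff, Polynomial.comp_C_mul_X_coeff] at h
    linear_combination -h
  · intro z
    have h1 : P.eval z = ∏ j ∈ range N, (1 + z * x ^ (j + 1)) := by
      rw [hP, Polynomial.eval_prod]
      refine prod_congr rfl fun j _ => ?_
      simp [mul_comm]
    have h2 : P.natDegree < N + 1 := by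
      have h3 : P.natDegree ≤ ∑ j ∈ range N, (1 + C (x ^ (j + 1)) * X : R[X]).natDegree :=
        Polynomial.natDegree_prod_le _ _
      have h4 : ∑ j ∈ range N, (1 + C (x ^ (j + 1)) * X : R[X]).natDegree ≤ ∑ j ∈ range N, 1 := by
        refine sum_le_sum fun j _ => ?_
        refine (Polynomial.natDegree_add_le _ _).trans ?_
        rw [Polynomial.natDegree_one]
        refine max_le (by omega) ?_
        refine (Polynomial.natDegree_mul_le).trans ?_
        rw [Polynomial.natDegree_C, zero_add]
        exact Polynomial.natDegree_X_le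
      rw [sum_const, card_range, smul_eq_mul, mul_one] at h4
      omega
    rw [← h1, Polynomial.eval_eq_sum_range' h2]

lemma prod_two_mul (f : ℕ → R) (N : ℕ) :
    ∏ j ∈ range (2 * N), f j = (∏ j ∈ range N, f (2 * j)) * ∏ j ∈ range N, f (2 * j + 1) := by
  induction N with
  | zero => simp
  | succ N ih =>
    rw [show 2 * (N + 1) = 2 * N + 1 + 1 by ring, prod_range_succ, prod_range_succ, ih,
      prod_range_succ, prod_range_succ]
    ring

lemma isUnit_one_sub_pow {x : R} {L : ℕ} (hx : x ^ L = 0) (k : ℕ) : IsUnit (1 - x ^ (k + 1)) := by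
  apply IsNilpotent.isUnit_one_sub
  refine ⟨L, ?_⟩
  rw [← pow_mul, mul_comm, pow_mul, hx, zero_pow (by omega)]

lemma odd_mul_all {x : R} {N : ℕ} (hx : x ^ (N + 1) = 0) :
    (∏ j ∈ range N, (1 - x ^ (2 * j + 1))) * ∏ j ∈ range N, (1 + x ^ (j + 1)) = 1 := by
  have hu : IsUnit (∏ j ∈ range N, (1 - x ^ (j + 1))) := by
    rw [IsUnit.prod_iff]
    intro j _
    exact isUnit_one_sub_pow hx j
  have h1 : (∏ j ∈ range N, (1 + x ^ (j + 1))) * (∏ j ∈ range N, (1 - x ^ (j + 1)))
      = ∏ j ∈ range N, (1 - x ^ (2 * j + 1 + 1)) := by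
    rw [← prod_mul_distrib]
    refine prod_congr rfl fun j _ => ?_
    ring
  have h2 := prod_two_mul (fun j => 1 - x ^ (j + 1)) N
  have h3 : ∏ j ∈ range (2 * N), (1 - x ^ (j + 1)) = ∏ j ∈ range N, (1 - x ^ (j + 1)) := by
    rw [two_mul, prod_range_add]
    have : ∏ j ∈ range N, (1 - x ^ (N + j + 1)) = 1 := by
      apply prod_eq_one
      intro j _
      rw [show N + j + 1 = N + 1 + j by ring, pow_add, hx, zero_mul, sub_zero]
    rw [this, mul_one]
  rw [h3] at h2
  apply hu.mul_right_cancel
  rw [mul_assoc, h1, ← h2, one_mul]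

end ring

end Pool.Agent.Helper3.OP
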