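import Mathlib
import Pool.Agent.Helper3.Kern2
import Pool.Agent.Helper3.Conj

set_option autoImplicit false

open Finset

namespace Pool.Agent.Helper3.OP

open PowerSeries
open scoped PowerSeries.WithPiTopology

/-- The weight of a part with its multiplicity. -/
def wt (_i c : ℕ) : ℤ := (-2) * (-1) ^ c

/-- The factor of the generating function. -/
noncomputable def gfac (i : ℕ) : ℤ⟦X⟧ := 1 + ∑' j, wt (i + 1) (j + 1) • X ^ ((i + 1) * (j + 1))

lemma gfac_mul (i : ℕ) : (1 + X ^ (i + 1)) * gfac i = 1 + 3 * X ^ (i + 1) := by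
  have hs := Nat.Partition.summable_genFun_term wt i
  set S : ℤ⟦X⟧ := ∑' j, wt (i + 1) (j + 1) • X ^ ((i + 1) * (j + 1)) with hS
  have h0 : S = wt (i + 1) (0 + 1) • (X : ℤ⟦X⟧) ^ ((i + 1) * (0 + 1)) +
      ∑' j, wt (i + 1) (j + 1 + 1) • (X : ℤ⟦X⟧) ^ ((i + 1) * (j + 1 + 1)) := hs.tsum_eq_zero_add
  have h1 : S = 2 * X ^ (i + 1) - X ^ (i + 1) * S := by
    have h2 : wt (i + 1) (0 + 1) • (X : ℤ⟦X⟧) ^ ((i + 1) * (0 + 1)) = 2 * X ^ (i + 1) := by
      simp [wt]
    have h3 : ∑' j, wt (i + 1) (j + 1 + 1) • (X : ℤ⟦X⟧) ^ ((i + 1) * (j + 1 + 1))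
        = (-X ^ (i + 1)) * S := by
      refine Eq.trans ?_ (hs.tsum_mul_left (-X ^ (i + 1)))
      refine tsum_congr fun j => ?_
      simp only [wt, zsmul_eq_mul]
      push_cast
      ring
    rw [h2, h3] at h0
    linear_combination h0
  have h4 : gfac i = 1 + S := rfl
  rw [h4]
  linear_combination h1

lemma coeff_eq_cc (n : ℕ) {N : ℕ} (h : n ≤ N) :
    PowerSeries.coeff n (∏ i ∈ range N, gfac i) = cc n := by
  set I : Ideal ℤ⟦X⟧ := Ideal.span {(X : ℤ⟦X⟧) ^ (N + 1)} with hI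
  set x : ℤ⟦X⟧ ⧸ I := Ideal.Quotient.mk I X with hx
  have hx0 : x ^ (N + 1) = 0 := by
    rw [hx, ← map_pow]
    exact Ideal.Quotient.eq_zero_iff_mem.mpr (Ideal.mem_span_singleton_self _)
  have h1 : (∏ i ∈ range N, gfac i) * (∏ i ∈ range N, (1 + (X : ℤ⟦X⟧) ^ (i + 1)))
      = ∏ i ∈ range N, (1 + 3 * (X : ℤ⟦X⟧) ^ (i + 1)) := by
    rw [← prod_mul_distrib]
    refine prod_congr rfl fun i _ => ?_
    rw [mul_comm, gfac_mul]
  have h2 := odd_mul_all hx0
  have h3 : Ideal.Quotient.mk I (∏ i ∈ range N, (1 + (X : ℤ⟦X⟧) ^ (i + 1)))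
      = ∏ i ∈ range N, (1 + x ^ (i + 1)) := by
    rw [map_prod]; refine prod_congr rfl fun i _ => ?_; simp [hx]
  have h4 : Ideal.Quotient.mk I (∏ i ∈ range N, (1 - (X : ℤ⟦X⟧) ^ (2 * i + 1)))
      = ∏ i ∈ range N, (1 - x ^ (2 * i + 1)) := by
    rw [map_prod]; refine prod_congr rfl fun i _ => ?_; simp [hx]
  have h5 : (((FP N : Polynomial ℤ)) : ℤ⟦X⟧)
      = (∏ i ∈ range N, (1 + 3 * (X : ℤ⟦X⟧) ^ (i + 1))) *
        ∏ i ∈ range N, (1 - (X : ℤ⟦X⟧) ^ (2 * i + 1)) := by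
    have e3 : ((3 : Polynomial ℤ) : ℤ⟦X⟧) = 3 := by
      have := map_ofNat (Polynomial.coeToPowerSeries.ringHom (R := ℤ)) 3
      exact this
    have : (((FP N : Polynomial ℤ)) : ℤ⟦X⟧) = Polynomial.coeToPowerSeries.ringHom (FP N) := rfl
    rw [this, FP, map_mul, map_prod, map_prod]
    congr 1
    · refine prod_congr rfl fun i _ => ?_
      rw [map_add, map_mul, map_one, map_pow]
      simp [e3]
    · refine prod_congr rfl fun i _ => ?_
      rw [map_sub, map_one, map_pow]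
      simp
  have h6 : Ideal.Quotient.mk I (∏ i ∈ range N, gfac i) = Ideal.Quotient.mk I (FP N : ℤ⟦X⟧) := by
    rw [h5, map_mul, ← h1, map_mul, h3, h4]
    rw [mul_assoc, mul_comm (∏ i ∈ range N, (1 + x ^ (i + 1))), h2, mul_one]
  rw [Ideal.Quotient.eq, Ideal.mem_span_singleton, PowerSeries.X_pow_dvd_iff] at h6
  have h7 := h6 n (by omega)
  rw [map_sub, Polynomial.coeff_coe, coeff_FP h, sub_eq_zero] at h7
  exact h7

lemma genFun_coeff (n : ℕ) : (Nat.Partition.genFun wt).coeff n = cc n := by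
  have h := (Nat.Partition.hasProd_genFun wt).tendsto_prod_nat
  rw [WithPiTopology.tendsto_iff_coeff_tendsto] at h
  have h1 := h n
  have h2 : Filter.Tendsto (fun N => PowerSeries.coeff n (∏ i ∈ range N, gfac i)) Filter.atTop
      (nhds (cc n)) := by
    refine tendsto_const_nhds.congr' ?_
    filter_upwards [Filter.eventually_ge_atTop n] with N hN
    rw [coeff_eq_cc n hN]
  exact tendsto_nhds_unique h1 h2

lemma sum_weight (n : ℕ) :
    ∑ p : Nat.Partition n, ((-1 : ℤ) ^ p.parts.card * (-2) ^ p.parts.toFinset.card) = cc n := by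
  rw [← genFun_coeff, Nat.Partition.coeff_genFun]
  refine sum_congr rfl fun p _ => ?_
  rw [Finsupp.prod, Multiset.toFinsupp_support]
  simp only [Multiset.toFinsupp_apply, wt]
  rw [prod_mul_distrib, prod_const, prod_pow_eq_pow_sum, Multiset.toFinset_sum_count_eq, mul_comm]

lemma sum_weight_sup (n : ℕ) :
    ∑ p : Nat.Partition n, ((-1 : ℤ) ^ p.parts.sup * (-2) ^ p.parts.toFinset.card) = cc n := by
  rw [sum_conj, sum_weight]

end Pool.Agent.Helper3.OP
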