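import Mathlib
import Pool.Agent.Helper3.Kern2

set_option autoImplicit false

open Finset

namespace Pool.Agent.Helper3.OP

/-- Triangular numbers, in the form used by the program. -/
def tri (k : ℕ) : ℕ := k * (k + 1) / 2

lemma tri_succ (k : ℕ) : tri (k + 1) = tri k + (k + 1) := by
  unfold tri
  rw [show (k + 1) * (k + 1 + 1) = k * (k + 1) + (k + 1) * 2 by ring,
    Nat.add_mul_div_right _ _ (by norm_num)]

lemma geomDiv_eq {B k m v : ℕ} (hk : 0 < B * k) :
    geomDiv B k m v = v * ∑ i ∈ range m, (2 ^ (B * k)) ^ i := by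
  have h2 : 2 ≤ 2 ^ (B * k) := by
    calc 2 = 2 ^ 1 := by norm_num
      _ ≤ _ := Nat.pow_le_pow_right (by norm_num) hk
  unfold geomDiv
  rw [Nat.shiftLeft_eq]
  have h3 : (∑ i ∈ range m, (2 ^ (B * k)) ^ i) * (2 ^ (B * k) - 1) + 1 = (2 ^ (B * k)) ^ m := by
    have h4 := geom_sum_mul ((2 : ℤ) ^ (B * k)) m
    zify [show 1 ≤ 2 ^ (B * k) by omega]
    linarith
  have h5 : v * 2 ^ (B * (k * m)) - v
      = v * (∑ i ∈ range m, (2 ^ (B * k)) ^ i) * (2 ^ (B * k) - 1) := by
    have h6 : 2 ^ (B * (k * m)) = (2 ^ (B * k)) ^ m := by rw [← pow_mul]; congr 1; ring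
    rw [h6, ← h3]
    rw [mul_add, mul_one, Nat.add_sub_cancel, mul_assoc]
  rw [h5, Nat.mul_div_cancel _ (by omega)]

variable {R : Type*} [CommRing R]

lemma stepR_cast {B L : ℕ} (hB : 0 < B) (hx : ((2 : R) ^ B) ^ L = 0) (k r : ℕ) :
    ((stepR B L (k + 1) r : ℕ) : R) * ((2 : R) ^ B) ^ tri (k + 1) * (1 - ((2 : R) ^ B) ^ (k + 1))
      = r * ((2 : R) ^ B) ^ tri (k + 1) := by
  set x : R := (2 : R) ^ B with hxd
  set T := tri (k + 1) with hT
  have hT' : (k + 1) * (k + 1 + 1) / 2 = T := rfl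
  by_cases hTL : L ≤ T
  · have : x ^ T = 0 := by
      obtain ⟨s, hs⟩ := Nat.exists_eq_add_of_le hTL
      rw [hs, pow_add, hx, zero_mul]
    rw [this]; ring
  · push Not at hTL
    set m := (L - T) / (k + 1) + 1 with hm
    have hkm : L - T < (k + 1) * m := Nat.lt_mul_div_succ _ (by omega)
    have hg := geomDiv_eq (B := B) (k := k + 1) (m := m) (v := r) (by positivity)
    have hst : stepR B L (k + 1) r = (geomDiv B (k + 1) m r) % 2 ^ (B * (L - T)) := rfl
    set g := geomDiv B (k + 1) m r with hgd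
    have hdm : ((g : ℕ) : R) = ((2 ^ (B * (L - T)) : ℕ) : R) * ((g / 2 ^ (B * (L - T)) : ℕ) : R)
        + ((stepR B L (k + 1) r : ℕ) : R) := by
      rw [hst, ← Nat.cast_mul, ← Nat.cast_add, Nat.div_add_mod]
    have hc1 : ((2 ^ (B * (L - T)) : ℕ) : R) = x ^ (L - T) := by
      rw [hxd, ← pow_mul]; push_cast; rfl
    have hc2 : x ^ (L - T) * x ^ T = 0 := by
      rw [← pow_add, show L - T + T = L by omega, hx]
    have hgc : ((g : ℕ) : R) = r * ∑ i ∈ range m, (x ^ (k + 1)) ^ i := by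
      rw [hg, hxd]
      push_cast
      simp only [← pow_mul]
    have hgs := geom_sum_mul_neg (x ^ (k + 1)) m
    have hz : x ^ T * (x ^ (k + 1)) ^ m = 0 := by
      rw [← pow_mul x (k + 1) m, ← pow_add]
      obtain ⟨s, hs⟩ := Nat.exists_eq_add_of_le (show L ≤ T + (k + 1) * m by omega)
      rw [hs, pow_add, hx, zero_mul]
    have e1 : ((stepR B L (k + 1) r : ℕ) : R) = g - x ^ (L - T) * ((g / 2 ^ (B * (L - T)) : ℕ) : R) := by
      rw [hdm, hc1]; ring
    rw [e1, hgc]
    have e2 : x ^ (L - T) * ((g / 2 ^ (B * (L - T)) : ℕ) : R) * x ^ T = 0 := by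
      rw [mul_right_comm, hc2, zero_mul]
    linear_combination (-(1 - x ^ (k + 1))) * e2 + (r : R) * x ^ T * hgs - (r : R) * hz

lemma loop_zero (B L : ℕ) (cont : ℕ → ℕ → Bool) (k r A D : ℕ) :
    loop B L cont 0 k r A D = cont A D := rfl

lemma loop_succ (B L : ℕ) (cont : ℕ → ℕ → Bool) (fuel k r A D : ℕ) :
    loop B L cont (fuel + 1) k r A D = loop B L cont fuel (k + 1) (stepR B L k r)
      (A + (3 ^ k * stepR B L k r) <<< (B * (k * (k + 1) / 2)))
      (D + stepR B L k r <<< (B * (k * (k + 1) / 2))) := rfl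

lemma loop_sound {B L : ℕ} (hB : 0 < B) (hx : ((2 : R) ^ B) ^ L = 0) (p : ℕ → R)
    (hp : ∀ k, p (k + 1) * (1 - ((2 : R) ^ B) ^ (k + 1)) = ((2 : R) ^ B) ^ (k + 1) * p k)
    (cont : ℕ → ℕ → Bool) : ∀ (fuel k r A D : ℕ),
    (r : R) * ((2 : R) ^ B) ^ tri k = p k → (A : R) = ∑ i ∈ range (k + 1), p i * 3 ^ i →
    (D : R) = ∑ i ∈ range (k + 1), p i * 1 ^ i → loop B L cont fuel (k + 1) r A D = true →
    ∃ A' D' : ℕ, (A' : R) = ∑ i ∈ range (k + fuel + 1), p i * 3 ^ i ∧
      (D' : R) = ∑ i ∈ range (k + fuel + 1), p i * 1 ^ i ∧ cont A' D' = true := by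
  intro fuel
  induction fuel with
  | zero =>
    intro k r A D _ hA hD h
    exact ⟨A, D, hA, hD, h⟩
  | succ fuel ih =>
    intro k r A D hr hA hD h
    rw [loop_succ] at h
    have hs := stepR_cast hB hx k r
    set r' := stepR B L (k + 1) r with hr'
    have hT' : (k + 1) * (k + 1 + 1) / 2 = tri (k + 1) := rfl
    rw [hT'] at h
    have hr2 : (r' : R) * ((2 : R) ^ B) ^ tri (k + 1) = p (k + 1) := by
      apply (isUnit_one_sub_pow hx k).mul_right_cancel
      rw [hs, hp, ← hr, tri_succ, pow_add]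
      ring
    have hA2 : ((A + (3 ^ (k + 1) * r') <<< (B * tri (k + 1)) : ℕ) : R)
        = ∑ i ∈ range (k + 1 + 1), p i * 3 ^ i := by
      rw [sum_range_succ, Nat.shiftLeft_eq, Nat.cast_add, hA, ← hr2]
      congr 1
      push_cast
      rw [← pow_mul]
      ring
    have hD2 : ((D + r' <<< (B * tri (k + 1)) : ℕ) : R)
        = ∑ i ∈ range (k + 1 + 1), p i * 1 ^ i := by
      rw [sum_range_succ, Nat.shiftLeft_eq, Nat.cast_add, hD, ← hr2]
      congr 1
      push_cast
      rw [← pow_mul]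
      ring
    obtain ⟨A', D', h1, h2, h3⟩ := ih (k + 1) r' _ _ hr2 hA2 hD2 h
    refine ⟨A', D', ?_, ?_, h3⟩
    · rw [h1]; congr 2; ring
    · rw [h2]; congr 2; ring

lemma newton_succ (B D : ℕ) (cont : ℕ → Bool) (fuel m v : ℕ) :
    newton B D cont (fuel + 1) m v = newton B D cont fuel (2 * m)
      (v * (2 ^ (B * m) + 2 - (D % 2 ^ (B * m)) * v % 2 ^ (B * m)) % 2 ^ (B * m)) := rfl

lemma newton_sound {B D : ℕ} (cont : ℕ → Bool) : ∀ (fuel m v : ℕ),
    newton B D cont fuel m v = true → ∃ v' : ℕ, cont v' = true := by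
  intro fuel
  induction fuel with
  | zero => intro m v h; exact ⟨v, h⟩
  | succ fuel ih => intro m v h; rw [newton_succ] at h; exact ih _ _ h

/-- The value of `FP N` at a nilpotent element. -/
lemma FP_value {x : R} {L : ℕ} (hx : x ^ L = 0) :
    (∏ j ∈ range L, (1 + 3 * x ^ (j + 1))) * (∏ j ∈ range L, (1 - x ^ (2 * j + 1)))
      = ∑ n ∈ range L, ((cc n : ℤ) : R) * x ^ n := by
  have h1 : Polynomial.aeval x (FP L) =
      (∏ j ∈ range L, (1 + 3 * x ^ (j + 1))) * (∏ j ∈ range L, (1 - x ^ (2 * j + 1))) := by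
    rw [FP, map_mul, map_prod, map_prod]
    have h3 : Polynomial.aeval x (3 : Polynomial ℤ) = (3 : R) := by
      have := map_ofNat (Polynomial.aeval (R := ℤ) x) 3
      exact this
    congr 1
    · refine prod_congr rfl fun j _ => ?_
      rw [map_add, map_mul, map_one, h3, map_pow, Polynomial.aeval_X]
    · refine prod_congr rfl fun j _ => ?_
      simp
  rw [← h1, Polynomial.aeval_eq_sum_range' (n := L + ((FP L).natDegree + 1)) (by omega),
    sum_range_add]
  have h2 : ∑ n ∈ range ((FP L).natDegree + 1), (FP L).coeff (L + n) • x ^ (L + n) = 0 := by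
    apply sum_eq_zero
    intro n _
    rw [pow_add, hx, zero_mul, smul_zero]
  rw [h2, add_zero]
  refine sum_congr rfl fun n hn => ?_
  rw [coeff_FP (by simpa using (mem_range.mp hn).le), zsmul_eq_mul]

theorem mainTest_sound {B L K s : ℕ} (hB : 1 < B) (hL : 28 ≤ L)
    (hKL : K ≤ L) (hK : L ≤ tri (K + 1)) (hb : ∀ n < L, |cc n| < 2 ^ (B - 1))
    (h : mainTest B L K s = true) : ∀ n, 28 ≤ n → n < L → 0 < cc n := by
  classical
  set M : ℕ := 2 ^ (B * L) with hM
  have hM0 : 1 < M := Nat.one_lt_two_pow (by positivity)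
  have : NeZero M := ⟨by omega⟩
  set x : ZMod M := (2 : ZMod M) ^ B with hxd
  have hx : x ^ L = 0 := by
    rw [hxd, ← pow_mul]
    have : ((M : ℕ) : ZMod M) = 0 := ZMod.natCast_self M
    rw [hM] at this
    push_cast at this
    exact this
  have hx1 : x ^ (L + 1) = 0 := by rw [pow_succ, hx, zero_mul]
  obtain ⟨p, hp0, hp1, hp2⟩ := euler_exists x L hx1
  -- vanishing of the later coefficients
  have hpz : ∀ k, K < k → p k = 0 := by
    have hform : ∀ k, (∏ j ∈ range k, (1 - x ^ (j + 1))) * p k = x ^ tri k := by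
      intro k
      induction k with
      | zero => simp [hp0, tri]
      | succ k ih =>
        rw [prod_range_succ, mul_assoc, mul_comm (1 - x ^ (k + 1)), hp1, tri_succ,
          pow_add x (tri k), ← ih]
        ring
    intro k hk
    have hu : IsUnit (∏ j ∈ range k, (1 - x ^ (j + 1))) := by
      rw [IsUnit.prod_iff]
      intro j _
      exact isUnit_one_sub_pow hx1 j
    have hmono : tri (K + 1) ≤ tri k := by
      have : Monotone tri := monotone_nat_of_le_succ fun n => by rw [tri_succ]; omega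
      exact this hk
    have hz : x ^ tri k = 0 := by
      obtain ⟨s, hs⟩ := Nat.exists_eq_add_of_le (hK.trans hmono)
      rw [hs, pow_add, hx, zero_mul]
    have := hform k
    rw [hz] at this
    exact (hu.mul_right_eq_zero).mp this
  have hsum : ∀ z : ZMod M, ∑ i ∈ range (K + 1), p i * z ^ i
      = ∏ j ∈ range L, (1 + z * x ^ (j + 1)) := by
    intro z
    rw [hp2]
    apply sum_subset
    · intro i hi
      rw [mem_range] at *
      omega
    · intro i _ hi
      rw [mem_range] at hi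
      rw [hpz i (by omega), zero_mul]
  -- run the program
  unfold mainTest at h
  obtain ⟨A, D, hA, hD, h2⟩ := loop_sound (R := ZMod M) (by omega) hx p hp1 _ K 0 1 1 1
    (by simp [tri, hp0]) (by simp [hp0]) (by simp [hp0]) h
  obtain ⟨v, hv⟩ := newton_sound _ _ _ _ h2
  unfold final at hv
  rw [Bool.and_eq_true] at hv
  obtain ⟨hv1, hv2⟩ := hv
  have hcast : ∀ a : ℕ, ((a % 2 ^ (B * L) : ℕ) : ZMod M) = (a : ZMod M) := fun a =>
    ZMod.natCast_mod a M
  have hv1' : (D : ZMod M) * v = 1 := by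
    have h3 := Nat.eq_of_beq_eq_true hv1
    have h4 : ((D % 2 ^ (B * L) * v % 2 ^ (B * L) : ℕ) : ZMod M) = ((1 : ℕ) : ZMod M) := by rw [h3]
    rw [hcast, Nat.cast_mul, hcast, Nat.cast_one] at h4
    exact h4
  rw [zero_add, hsum 3] at hA
  rw [zero_add, hsum 1] at hD
  simp only [one_mul] at hD
  have hodd := odd_mul_all hx1
  rw [← hD] at hodd
  have hvO : (v : ZMod M) = ∏ j ∈ range L, (1 - x ^ (2 * j + 1)) := by
    calc (v : ZMod M) = ((∏ j ∈ range L, (1 - x ^ (2 * j + 1))) * (D : ZMod M)) * v := by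
          rw [hodd, one_mul]
      _ = (∏ j ∈ range L, (1 - x ^ (2 * j + 1))) * ((D : ZMod M) * v) := by ring
      _ = _ := by rw [hv1', mul_one]
  have hAv : (A : ZMod M) * v = ∑ n ∈ range L, ((cc n : ℤ) : ZMod M) * x ^ n := by
    rw [hA, hvO, FP_value hx]
  -- digits
  set d : ℕ → ℕ := fun n => (cc n + 2 ^ (B - 1)).toNat with hd
  have hdc : ∀ n < L, ((d n : ℕ) : ℤ) = cc n + 2 ^ (B - 1) := by
    intro n hn
    rw [hd]
    apply Int.toNat_of_nonneg
    have := (abs_lt.mp (hb n hn)).1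
    linarith
  have h2B : (2 : ℤ) ^ B = 2 ^ (B - 1) + 2 ^ (B - 1) := by
    have : (2 : ℤ) ^ B = 2 ^ (B - 1 + 1) := by congr 1; omega
    rw [this, pow_succ]; ring
  have hdlt : ∀ n < L, d n < 2 ^ B := by
    intro n hn
    have h3 := hdc n hn
    have := (abs_lt.mp (hb n hn)).2
    zify
    rw [h3, h2B]
    linarith
  set W : ℕ := shifted B L (A % 2 ^ (B * L)) v with hW
  have hWlt : W < 2 ^ (B * L) := Nat.mod_lt _ (by positivity)
  have hoff : (2 ^ (B * L) - 1) / (2 ^ B - 1) = ∑ i ∈ range L, (2 ^ B) ^ i := by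
    have h2 : 2 ≤ 2 ^ B := by
      calc 2 = 2 ^ 1 := by norm_num
        _ ≤ _ := Nat.pow_le_pow_right (by norm_num) (by omega)
    rw [Nat.geomSum_eq h2, ← pow_mul]
  have hWc : (W : ZMod M) = ((digsum B d L : ℕ) : ZMod M) := by
    have h3 : (W : ZMod M) = (A : ZMod M) * v + 2 ^ (B - 1) * ∑ i ∈ range L, x ^ i := by
      rw [hW]
      unfold shifted
      rw [hcast, Nat.cast_add, Nat.cast_mul, hcast, hoff]
      push_cast
      rfl
    rw [h3, hAv, mul_sum, ← sum_add_distrib, digsum]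
    push_cast
    refine sum_congr rfl fun n hn => ?_
    have h4 : (((d n : ℕ) : ℤ) : ZMod M) = ((cc n + 2 ^ (B - 1) : ℤ) : ZMod M) := by
      rw [hdc n (mem_range.mp hn)]
    push_cast at h4
    rw [h4, hxd, ← pow_mul]
    ring
  have hWd : W = digsum B d L := by
    have h3 := (ZMod.natCast_eq_natCast_iff' _ _ _).mp hWc
    rwa [Nat.mod_eq_of_lt hWlt, Nat.mod_eq_of_lt (digsum_lt hdlt)] at h3
  unfold digits at hv2
  rw [hWd] at hv2
  have hL' : L = 28 + (L - 28) := by omega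
  have hdiv : digsum B d L / 2 ^ (B * 28) = digsum B (fun n => d (28 + n)) (L - 28) := by
    have := digsum_div (B := B) (h := 28) (m := L - 28) (d := d) (by rw [← hL']; exact hdlt)
    rwa [← hL'] at this
  rw [hdiv] at hv2
  have hfin := chk_sound 20 (L - 28) (fun n => d (28 + n)) (fun n hn => hdlt _ (by omega)) hv2
  intro n hn1 hn2
  have h5 := hfin (n - 28) (by omega)
  rw [show 28 + (n - 28) = n by omega] at h5
  have h6 := hdc n hn2
  zify at h5
  rw [h6] at h5
  linarith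

end Pool.Agent.Helper3.OP
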