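import Mathlib
import Pool.Agent.Helper3.Kern3

set_option autoImplicit false

open Finset

namespace Pool.Agent.Helper3.OP

lemma norm_GG_le (n : ℕ) {t : ℝ} (ht : 0 < t) (θ : ℝ) :
    ‖GG n t θ‖ ≤ Real.exp (4 * (1 / t + 1) + n * t) := by
  have hre : ∀ θ : ℝ, ((t : ℂ) - (θ : ℝ) * Complex.I).re = t := fun θ => by simp
  have hqn : ∀ θ : ℝ, ‖Complex.exp (-((t : ℂ) - (θ : ℝ) * Complex.I))‖ = Real.exp (-t) := by
    intro θ
    rw [norm_exp_neg, hre]
  have hq1 : Real.exp (-t) < 1 := by rw [Real.exp_lt_one_iff]; linarith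
  have h1 : ‖Fq (Complex.exp (-((t : ℂ) - (θ : ℝ) * Complex.I)))‖
      ≤ Real.exp (4 / (1 - Real.exp (-t))) := by
    have hq := hqn θ
    set q := Complex.exp (-((t : ℂ) - (θ : ℝ) * Complex.I)) with hqdef
    refine le_of_tendsto' (tendsto_FPe (q := q) (by rw [hq]; exact hq1)).norm fun N => ?_
    have := norm_FPe_le (q := q) (by rw [hq]; exact hq1) N
    rw [hq] at this
    exact this
  have h2 : ‖Complex.exp (n * ((t : ℂ) - (θ : ℝ) * Complex.I))‖ = Real.exp (n * t) := by
    rw [Complex.norm_exp]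
    congr 1
    simp
  have h3 : 4 / (1 - Real.exp (-t)) ≤ 4 * (1 / t + 1) := by
    have h4 : t / (1 + t) ≤ 1 - Real.exp (-t) := by
      have h5 := Real.add_one_le_exp t
      have h6 : Real.exp (-t) ≤ (1 + t)⁻¹ := by
        rw [Real.exp_neg]
        exact inv_anti₀ (by linarith) (by linarith)
      have h7 : t / (1 + t) = 1 - (1 + t)⁻¹ := by field_simp; ring
      linarith
    calc 4 / (1 - Real.exp (-t)) ≤ 4 / (t / (1 + t)) := by gcongr
      _ = _ := by field_simp
  rw [GG, norm_mul, h2, Real.exp_add]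
  gcongr
  exact h1.trans (Real.exp_le_exp.mpr h3)

lemma abs_cc_le (n : ℕ) {t : ℝ} (ht : 0 < t) :
    |((cc n : ℤ) : ℝ)| ≤ Real.exp (4 * (1 / t + 1) + n * t) := by
  have hpi := Real.pi_pos
  have hI := coeff_integral ht n
  have hI' : ∫ θ in (-(Real.pi / 2))..(3 * Real.pi / 2), GG n t θ = 2 * Real.pi * (cc n : ℤ) := hI
  have h1 := intervalIntegral.norm_integral_le_of_norm_le_const
    (a := -(Real.pi / 2)) (b := 3 * Real.pi / 2) (f := GG n t)
    (C := Real.exp (4 * (1 / t + 1) + n * t)) (fun θ _ => norm_GG_le n ht θ)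
  rw [hI'] at h1
  have h2 : ‖2 * (Real.pi : ℂ) * ((cc n : ℤ) : ℂ)‖ = 2 * Real.pi * |((cc n : ℤ) : ℝ)| := by
    have : 2 * (Real.pi : ℂ) * ((cc n : ℤ) : ℂ) = ((2 * Real.pi * ((cc n : ℤ) : ℝ) : ℝ) : ℂ) := by
      push_cast; rfl
    rw [this, Complex.norm_real, Real.norm_eq_abs, abs_mul, abs_of_pos (by positivity)]
  have h3 : |3 * Real.pi / 2 - -(Real.pi / 2)| = 2 * Real.pi := by
    rw [abs_of_pos (by linarith)]; ring
  rw [h2, h3, mul_comm] at h1
  exact le_of_mul_le_mul_right h1 (by positivity)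

set_option exponentiation.threshold 1000 in
lemma cc_bound : ∀ n < 11200, |cc n| < 2 ^ (640 - 1) := by
  intro n hn
  have h := abs_cc_le n (t := 1 / 52) (by norm_num)
  have h1 : (4 : ℝ) * (1 / (1 / 52) + 1) + n * (1 / 52) ≤ 428 := by
    have : (n : ℝ) ≤ 11200 := by exact_mod_cast hn.le
    norm_num
    linarith
  have h2 : Real.exp 428 < 2 ^ 639 := by
    have h3 : Real.exp 428 = Real.exp 1 ^ 428 := by rw [← Real.exp_nat_mul]; norm_num
    have h4 : Real.exp 1 < 2.72 := by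
      have := Real.exp_one_lt_d9
      linarith
    rw [h3]
    calc Real.exp 1 ^ 428 ≤ 2.72 ^ 428 := by gcongr
      _ < _ := by norm_num
  have h5 : |((cc n : ℤ) : ℝ)| < 2 ^ 639 :=
    (h.trans (Real.exp_le_exp.mpr h1)).trans_lt h2
  have h6 : ((|cc n| : ℤ) : ℝ) < ((2 ^ 639 : ℤ) : ℝ) := by
    rw [Int.cast_abs, Int.cast_pow, Int.cast_ofNat]
    exact h5
  have h7 : |cc n| < 2 ^ 639 := by exact_mod_cast h6
  exact h7

theorem main_true : mainTest 640 11200 149 14 = true := by decide +kernel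

/-- The difference is positive for every index above `27`. -/
theorem cc_pos {n : ℕ} (hn : 27 < n) : 0 < cc n := by
  rcases le_or_gt 11200 n with h | h
  · exact cc_pos_large h
  · exact mainTest_sound (B := 640) (L := 11200) (K := 149) (s := 14) (by norm_num) (by norm_num)
      (by norm_num) (by norm_num [tri]) cc_bound main_true n (by omega) h

end Pool.Agent.Helper3.OP
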